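import Mathlib

/-! Definitions for the disproof of `u_r(K((t))) ≤ 2 u_r(K)` (MP_25ed17_al). -/
set_option autoImplicit false
namespace Pool.Agent.H918R4
open MvPolynomial

/-- the value at `v` of the system of quadratic forms with coefficients `c i a b` -/
def QF {K : Type*} [CommRing K] {ι ν : Type*} [Fintype ν] (c : ι → ν → ν → K) (v : ν → K) : ι → K :=
  fun i => ∑ a, ∑ b, c i a b * v a * v b

/-- no nontrivial zero -/
def Aniso {K : Type*} [CommRing K] {ι ν : Type*} [Fintype ν] (c : ι → ν → ν → K) : Prop :=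
  ∀ v : ν → K, QF c v = 0 → v = 0

/-- a locally finite automorphism -/
def LocFin {Ω : Type*} [Field Ω] (τ : RingAut Ω) : Prop :=
  ∀ y : Ω, ∃ n : ℕ, 0 < n ∧ (τ ^ n) y = y

/-- elements fixed by `τ ^ n` for some `n ≥ 1` coprime to `p q` -/
def Kfix {Ω : Type*} [Field Ω] (p q : ℕ) (τ : RingAut Ω) : Subfield Ω where
  carrier := {y | ∃ n : ℕ, 0 < n ∧ n.Coprime (p * q) ∧ (τ ^ n) y = y}
  mul_mem' := by
    rintro a b ⟨n, hn, hc, ha⟩ ⟨m, hm, hd, hb⟩
    refine ⟨n * m, Nat.mul_pos hn hm, Nat.Coprime.mul_left hc hd, ?_⟩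
    have h1 : (τ ^ (n * m)) a = a := by
      rw [pow_mul]
      exact MulAction.mem_stabilizer_iff.1 (Subgroup.pow_mem (MulAction.stabilizer (RingAut Ω) a)
        (MulAction.mem_stabilizer_iff.2 ha) m)
    have h2 : (τ ^ (n * m)) b = b := by
      rw [mul_comm, pow_mul]
      exact MulAction.mem_stabilizer_iff.1 (Subgroup.pow_mem (MulAction.stabilizer (RingAut Ω) b)
        (MulAction.mem_stabilizer_iff.2 hb) n)
    rw [map_mul, h1, h2]
  one_mem' := ⟨1, Nat.one_pos, Nat.coprime_one_left _, map_one _⟩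
  add_mem' := by
    rintro a b ⟨n, hn, hc, ha⟩ ⟨m, hm, hd, hb⟩
    refine ⟨n * m, Nat.mul_pos hn hm, Nat.Coprime.mul_left hc hd, ?_⟩
    have h1 : (τ ^ (n * m)) a = a := by
      rw [pow_mul]
      exact MulAction.mem_stabilizer_iff.1 (Subgroup.pow_mem (MulAction.stabilizer (RingAut Ω) a)
        (MulAction.mem_stabilizer_iff.2 ha) m)
    have h2 : (τ ^ (n * m)) b = b := by
      rw [mul_comm, pow_mul]
      exact MulAction.mem_stabilizer_iff.1 (Subgroup.pow_mem (MulAction.stabilizer (RingAut Ω) b)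
        (MulAction.mem_stabilizer_iff.2 hb) n)
    rw [map_add, h1, h2]
  zero_mem' := ⟨1, Nat.one_pos, Nat.coprime_one_left _, map_zero _⟩
  neg_mem' := by
    rintro a ⟨n, hn, hc, ha⟩
    exact ⟨n, hn, hc, by rw [map_neg, ha]⟩
  inv_mem' := by
    rintro a ⟨n, hn, hc, ha⟩
    exact ⟨n, hn, hc, by rw [map_inv₀, ha]⟩

theorem mem_Kfix {Ω : Type*} [Field Ω] {p q : ℕ} {τ : RingAut Ω} {y : Ω} :
    y ∈ Kfix p q τ ↔ ∃ n : ℕ, 0 < n ∧ n.Coprime (p * q) ∧ (τ ^ n) y = y := Iff.rfl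

/-- every finite extension has degree `p ^ a * q ^ b` -/
def PQ (p q : ℕ) (F : Type) [Field F] : Prop :=
  ∀ (E : Type) [Field E] [Algebra F E] [FiniteDimensional F E],
    ∃ a b : ℕ, Module.finrank F E = p ^ a * q ^ b

/-- an algebraically closed field `Ω` over `k(u)` (algebraic over it) with an automorphism `τ`
lifting `σ`, `u ↦ c u`, and a `τ`-invariant valuation ring with residue map onto `k`. -/
structure LiftData (k : Type) [Field k] (σ : RingAut k) (c : k) where
  Ω : Type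
  [fld : Field Ω]
  [alg : Algebra k Ω]
  [closed : IsAlgClosed Ω]
  u : Ω
  trans : Transcendental k u
  τ : RingAut Ω
  O : ValuationSubring Ω
  φ : O →+* k
  isalg : ∀ y : Ω, IsAlgebraic (Subfield.closure (Set.range (algebraMap k Ω) ∪ {u})) y
  τ_map : ∀ x, τ (algebraMap k Ω x) = algebraMap k Ω (σ x)
  τ_u : τ u = algebraMap k Ω c * u
  mem_O : ∀ x : k, algebraMap k Ω x ∈ O
  φ_map : ∀ x : k, φ ⟨algebraMap k Ω x, mem_O x⟩ = x
  u_mem : u ∈ O
  φ_u : φ ⟨u, u_mem⟩ = 0
  τ_O : ∀ x ∈ O, τ x ∈ O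
  φ_τ : ∀ x (hx : x ∈ O), φ ⟨τ x, τ_O x hx⟩ = σ (φ ⟨x, hx⟩)

attribute [instance] LiftData.fld LiftData.alg LiftData.closed

/-- the quadratic form with coefficients `c a b` as a polynomial -/
noncomputable def qpol {A : Type} [CommRing A] {n : ℕ} (c : Fin n → Fin n → A) : MvPolynomial (Fin n) A :=
  ∑ a, ∑ b, C (c a b) * X a * X b

/-- `g_j = x_j² − x_{j+1} w`, `j < r`, in the variables `x_0, …, x_r, w` (`w` is the last variable) -/
noncomputable def g (A : Type) [CommRing A] (r : ℕ) (j : Fin r) : MvPolynomial (Fin (r + 2)) A :=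
  X j.castSucc.castSucc ^ 2 - X j.succ.castSucc * X (Fin.last (r + 1))

/-- the ideal `(g_0, …, g_{r-1})` -/
noncomputable def gJ (A : Type) [CommRing A] (r : ℕ) : Ideal (MvPolynomial (Fin (r + 2)) A) :=
  Ideal.span (Set.range (g A r))

/-- exponents of the monomials of degree `t` squarefree in `x_0, …, x_{r-1}` -/
def Bset (r t : ℕ) : Set (Fin (r + 2) →₀ ℕ) :=
  {m | m.degree = t ∧ ∀ i : Fin r, m i.castSucc.castSucc ≤ 1}

/-- degree `t` part of `S / J` (image of the homogeneous polynomials of degree `t`) -/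
noncomputable def AS {F : Type} [Field F] {n : ℕ} (J : Ideal (MvPolynomial (Fin n) F)) (t : ℕ) :
    Submodule F (MvPolynomial (Fin n) F ⧸ J) :=
  (homogeneousSubmodule (Fin n) F t).map (Ideal.Quotient.mkₐ F J).toLinearMap

/-- Hilbert function -/
noncomputable def HF {F : Type} [Field F] {n : ℕ} (J : Ideal (MvPolynomial (Fin n) F)) (t : ℕ) : ℕ :=
  Module.finrank F (AS J t)

/-- homogeneous ideal -/
def HomI {F : Type} [Field F] {n : ℕ} (J : Ideal (MvPolynomial (Fin n) F)) : Prop :=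
  ∀ f ∈ J, ∀ s, homogeneousComponent s f ∈ J

/-- the product of two homogeneous polynomials is in `I` only if one of them is -/
def DomI {F : Type} [Field F] {n : ℕ} (I : Ideal (MvPolynomial (Fin n) F)) : Prop :=
  ∀ (s t : ℕ) (a b : MvPolynomial (Fin n) F), a.IsHomogeneous s → b.IsHomogeneous t →
    a * b ∈ I → a ∈ I ∨ b ∈ I

/-- syzygies with homogeneous components of degree `d` -/
noncomputable def Syz {F : Type} [Field F] {n r : ℕ} (f : Fin r → MvPolynomial (Fin n) F) (d : ℕ) :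
    Submodule F (Fin r → MvPolynomial (Fin n) F) where
  carrier := {h | (∀ j, h j ∈ homogeneousSubmodule (Fin n) F d) ∧ ∑ j, h j * f j = 0}
  add_mem' := by
    rintro a b ⟨ha, ha'⟩ ⟨hb, hb'⟩
    refine ⟨fun j => Submodule.add_mem _ (ha j) (hb j), ?_⟩
    simp only [Pi.add_apply, add_mul, Finset.sum_add_distrib, ha', hb', add_zero]
  zero_mem' := ⟨fun j => Submodule.zero_mem _, by simp⟩
  smul_mem' := by
    rintro c a ⟨ha, ha'⟩
    refine ⟨fun j => Submodule.smul_mem _ c (ha j), ?_⟩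
    simp only [Pi.smul_apply, smul_mul_assoc, ← Finset.smul_sum, ha', smul_zero]

end Pool.Agent.H918R4
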