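import Pool.Agent.H918R4.Defs

/-! Task F1 of the disproof of `u_r(K((t))) ≤ 2 u_r(K)` (MP_25ed17_al): finite extensions of the
field `Kfix p q τ` have degree `p ^ a * q ^ b`. -/

set_option autoImplicit false

namespace Pool.Agent.H918R4

namespace TF1

open Polynomial

theorem pow_apply_iter {Ω : Type*} [Field Ω] (τ : RingAut Ω) (n : ℕ) (y : Ω) :
    (τ ^ n) y = (fun x => τ x)^[n] y := by
  induction n generalizing y with
  | zero => rfl
  | succ n ih => rw [pow_succ, RingAut.mul_apply, ih, Function.iterate_succ_apply]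

theorem iter_pow_apply {Ω : Type*} [Field Ω] (τ : RingAut Ω) (n j : ℕ) (y : Ω) :
    (fun x => (τ ^ n) x)^[j] y = (fun x => τ x)^[n * j] y := by
  rw [Function.iterate_mul]
  have h : (fun x => (τ ^ n) x) = (fun x => τ x)^[n] := by
    funext x
    exact pow_apply_iter τ n x
  rw [h]

theorem split_pq (p q : ℕ) (hp : p.Prime) (hq : q.Prime) : ∀ N : ℕ, 0 < N →
    ∃ N' a b : ℕ, N = N' * (p ^ a * q ^ b) ∧ N'.Coprime (p * q) := by
  intro N
  induction N using Nat.strong_induction_on with
  | _ N ih =>
    intro hN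
    by_cases h1 : p ∣ N
    · obtain ⟨M, rfl⟩ := h1
      have hM : 0 < M := Nat.pos_of_mul_pos_left hN
      obtain ⟨N', a, b, h2, h3⟩ := ih M (by
        have := hp.two_le
        nlinarith) hM
      exact ⟨N', a + 1, b, by rw [h2]; ring, h3⟩
    · by_cases h2 : q ∣ N
      · obtain ⟨M, rfl⟩ := h2
        have hM : 0 < M := Nat.pos_of_mul_pos_left hN
        obtain ⟨N', a, b, h2, h3⟩ := ih M (by
          have := hq.two_le
          nlinarith) hM
        exact ⟨N', a, b + 1, by rw [h2]; ring, h3⟩
      · refine ⟨N, 0, 0, by ring, ?_⟩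
        exact Nat.Coprime.mul_right ((Nat.Prime.coprime_iff_not_dvd hp).2 h1).symm
          ((Nat.Prime.coprime_iff_not_dvd hq).2 h2).symm

/-- the polynomial of an orbit is invariant -/
theorem orbit_inv {Ω : Type*} [Field Ω] (s : Ω →+* Ω) (y : Ω) (M : ℕ) (hM : Nat.iterate s M y = y) :
    (∏ i ∈ Finset.range M, (X - C (Nat.iterate s i y))).map s = ∏ i ∈ Finset.range M, (X - C (Nat.iterate s i y)) := by
  rw [Polynomial.map_prod]
  have h1 : ∀ i ∈ Finset.range M, (X - C (Nat.iterate s i y)).map s = X - C (Nat.iterate s (i + 1) y) := by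
    intro i _
    rw [Polynomial.map_sub, map_X, map_C, Function.iterate_succ_apply']
  rw [Finset.prod_congr rfl h1]
  have h2 := Finset.prod_range_succ' (fun i => (X - C (Nat.iterate s i y) : Polynomial Ω)) M
  have h3 := Finset.prod_range_succ (fun i => (X - C (Nat.iterate s i y) : Polynomial Ω)) M
  have h4 : (X - C (Nat.iterate s 0 y) : Polynomial Ω) ≠ 0 := X_sub_C_ne_zero _
  refine mul_right_cancel₀ h4 ?_
  rw [← h2, h3, hM]
  rfl

section

variable (Ω : Type) [Field Ω] (p q : ℕ) (hp : p.Prime) (hq : q.Prime) (τ : RingAut Ω)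

/-- finitely many elements of `K` are fixed by a common power -/
theorem common (f : (Kfix p q τ)[X]) : ∃ n : ℕ, 0 < n ∧ n.Coprime (p * q) ∧
    ∀ i, (τ ^ n) ((f.coeff i : Kfix p q τ) : Ω) = (f.coeff i : Kfix p q τ) := by
  have key : ∀ m : ℕ, ∃ n : ℕ, 0 < n ∧ n.Coprime (p * q) ∧
      ∀ i < m, (τ ^ n) ((f.coeff i : Kfix p q τ) : Ω) = (f.coeff i : Kfix p q τ) := by
    intro m
    induction m with
    | zero => exact ⟨1, Nat.one_pos, Nat.coprime_one_left _, fun i hi => absurd hi (Nat.not_lt_zero _)⟩
    | succ m ih =>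
      obtain ⟨n, h1, h2, h3⟩ := ih
      obtain ⟨n', h1', h2', h3'⟩ := (mem_Kfix.1 (f.coeff m).2)
      refine ⟨n * n', Nat.mul_pos h1 h1', Nat.Coprime.mul_left h2 h2', ?_⟩
      intro i hi
      rcases Nat.lt_succ_iff_lt_or_eq.1 hi with h | h
      · rw [pow_mul]
        exact MulAction.mem_stabilizer_iff.1 (Subgroup.pow_mem (MulAction.stabilizer (RingAut Ω) _)
          (MulAction.mem_stabilizer_iff.2 (h3 i h)) n')
      · subst h
        rw [mul_comm, pow_mul]
        exact MulAction.mem_stabilizer_iff.1 (Subgroup.pow_mem (MulAction.stabilizer (RingAut Ω) _)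
          (MulAction.mem_stabilizer_iff.2 h3') n)
  obtain ⟨n, h1, h2, h3⟩ := key (f.natDegree + 1)
  refine ⟨n, h1, h2, fun i => ?_⟩
  by_cases hi : i < f.natDegree + 1
  · exact h3 i hi
  · rw [coeff_eq_zero_of_natDegree_lt (by omega)]
    simp

include hp hq in
theorem degree_minpoly (hτ : LocFin τ) (y : Ω) (hy : IsIntegral (Kfix p q τ) y) :
    ∃ a b : ℕ, (minpoly (Kfix p q τ) y).natDegree = p ^ a * q ^ b := by
  classical
  set K := Kfix p q τ with hK
  set t : Ω → Ω := fun x => τ x with ht
  set N := Function.minimalPeriod t y with hN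
  have hN0 : 0 < N := by
    obtain ⟨n, hn, h⟩ := hτ y
    refine Function.IsPeriodicPt.minimalPeriod_pos hn ?_
    show t^[n] y = y
    rw [← pow_apply_iter]
    exact h
  obtain ⟨N', a, b, hNN, hco⟩ := split_pq p q hp hq N hN0
  refine ⟨a, b, ?_⟩
  set N'' := p ^ a * q ^ b with hN''
  have hN''0 : 0 < N'' := Nat.mul_pos (pow_pos hp.pos _) (pow_pos hq.pos _)
  have hN'0 : 0 < N' := by
    rcases Nat.eq_zero_or_pos N' with h | h
    · rw [h, zero_mul] at hNN
      omega
    · exact h
  have hco2 : ∀ n : ℕ, n.Coprime (p * q) → n.Coprime N'' := by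
    intro n hn
    exact Nat.Coprime.mul_right (Nat.Coprime.pow_right _ (Nat.Coprime.coprime_mul_right_right hn))
      (Nat.Coprime.pow_right _ (Nat.Coprime.coprime_mul_left_right hn))
  apply le_antisymm
  · -- upper bound
    set s : Ω →+* Ω := ((τ ^ N' : RingAut Ω) : Ω ≃+* Ω).toRingHom with hs
    have hsa : ∀ x, s x = (τ ^ N') x := fun x => rfl
    have hsM : Nat.iterate s N'' y = y := by
      have h1 : (fun x => (τ ^ N') x)^[N''] y = t^[N' * N''] y := iter_pow_apply τ N' N'' y
      have h2 : (s : Ω → Ω) = fun x => (τ ^ N') x := rfl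
      rw [h2, h1, ← hNN]
      exact Function.iterate_minimalPeriod
    set P : Polynomial Ω := ∏ i ∈ Finset.range N'', (X - C (Nat.iterate s i y)) with hP
    have hinv : P.map s = P := orbit_inv s y N'' hsM
    have hlift : P ∈ lifts (algebraMap K Ω) := by
      rw [lifts_iff_coeff_lifts]
      intro i
      have h1 : (τ ^ N') (P.coeff i) = P.coeff i := by
        rw [← hsa, ← coeff_map, hinv]
      exact ⟨⟨P.coeff i, mem_Kfix.2 ⟨N', hN'0, hco, h1⟩⟩, rfl⟩
    have hPm : P.Monic := monic_prod_of_monic _ _ fun i _ => monic_X_sub_C _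
    have hPd : P.natDegree = N'' := by
      rw [hP, natDegree_prod_of_monic _ _ (fun i _ => monic_X_sub_C _)]
      simp
    obtain ⟨P', h1, h2, h3⟩ := lifts_and_natDegree_eq_and_monic hlift hPm
    have h4 : aeval y P' = 0 := by
      rw [aeval_def, ← eval_map, h1, hP, eval_prod]
      refine Finset.prod_eq_zero (Finset.mem_range.2 hN''0) ?_
      simp
    have h5 := natDegree_le_of_dvd (minpoly.dvd K y h4) h3.ne_zero
    rw [h2, hPd] at h5
    exact h5
  · -- lower bound
    obtain ⟨n, hn0, hnco, hn⟩ := common Ω p q τ (minpoly K y)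
    set m := (minpoly K y).map (algebraMap K Ω) with hm
    have hmd : m.natDegree = (minpoly K y).natDegree := natDegree_map _
    have hm0 : m ≠ 0 := by
      rw [hm, Ne, Polynomial.map_eq_zero]
      exact minpoly.ne_zero hy
    set s : Ω →+* Ω := ((τ ^ n : RingAut Ω) : Ω ≃+* Ω).toRingHom with hs
    have hsa : ∀ x, s x = (τ ^ n) x := fun x => rfl
    have hms : m.map s = m := by
      ext i
      rw [coeff_map, hm, coeff_map, hsa]
      exact hn i
    have hroot : ∀ x : Ω, m.eval x = 0 → m.eval (s x) = 0 := by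
      intro x hx
      have h1 : (m.map s).eval (s x) = s (m.eval x) := by
        rw [eval_map, eval₂_hom]
      rw [hms, hx, map_zero] at h1
      exact h1
    have hroots : ∀ j : ℕ, m.eval (Nat.iterate s j y) = 0 := by
      intro j
      induction j with
      | zero =>
        show m.eval y = 0
        rw [hm, eval_map, ← aeval_def]
        exact minpoly.aeval K y
      | succ j ih =>
        rw [Function.iterate_succ_apply']
        exact hroot _ ih
    set M := Function.minimalPeriod (s : Ω → Ω) y with hM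
    have hMeq : M = N / Nat.gcd N n := by
      have h2 : (s : Ω → Ω) = t^[n] := by
        funext x
        exact pow_apply_iter τ n x
      rw [hM, h2]
      exact Function.minimalPeriod_iterate_eq_div_gcd (by omega)
    have hg : Nat.gcd N n ∣ N' := by
      have h3 : Nat.gcd N n ∣ N' * N'' := by
        rw [← hNN]
        exact Nat.gcd_dvd_left _ _
      have h4 : (Nat.gcd N n).Coprime N'' :=
        Nat.Coprime.coprime_dvd_left (Nat.gcd_dvd_right _ _) (hco2 n hnco)
      exact h4.dvd_of_dvd_mul_right h3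
    have hgpos : 0 < Nat.gcd N n := Nat.gcd_pos_of_pos_left _ hN0
    have hMN : N'' ≤ M := by
      rw [hMeq, Nat.le_div_iff_mul_le hgpos]
      calc N'' * Nat.gcd N n ≤ N'' * N' := Nat.mul_le_mul_left _ (Nat.le_of_dvd hN'0 hg)
        _ = N := by rw [hNN, mul_comm]
    have hinj : Set.InjOn (fun j : ℕ => Nat.iterate s j y) (Finset.range M : Set ℕ) := by
      intro i hi j hj hij
      have hi' : i < M := by simpa using hi
      have hj' : j < M := by simpa using hj
      exact (Function.iterate_injOn_Iio_minimalPeriod (f := (s : Ω → Ω)) (x := y)) hi' hj' hij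
    have hcard : ((Finset.range M).image (fun j : ℕ => Nat.iterate s j y)).card = M := by
      rw [Finset.card_image_of_injOn hinj, Finset.card_range]
    have hsub : ((Finset.range M).image (fun j : ℕ => Nat.iterate s j y)) ⊆ m.roots.toFinset := by
      intro x hx
      obtain ⟨j, _, rfl⟩ := Finset.mem_image.1 hx
      rw [Multiset.mem_toFinset, mem_roots hm0]
      exact hroots j
    have h6 := Finset.card_le_card hsub
    rw [hcard] at h6
    have h7 := (Multiset.toFinset_card_le m.roots).trans (card_roots' m)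
    rw [hmd] at h7
    exact hMN.trans (h6.trans h7)

end

end TF1

open Polynomial in
/-- F1 -/
theorem pq_Kfix (Ω : Type) [Field Ω] [IsAlgClosed Ω] [CharZero Ω] (p q : ℕ) (hp : p.Prime)
    (hq : q.Prime) (τ : RingAut Ω) (hτ : LocFin τ) : PQ p q (Kfix p q τ) := by
  intro E _ _ _
  obtain ⟨α, hα⟩ := Field.exists_primitive_element (Kfix p q τ) E
  have hint : IsIntegral (Kfix p q τ) α := Algebra.IsIntegral.isIntegral α
  have h1 : Module.finrank (Kfix p q τ) E = (minpoly (Kfix p q τ) α).natDegree := by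
    rw [← IntermediateField.adjoin.finrank hint, hα, IntermediateField.finrank_top']
  have hirr := minpoly.irreducible hint
  obtain ⟨y, hy⟩ := IsAlgClosed.exists_aeval_eq_zero Ω (minpoly (Kfix p q τ) α)
    (minpoly.degree_pos hint).ne'
  have h2 : minpoly (Kfix p q τ) α = minpoly (Kfix p q τ) y :=
    minpoly.eq_of_irreducible_of_monic hirr hy (minpoly.monic hint)
  have hy' : IsIntegral (Kfix p q τ) y := ⟨_, minpoly.monic hint, hy⟩
  rw [h1, h2]
  exact TF1.degree_minpoly Ω p q hp hq τ hτ y hy'

end Pool.Agent.H918R4
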