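import Pool.Agent.H918R4.Defs

/-! Task F2: a criterion for local finiteness (helper794). -/
set_option autoImplicit false
namespace Pool.Agent.H918R4
open Polynomial

namespace TF2

theorem mem_one {Ω : Type*} [Field Ω] {τ : RingAut Ω} {y : Ω} :
    y ∈ Kfix 1 1 τ ↔ ∃ n : ℕ, 0 < n ∧ (τ ^ n) y = y := by
  rw [mem_Kfix]
  constructor
  · rintro ⟨n, hn, -, h⟩
    exact ⟨n, hn, h⟩
  · rintro ⟨n, hn, h⟩
    exact ⟨n, hn, by simp, h⟩

theorem pow_fix {Ω : Type*} [Field Ω] {τ : RingAut Ω} {y : Ω} {n : ℕ} (h : (τ ^ n) y = y) (m : ℕ) :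
    (τ ^ (n * m)) y = y := by
  rw [pow_mul]
  exact MulAction.mem_stabilizer_iff.1 (Subgroup.pow_mem (MulAction.stabilizer (RingAut Ω) y)
    (MulAction.mem_stabilizer_iff.2 h) m)

theorem fin_fix {Ω ι : Type*} [Field Ω] {τ : RingAut Ω} (s : Finset ι) (x : ι → Ω)
    (h : ∀ i ∈ s, ∃ n : ℕ, 0 < n ∧ (τ ^ n) (x i) = x i) :
    ∃ n : ℕ, 0 < n ∧ ∀ i ∈ s, (τ ^ n) (x i) = x i := by
  classical
  induction s using Finset.induction_on with
  | empty => exact ⟨1, Nat.one_pos, by simp⟩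
  | insert a s ha ih =>
    obtain ⟨n, hn, h1⟩ := ih (fun i hi => h i (Finset.mem_insert_of_mem hi))
    obtain ⟨m, hm, h2⟩ := h a (Finset.mem_insert_self _ _)
    refine ⟨n * m, Nat.mul_pos hn hm, fun i hi => ?_⟩
    rcases Finset.mem_insert.1 hi with rfl | hi
    · rw [mul_comm]; exact pow_fix h2 n
    · exact pow_fix (h1 i hi) m

end TF2

open TF2

/-- F2 -/
theorem locFin_of (Ω : Type) [Field Ω] (τ : RingAut Ω) (S : Set Ω)
    (hS : ∀ x ∈ S, ∃ n : ℕ, 0 < n ∧ (τ ^ n) x = x)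
    (halg : ∀ y : Ω, IsAlgebraic (Subfield.closure S) y) : LocFin τ := by
  classical
  intro y
  have hcl : Subfield.closure S ≤ Kfix 1 1 τ :=
    Subfield.closure_le.2 (fun x hx => mem_one.2 (hS x hx))
  obtain ⟨f, hf0, hfy⟩ := halg y
  obtain ⟨N, hN, hfix⟩ := fin_fix (τ := τ) f.support (fun i => ((f.coeff i : Subfield.closure S) : Ω))
    (fun i _ => mem_one.1 (hcl (f.coeff i).2))
  set g : Polynomial Ω := f.map (algebraMap (Subfield.closure S) Ω) with hg
  have hg0 : g ≠ 0 := (Polynomial.map_ne_zero_iff (algebraMap (Subfield.closure S) Ω).injective).2 hf0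
  have hgy : g.eval y = 0 := by rw [hg, Polynomial.eval_map, ← Polynomial.aeval_def]; exact hfy
  have hcoef : ∀ i, (τ ^ N) (g.coeff i) = g.coeff i := by
    intro i
    by_cases hi : i ∈ f.support
    · rw [hg, Polynomial.coeff_map]; exact hfix i hi
    · rw [hg, Polynomial.coeff_map, Polynomial.notMem_support_iff.1 hi]; simp
  have hroot : ∀ j : ℕ, (τ ^ (N * j)) y ∈ g.roots.toFinset := by
    intro j
    rw [Multiset.mem_toFinset, Polynomial.mem_roots hg0, Polynomial.IsRoot.def]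
    have hmap : g.map ((τ ^ (N * j) : RingAut Ω) : Ω →+* Ω) = g := by
      ext i
      rw [Polynomial.coeff_map]
      exact pow_fix (hcoef i) j
    have h1 : (g.map ((τ ^ (N * j) : RingAut Ω) : Ω →+* Ω)).eval (((τ ^ (N * j) : RingAut Ω) : Ω →+* Ω) y) =
        ((τ ^ (N * j) : RingAut Ω) : Ω →+* Ω) (g.eval y) := by
      rw [Polynomial.eval_map, Polynomial.eval₂_at_apply]
    rw [hmap, hgy, map_zero] at h1
    exact h1
  obtain ⟨i, j, hij, heq⟩ := Finite.exists_ne_map_eq_of_infinite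
    (fun j : ℕ => (⟨(τ ^ (N * j)) y, hroot j⟩ : g.roots.toFinset))
  have heq' : (τ ^ (N * i)) y = (τ ^ (N * j)) y := congrArg Subtype.val heq
  have key : ∀ a b : ℕ, a < b → (τ ^ (N * a)) y = (τ ^ (N * b)) y →
      ∃ n : ℕ, 0 < n ∧ (τ ^ n) y = y := by
    intro a b hab h
    refine ⟨N * (b - a), Nat.mul_pos hN (by omega), ?_⟩
    apply (τ ^ (N * a)).injective
    have e : N * b = N * a + N * (b - a) := by rw [← mul_add]; congr 1; omega
    rw [e, pow_add] at h
    exact h.symm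
  rcases lt_or_gt_of_ne hij with h | h
  · exact key i j h heq'
  · exact key j i h heq'.symm

end Pool.Agent.H918R4
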