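import Pool.Agent.H918R4.Defs

/-! G3: counting the monomials of degree `t` squarefree in the first `r` variables -/

set_option autoImplicit false

namespace Pool.Agent.H918R4

namespace TG3

open Finset

/-- the exponent with support data `J` and exponent `e` of the last but one variable -/
noncomputable def F (r t : ℕ) (x : Σ _ : Finset (Fin r), ℕ) : Fin (r + 2) →₀ ℕ :=
  Finsupp.equivFunOnFinite.symm 
    (Fin.snoc (α := fun _ => ℕ) (Fin.snoc (α := fun _ => ℕ) (fun i : Fin r => if i ∈ x.1 then 1 else 0) x.2) 
      (t - x.1.card - x.2))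

theorem F_first (r t : ℕ) (x : Σ _ : Finset (Fin r), ℕ) (i : Fin r) : 
    F r t x i.castSucc.castSucc = if i ∈ x.1 then 1 else 0 := by
  simp [F]

theorem F_mid (r t : ℕ) (x : Σ _ : Finset (Fin r), ℕ) : 
    F r t x (Fin.last r).castSucc = x.2 := by
  simp [F]

theorem F_last (r t : ℕ) (x : Σ _ : Finset (Fin r), ℕ) : 
    F r t x (Fin.last (r + 1)) = t - x.1.card - x.2 := by
  simp [F]

theorem deg (r : ℕ) (m : Fin (r + 2) →₀ ℕ) : 
    m.degree = (∑ i : Fin r, m i.castSucc.castSucc) + m (Fin.last r).castSucc + m (Fin.last (r + 1)) := by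
  rw [Finsupp.degree_eq_sum, Fin.sum_univ_castSucc, Fin.sum_univ_castSucc]

theorem sum_card (r : ℕ) : ∑ J : Finset (Fin r), J.card = r * 2 ^ (r - 1) := by
  have h1 : ∑ J : Finset (Fin r), J.card = ∑ J : Finset (Fin r), (r - J.card) := by
    refine Fintype.sum_equiv (Equiv.ofBijective compl compl_bijective) _ _ fun J => ?_
    simp only [Equiv.ofBijective_apply]
    rw [card_compl, Fintype.card_fin]
    have : J.card ≤ r := by
      have := card_le_univ J
      simpa using this
    omega
  have h2 : ∑ J : Finset (Fin r), J.card + ∑ J : Finset (Fin r), J.card = r * 2 ^ r := by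
    conv_lhs => arg 2; rw [h1]
    rw [← sum_add_distrib]
    have : ∀ J : Finset (Fin r), J.card + (r - J.card) = r := by
      intro J
      have : J.card ≤ r := by
        have := card_le_univ J
        simpa using this
      omega
    simp only [this, sum_const, card_univ, Fintype.card_finset, Fintype.card_fin, smul_eq_mul]
    ring
  rcases Nat.eq_zero_or_pos r with rfl | hr
  · simp only [zero_mul] at h2 ⊢
    omega
  · obtain ⟨s, rfl⟩ : ∃ s, r = s + 1 := ⟨r - 1, by omega⟩
    rw [pow_succ] at h2
    rw [Nat.add_sub_cancel]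
    nlinarith

theorem image_eq (r t : ℕ) (h : r ≤ t) : 
    Bset r t = F r t '' ((univ : Finset (Finset (Fin r))).sigma (fun J => range (t - J.card + 1)) : 
      Finset (Σ _ : Finset (Fin r), ℕ)) := by
  ext m
  constructor
  · rintro ⟨h1, h2⟩
    rw [deg] at h1
    set J : Finset (Fin r) := univ.filter (fun i => m i.castSucc.castSucc = 1) with hJ
    have hval : ∀ i : Fin r, m i.castSucc.castSucc = if i ∈ J then 1 else 0 := by
      intro i
      have := h2 i
      by_cases hi : m i.castSucc.castSucc = 1
      · rw [if_pos (by simp [hJ, hi]), hi]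
      · rw [if_neg (by simp [hJ, hi])]
        omega
    have hsum : ∑ i : Fin r, m i.castSucc.castSucc = J.card := by
      rw [Finset.sum_congr rfl (fun i _ => hval i)]
      simp
    rw [hsum] at h1
    refine ⟨⟨J, m (Fin.last r).castSucc⟩, ?_, ?_⟩
    · simp only [coe_sigma, Set.mem_sigma_iff, coe_univ, Set.mem_univ, true_and, coe_range, 
        Set.mem_Iio]
      omega
    · ext k
      refine Fin.lastCases ?_ (fun k => ?_) k
      · rw [F_last]
        show t - J.card - m (Fin.last r).castSucc = _
        omega
      · refine Fin.lastCases ?_ (fun k => ?_) k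
        · rw [F_mid]
        · rw [F_first, hval]
  · rintro ⟨⟨J, e⟩, hx, rfl⟩
    simp only [coe_sigma, Set.mem_sigma_iff, coe_univ, Set.mem_univ, true_and, coe_range, 
      Set.mem_Iio] at hx
    have hJ : J.card ≤ r := by
      have := card_le_univ J
      simpa using this
    refine ⟨?_, fun i => ?_⟩
    · rw [deg, F_mid, F_last]
      simp only [F_first]
      have : ∑ i : Fin r, (if i ∈ J then 1 else 0) = J.card := by simp
      rw [this]
      show J.card + e + (t - J.card - e) = t
      omega
    · rw [F_first]
      split_ifs <;> omega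

theorem inj (r t : ℕ) : Function.Injective (F r t) := by
  rintro ⟨J, e⟩ ⟨J', e'⟩ h
  have h1 : e = e' := by
    have := congrArg (fun m => m (Fin.last r).castSucc) h
    simpa only [F_mid] using this
  have h2 : J = J' := by
    ext i
    have := congrArg (fun m => m i.castSucc.castSucc) h
    simp only [F_first] at this
    by_cases hi : i ∈ J <;> by_cases hi' : i ∈ J' <;> simp_all
  rw [h1, h2]

end TG3

open TG3 in
/-- G3 -/
theorem ncard_Bset (r t : ℕ) (h : r ≤ t) :
    (Bset r t).ncard + r * 2 ^ (r - 1) = 2 ^ r * t + 2 ^ r := by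
  rw [image_eq r t h, Set.ncard_image_of_injective _ (inj r t), Set.ncard_coe_finset, 
    Finset.card_sigma, ← sum_card r, ← Finset.sum_add_distrib]
  have : ∀ J : Finset (Fin r), (Finset.range (t - J.card + 1)).card + J.card = t + 1 := by
    intro J
    have hJ : J.card ≤ r := by
      have := Finset.card_le_univ J
      simpa using this
    rw [Finset.card_range]
    omega
  simp only [this, Finset.sum_const, Finset.card_univ, Fintype.card_finset, Fintype.card_fin, 
    smul_eq_mul]
  ring

end Pool.Agent.H918R4
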