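import Pool.Agent.H918R4.TG1

/-! Task G2 of the disproof of `u_r(K((t))) ≤ 2 u_r(K)`: the ideal `(g)` is prime and the monomials
squarefree in `x_0, …, x_{r-1}` are independent modulo `(g)`. -/
set_option autoImplicit false
namespace Pool.Agent.H918R4
open MvPolynomial

namespace TG2

/-- exponents squarefree in `x_0, …, x_{r-1}` -/
def Ball (r : ℕ) : Set (Fin (r + 2) →₀ ℕ) := {m | ∀ i : Fin r, m i.castSucc.castSucc ≤ 1}

/-- binary expansions -/
theorem bin (r : ℕ) : ∀ (m m' : Fin r → ℕ) (e e' : ℕ), (∀ j, m j ≤ 1) → (∀ j, m' j ≤ 1) →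
    ∑ j, m j * 2 ^ (j : ℕ) + e * 2 ^ r = ∑ j, m' j * 2 ^ (j : ℕ) + e' * 2 ^ r →
    m = m' ∧ e = e' := by
  induction r with
  | zero =>
    intro m m' e e' _ _ h
    simp at h
    exact ⟨Subsingleton.elim _ _, h⟩
  | succ r ih =>
    intro m m' e e' hm hm' h
    rw [Fin.sum_univ_succ, Fin.sum_univ_succ] at h
    have e1 : ∀ f : Fin (r + 1) → ℕ, ∑ j : Fin r, f j.succ * 2 ^ ((j.succ : Fin (r + 1)) : ℕ) =
        2 * ∑ j : Fin r, f j.succ * 2 ^ (j : ℕ) := by
      intro f
      rw [Finset.mul_sum]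
      refine Finset.sum_congr rfl fun j _ => ?_
      rw [Fin.val_succ, pow_succ]; ring
    rw [e1 m, e1 m', pow_succ] at h
    simp only [Fin.val_zero, pow_zero, mul_one] at h
    have h0 := hm 0
    have h0' := hm' 0
    have h2 : m 0 + 2 * (∑ j : Fin r, m j.succ * 2 ^ (j : ℕ) + e * 2 ^ r) =
        m' 0 + 2 * (∑ j : Fin r, m' j.succ * 2 ^ (j : ℕ) + e' * 2 ^ r) := by
      linarith
    have h3 : m 0 = m' 0 := by omega
    have h4 : ∑ j : Fin r, m j.succ * 2 ^ (j : ℕ) + e * 2 ^ r =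
        ∑ j : Fin r, m' j.succ * 2 ^ (j : ℕ) + e' * 2 ^ r := by omega
    obtain ⟨h5, h6⟩ := ih (fun j => m j.succ) (fun j => m' j.succ) e e' (fun j => hm _)
      (fun j => hm' _) h4
    refine ⟨?_, h6⟩
    funext j
    refine Fin.cases h3 (fun j => ?_) j
    exact congrFun h5 j

/-- exponents of the images of the variables -/
noncomputable def ex (r : ℕ) (i : Fin (r + 2)) : Fin 2 →₀ ℕ :=
  if (i : ℕ) ≤ r then Finsupp.single 0 (2 ^ (i : ℕ)) + Finsupp.single 1 (2 ^ r - 2 ^ (i : ℕ))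
  else Finsupp.single 1 (2 ^ r)

/-- the exponent of the image of a monomial -/
noncomputable def ph (r : ℕ) (m : Fin (r + 2) →₀ ℕ) : Fin 2 →₀ ℕ := ∑ i, m i • ex r i

theorem ph_zero (r : ℕ) (m : Fin (r + 2) →₀ ℕ) :
    ph r m 0 = ∑ j : Fin r, m j.castSucc.castSucc * 2 ^ (j : ℕ) +
      m (Fin.last r).castSucc * 2 ^ r := by
  unfold ph
  rw [Fin.sum_univ_castSucc, Fin.sum_univ_castSucc]
  simp only [Finsupp.coe_add, Finsupp.coe_finset_sum, Pi.add_apply, Finset.sum_apply,
    Finsupp.coe_smul, Pi.smul_apply, smul_eq_mul]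
  have h1 : ∀ j : Fin r, ex r j.castSucc.castSucc 0 = 2 ^ (j : ℕ) := by
    intro j
    have : ((j.castSucc.castSucc : Fin (r + 2)) : ℕ) ≤ r := by
      simp only [Fin.val_castSucc]; exact j.2.le
    unfold ex
    rw [if_pos this]
    simp
  have h2 : ex r (Fin.last r).castSucc 0 = 2 ^ r := by
    have : (((Fin.last r).castSucc : Fin (r + 2)) : ℕ) ≤ r := by simp
    unfold ex
    rw [if_pos this]
    simp
  have h3 : ex r (Fin.last (r + 1)) 0 = 0 := by
    have : ¬ ((Fin.last (r + 1) : Fin (r + 2)) : ℕ) ≤ r := by simp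
    unfold ex
    rw [if_neg this]
    simp
  rw [h2, h3]
  simp only [h1, mul_zero, add_zero]

theorem ph_one (r : ℕ) (m : Fin (r + 2) →₀ ℕ) :
    ph r m 1 = ∑ j : Fin r, m j.castSucc.castSucc * (2 ^ r - 2 ^ (j : ℕ)) +
      m (Fin.last (r + 1)) * 2 ^ r := by
  unfold ph
  rw [Fin.sum_univ_castSucc, Fin.sum_univ_castSucc]
  simp only [Finsupp.coe_add, Finsupp.coe_finset_sum, Pi.add_apply, Finset.sum_apply,
    Finsupp.coe_smul, Pi.smul_apply, smul_eq_mul]
  have h1 : ∀ j : Fin r, ex r j.castSucc.castSucc 1 = 2 ^ r - 2 ^ (j : ℕ) := by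
    intro j
    have : ((j.castSucc.castSucc : Fin (r + 2)) : ℕ) ≤ r := by
      simp only [Fin.val_castSucc]; exact j.2.le
    unfold ex
    rw [if_pos this]
    simp
  have h2 : ex r (Fin.last r).castSucc 1 = 0 := by
    have : (((Fin.last r).castSucc : Fin (r + 2)) : ℕ) ≤ r := by simp
    unfold ex
    rw [if_pos this]
    simp
  have h3 : ex r (Fin.last (r + 1)) 1 = 2 ^ r := by
    have : ¬ ((Fin.last (r + 1) : Fin (r + 2)) : ℕ) ≤ r := by simp
    unfold ex
    rw [if_neg this]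
    simp
  rw [h2, h3]
  simp only [h1, mul_zero, add_zero]

theorem ph_inj (r : ℕ) : Set.InjOn (ph r) (Ball r) := by
  intro m hm m' hm' h
  have h0 := congrArg (fun z => z 0) h
  have h1 := congrArg (fun z => z 1) h
  simp only [ph_zero, ph_one] at h0 h1
  obtain ⟨h2, h3⟩ := bin r (fun j => m j.castSucc.castSucc) (fun j => m' j.castSucc.castSucc)
    _ _ hm hm' h0
  have h4 : ∀ j : Fin r, m j.castSucc.castSucc = m' j.castSucc.castSucc := fun j => congrFun h2 j
  simp only [h4] at h1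
  have h5 : m (Fin.last (r + 1)) = m' (Fin.last (r + 1)) := by
    have h6 : m (Fin.last (r + 1)) * 2 ^ r = m' (Fin.last (r + 1)) * 2 ^ r := by omega
    exact Nat.eq_of_mul_eq_mul_right (by positivity) h6
  ext i
  refine Fin.lastCases h5 (fun i => ?_) i
  refine Fin.lastCases h3 (fun j => ?_) i
  exact h4 j

variable (κ : Type) [Field κ]

/-- the parametrisation -/
noncomputable def th (r : ℕ) : MvPolynomial (Fin (r + 2)) κ →ₐ[κ] MvPolynomial (Fin 2) κ :=
  aeval fun i => monomial (ex r i) (1 : κ)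

theorem th_monomial (r : ℕ) (m : Fin (r + 2) →₀ ℕ) (c : κ) :
    th κ r (monomial m c) = monomial (ph r m) c := by
  unfold th ph
  rw [aeval_monomial, Finsupp.prod_fintype _ _ (fun i => pow_zero _)]
  simp only [monomial_pow, one_pow]
  rw [← monomial_sum_one, algebraMap_eq, C_mul_monomial, mul_one]

theorem th_g (r : ℕ) (j : Fin r) : th κ r (g κ r j) = 0 := by
  unfold g th
  rw [map_sub, map_pow, map_mul, aeval_X, aeval_X, aeval_X, monomial_pow, monomial_mul, one_pow,
    one_mul, sub_eq_zero]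
  have key : 2 • ex r j.castSucc.castSucc = ex r j.succ.castSucc + ex r (Fin.last (r + 1)) := by
    have a1 : ((j.castSucc.castSucc : Fin (r + 2)) : ℕ) ≤ r := by
      simp only [Fin.val_castSucc]; exact j.2.le
    have a2 : ((j.succ.castSucc : Fin (r + 2)) : ℕ) ≤ r := by
      simp only [Fin.val_castSucc, Fin.val_succ]; exact j.2
    have a3 : ¬ ((Fin.last (r + 1) : Fin (r + 2)) : ℕ) ≤ r := by simp
    unfold ex
    rw [if_pos a1, if_pos a2, if_neg a3]
    have hp : 2 ^ ((j : ℕ) + 1) ≤ 2 ^ r := Nat.pow_le_pow_right (by norm_num) j.2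
    have hp' : 2 ^ ((j : ℕ) + 1) = 2 ^ (j : ℕ) * 2 := pow_succ _ _
    ext i
    fin_cases i
    · simp [Fin.val_castSucc, Fin.val_succ, pow_succ, mul_comm]
    · simp [Fin.val_castSucc, Fin.val_succ]
      omega
  rw [key]

theorem gJ_le_ker (r : ℕ) : gJ κ r ≤ RingHom.ker (th κ r) := by
  unfold gJ
  rw [Ideal.span_le]
  rintro _ ⟨j, rfl⟩
  exact th_g κ r j

theorem supp_span (r : ℕ) (S : Set (Fin (r + 2) →₀ ℕ)) (b : MvPolynomial (Fin (r + 2)) κ)
    (hb : b ∈ Submodule.span κ ((fun m => monomial m (1 : κ)) '' S)) :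
    ∀ m, m ∉ S → coeff m b = 0 := by
  intro m hm
  induction hb using Submodule.span_induction with
  | mem x hx =>
    obtain ⟨m', hm', rfl⟩ := hx
    rw [coeff_monomial, if_neg]
    rintro rfl
    exact hm hm'
  | zero => simp
  | add x y _ _ hx hy => rw [coeff_add, hx, hy, add_zero]
  | smul c x _ hx => rw [coeff_smul, hx, smul_zero]

theorem inj (r : ℕ) (b : MvPolynomial (Fin (r + 2)) κ) (hb : ∀ m, m ∉ Ball r → coeff m b = 0)
    (h : th κ r b = 0) : b = 0 := by
  classical
  ext m0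
  rw [coeff_zero]
  by_cases hm0 : m0 ∈ Ball r
  · have h1 : coeff (ph r m0) (th κ r b) = coeff m0 b := by
      conv_lhs => rw [← support_sum_monomial_coeff b]
      rw [map_sum, coeff_sum]
      simp only [th_monomial, coeff_monomial]
      rw [Finset.sum_eq_single m0]
      · rw [if_pos rfl]
      · intro m hm hne
        rw [if_neg]
        intro h2
        apply hne
        have hmB : m ∈ Ball r := by
          by_contra h3
          exact (mem_support_iff.1 hm) (hb m h3)
        exact ph_inj r hmB hm0 h2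
      · intro hm
        rw [if_pos rfl]
        exact notMem_support_iff.1 hm
    rw [h, coeff_zero] at h1
    exact h1.symm
  · exact hb m0 hm0

theorem ker_eq (r : ℕ) : RingHom.ker (th κ r) = gJ κ r := by
  apply le_antisymm _ (gJ_le_ker κ r)
  intro f hf
  have h1 : f ∈ Submodule.span κ ((fun m => monomial m (1 : κ)) '' Ball r) ⊔
      (gJ κ r).restrictScalars κ := by
    rw [← support_sum_monomial_coeff f]
    refine Submodule.sum_mem _ fun m hm => ?_
    have h2 := TG1.key κ r _ m rfl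
    have h3 : monomial m (coeff m f) = (coeff m f) • monomial m (1 : κ) := by
      rw [smul_monomial, smul_eq_mul, mul_one]
    rw [h3]
    refine Submodule.smul_mem _ _ ?_
    unfold TG1.NN at h2
    have h4 : Submodule.span κ ((fun m => monomial m (1 : κ)) '' Bset r m.degree) ≤
        Submodule.span κ ((fun m => monomial m (1 : κ)) '' Ball r) := by
      apply Submodule.span_mono
      apply Set.image_mono
      intro m' hm'
      exact hm'.2
    exact (sup_le_sup_right h4 ((gJ κ r).restrictScalars κ)) h2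
  obtain ⟨b, hb, c, hc, hbc⟩ := Submodule.mem_sup.1 h1
  have hc' : c ∈ gJ κ r := hc
  have hc2 : th κ r c = 0 := gJ_le_ker κ r hc'
  have hf' : th κ r f = 0 := hf
  have hb2 : th κ r b = 0 := by
    rw [← hbc, map_add, hc2, add_zero] at hf'
    exact hf'
  have hb3 := inj κ r b (supp_span κ r _ b hb) hb2
  rw [hb3, zero_add] at hbc
  rw [← hbc]
  exact hc'

end TG2

open TG2 in
/-- G2a -/
theorem g_prime (κ : Type) [Field κ] (r : ℕ) : (gJ κ r).IsPrime := by
  rw [← ker_eq]
  exact RingHom.ker_isPrime _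

open TG2 in
/-- G2b -/
theorem B_indep (κ : Type) [Field κ] (r t : ℕ) (b : MvPolynomial (Fin (r + 2)) κ)
    (hb : b ∈ Submodule.span κ ((fun m => monomial m (1 : κ)) '' Bset r t))
    (h : b ∈ gJ κ r) : b = 0 := by
  refine inj κ r b ?_ (gJ_le_ker κ r h)
  intro m hm
  exact supp_span κ r _ b hb m fun h2 => hm h2.2

end Pool.Agent.H918R4
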