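import Pool.Agent.H918R4.Defs

set_option autoImplicit false
namespace Pool.Agent.H918R4
open MvPolynomial

namespace TG6

lemma g_homog (κ : Type) [CommRing κ] (r : ℕ) (j : Fin r) : (g κ r j).IsHomogeneous 2 := by
  unfold g
  refine IsHomogeneous.sub ?_ ?_
  · exact (isHomogeneous_X κ _).pow 2
  · exact (isHomogeneous_X κ _).mul (isHomogeneous_X κ _)

lemma coeff_low {F : Type} [Field F] {n r : ℕ} (f : Fin r → MvPolynomial (Fin n) F)
    (hf : ∀ j, (f j).IsHomogeneous 2) {x : MvPolynomial (Fin n) F}
    (hx : x ∈ Ideal.span (Set.range f)) : ∀ m : Fin n →₀ ℕ, m.degree < 2 → coeff m x = 0 := by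
  refine Submodule.span_induction (p := fun x _ => ∀ m : Fin n →₀ ℕ, m.degree < 2 → coeff m x = 0)
    ?_ ?_ ?_ ?_ hx
  · rintro _ ⟨j, rfl⟩ m hm
    exact (hf j).coeff_eq_zero (by omega)
  · intro m _
    exact coeff_zero m
  · intro a b _ _ ha hb m hm
    rw [coeff_add, ha m hm, hb m hm, add_zero]
  · intro a y _ hy m hm
    rw [smul_eq_mul, coeff_mul]
    refine Finset.sum_eq_zero fun z hz => ?_
    rw [Finset.HasAntidiagonal.mem_antidiagonal] at hz
    have : z.2.degree < 2 := by
      have h1 : z.1.degree + z.2.degree = m.degree := by rw [← hz, map_add]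
      omega
    rw [hy z.2 this, mul_zero]

/-- dimension count for one field -/
lemma count
    (finrank_homog : ∀ (F : Type) [Field F] (n t : ℕ),
      Module.Finite F (homogeneousSubmodule (Fin n) F t) ∧
      Module.finrank F (homogeneousSubmodule (Fin n) F t) =
        Set.ncard {m : Fin n →₀ ℕ | m.degree = t})
    (HF_add_inf : ∀ (F : Type) [Field F] (n : ℕ) (J : Ideal (MvPolynomial (Fin n) F)) (t : ℕ),
      HF J t + Module.finrank F
        (J.restrictScalars F ⊓ homogeneousSubmodule (Fin n) F t : Submodule F _) =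
        Module.finrank F (homogeneousSubmodule (Fin n) F t))
    (finrank_syz : ∀ (F : Type) [Field F] (n r : ℕ) (f : Fin r → MvPolynomial (Fin n) F)
      (_ : ∀ j, (f j).IsHomogeneous 2) (d : ℕ),
      Module.finrank F
        ((Ideal.span (Set.range f)).restrictScalars F ⊓ homogeneousSubmodule (Fin n) F (d + 2) :
          Submodule F _) + Module.finrank F (Syz f d) =
        r * Module.finrank F (homogeneousSubmodule (Fin n) F d))
    (F : Type) [Field F] (n r : ℕ) (f : Fin r → MvPolynomial (Fin n) F)
    (hf : ∀ j, (f j).IsHomogeneous 2) (d : ℕ) :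
    HF (Ideal.span (Set.range f)) (d + 2) + r * Set.ncard {m : Fin n →₀ ℕ | m.degree = d} =
      Set.ncard {m : Fin n →₀ ℕ | m.degree = d + 2} + Module.finrank F (Syz f d) := by
  have h1 := HF_add_inf F n (Ideal.span (Set.range f)) (d + 2)
  have h2 := finrank_syz F n r f hf d
  rw [(finrank_homog F n _).2] at h1 h2
  omega

/-- G6, with the tasks G6a, G6b, G6c, G6d, G6e as hypotheses -/
theorem card_le_HF_of
    (finrank_homog : ∀ (F : Type) [Field F] (n t : ℕ),
      Module.Finite F (homogeneousSubmodule (Fin n) F t) ∧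
      Module.finrank F (homogeneousSubmodule (Fin n) F t) =
        Set.ncard {m : Fin n →₀ ℕ | m.degree = t})
    (HF_add_inf : ∀ (F : Type) [Field F] (n : ℕ) (J : Ideal (MvPolynomial (Fin n) F)) (t : ℕ),
      HF J t + Module.finrank F
        (J.restrictScalars F ⊓ homogeneousSubmodule (Fin n) F t : Submodule F _) =
        Module.finrank F (homogeneousSubmodule (Fin n) F t))
    (finrank_syz : ∀ (F : Type) [Field F] (n r : ℕ) (f : Fin r → MvPolynomial (Fin n) F)
      (_ : ∀ j, (f j).IsHomogeneous 2) (d : ℕ),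
      Module.finrank F
        ((Ideal.span (Set.range f)).restrictScalars F ⊓ homogeneousSubmodule (Fin n) F (d + 2) :
          Submodule F _) + Module.finrank F (Syz f d) =
        r * Module.finrank F (homogeneousSubmodule (Fin n) F d))
    (syz_le : ∀ (F : Type) [Field F] (V : ValuationSubring F) (r : ℕ)
      (f : Fin r → MvPolynomial (Fin (r + 2)) V) (_ : ∀ j, (f j).IsHomogeneous 2)
      (_ : ∀ j, MvPolynomial.map (IsLocalRing.residue V) (f j) = g _ r j) (d : ℕ),
      Module.finrank (IsLocalRing.ResidueField V) (Syz (g (IsLocalRing.ResidueField V) r) d) ≤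
        Module.finrank F (Syz (fun j => MvPolynomial.map (algebraMap V F) (f j)) d))
    (card_le_HF_g : ∀ (κ : Type) [Field κ] (r t : ℕ), HF (gJ κ r) t = (Bset r t).ncard)
    (F : Type) [Field F] (V : ValuationSubring F) (r : ℕ)
    (f : Fin r → MvPolynomial (Fin (r + 2)) V) (hf : ∀ j, (f j).IsHomogeneous 2)
    (hred : ∀ j, MvPolynomial.map (IsLocalRing.residue V) (f j) = g _ r j) (t : ℕ) :
    (Bset r t).ncard ≤
      HF (Ideal.span (Set.range fun j => MvPolynomial.map (algebraMap V F) (f j))) t := by
  have hfF : ∀ j, (MvPolynomial.map (algebraMap V F) (f j)).IsHomogeneous 2 := fun j =>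
    (hf j).map _
  by_cases ht : t < 2
  · have h1 := HF_add_inf F (r + 2)
      (Ideal.span (Set.range fun j => MvPolynomial.map (algebraMap V F) (f j))) t
    have h2 : ((Ideal.span (Set.range fun j => MvPolynomial.map (algebraMap V F) (f j))).restrictScalars F
        ⊓ homogeneousSubmodule (Fin (r + 2)) F t : Submodule F _) = ⊥ := by
      rw [eq_bot_iff]
      rintro x ⟨hx1, hx2⟩
      rw [Submodule.mem_bot]
      ext m
      rw [MvPolynomial.coeff_zero]
      by_cases hm : m.degree = t
      · exact coeff_low _ hfF hx1 m (by omega)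
      · exact IsHomogeneous.coeff_eq_zero hx2 hm
    rw [h2, finrank_bot, add_zero, (finrank_homog F (r + 2) t).2] at h1
    rw [h1]
    refine Set.ncard_le_ncard (fun m hm => hm.1) ?_
    exact (Finsupp.finite_of_degree_le (σ := Fin (r + 2)) t).subset fun m hm => (le_of_eq hm)
  · obtain ⟨d, rfl⟩ : ∃ d, t = d + 2 := ⟨t - 2, by omega⟩
    have h1 := count finrank_homog HF_add_inf finrank_syz F (r + 2) r
      (fun j => MvPolynomial.map (algebraMap V F) (f j)) hfF d
    have h4 : HF (gJ (IsLocalRing.ResidueField V) r) (d + 2) +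
        r * Set.ncard {m : Fin (r + 2) →₀ ℕ | m.degree = d} =
        Set.ncard {m : Fin (r + 2) →₀ ℕ | m.degree = d + 2} +
        Module.finrank (IsLocalRing.ResidueField V) (Syz (g (IsLocalRing.ResidueField V) r) d) :=
      count finrank_homog HF_add_inf finrank_syz (IsLocalRing.ResidueField V)
        (r + 2) r (g (IsLocalRing.ResidueField V) r) (g_homog _ r) d
    have h3 := syz_le F V r f hf hred d
    have h6 := card_le_HF_g (IsLocalRing.ResidueField V) r (d + 2)
    omega

end TG6

end Pool.Agent.H918R4
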