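import Pool.Agent.H918R4.Defs

set_option autoImplicit false
namespace Pool.Agent.H918R4
open MvPolynomial

namespace TG6a

theorem finite_deg (n t : ℕ) : {m : Fin n →₀ ℕ | m.degree = t}.Finite := by
  apply Set.Finite.subset (Finset.finite_toSet (Finset.finsuppAntidiag (Finset.univ : Finset (Fin n)) t))
  intro m hm
  rw [Finset.mem_coe, Finset.mem_finsuppAntidiag]
  refine ⟨?_, Finset.subset_univ _⟩
  rw [← hm]
  exact (Finsupp.degree_eq_sum m).symm

theorem homog_span (F : Type) [Field F] (n t : ℕ) : homogeneousSubmodule (Fin n) F t =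
    Submodule.span F (Set.range fun m : {m : Fin n →₀ ℕ | m.degree = t} =>
      monomial (m : Fin n →₀ ℕ) (1 : F)) := by
  apply le_antisymm
  · intro a ha
    rw [mem_homogeneousSubmodule] at ha
    rw [a.as_sum]
    apply Submodule.sum_mem
    intro m hm
    have hm' : m.degree = t := by
      have := ha (mem_support_iff.mp hm)
      rw [Finsupp.degree_eq_weight_one]
      exact this
    have e : monomial m (coeff m a) = (coeff m a) • monomial m (1 : F) := by
      rw [smul_monomial, smul_eq_mul, mul_one]
    rw [e]
    exact Submodule.smul_mem _ _ (Submodule.subset_span ⟨⟨m, hm'⟩, rfl⟩)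
  · rw [Submodule.span_le]
    rintro _ ⟨⟨m, hm⟩, rfl⟩
    exact isHomogeneous_monomial (1 : F) hm

end TG6a

open TG6a

/-- G6a -/
theorem finrank_homog (F : Type) [Field F] (n t : ℕ) :
    Module.Finite F (homogeneousSubmodule (Fin n) F t) ∧
    Module.finrank F (homogeneousSubmodule (Fin n) F t) =
      Set.ncard {m : Fin n →₀ ℕ | m.degree = t} := by
  have hfin : Finite {m : Fin n →₀ ℕ | m.degree = t} := (finite_deg n t).to_subtype
  have := Fintype.ofFinite {m : Fin n →₀ ℕ | m.degree = t}
  rw [homog_span]
  constructor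
  · exact Module.Finite.span_of_finite F (Set.finite_range _)
  · have hli : LinearIndependent F (fun m : {m : Fin n →₀ ℕ | m.degree = t} =>
        monomial (m : Fin n →₀ ℕ) (1 : F)) := by
      have h1 := (basisMonomials (Fin n) F).linearIndependent
      have h2 := h1.comp (fun m : {m : Fin n →₀ ℕ | m.degree = t} => (m : Fin n →₀ ℕ))
        Subtype.val_injective
      have e : (fun m : {m : Fin n →₀ ℕ | m.degree = t} => monomial (m : Fin n →₀ ℕ) (1 : F)) =
          (basisMonomials (Fin n) F) ∘ (fun m : {m : Fin n →₀ ℕ | m.degree = t} =>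
            (m : Fin n →₀ ℕ)) := by
        rw [coe_basisMonomials]
        rfl
      rw [e]
      exact h2
    rw [finrank_span_eq_card hli, ← Nat.card_eq_fintype_card]
    rfl

end Pool.Agent.H918R4
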