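import Pool.Agent.H918R4.Defs
import Pool.Agent.H918R4.TG6a

set_option autoImplicit false
namespace Pool.Agent.H918R4
open MvPolynomial

/-- G6b -/
theorem HF_add_inf (F : Type) [Field F] (n : ℕ) (J : Ideal (MvPolynomial (Fin n) F)) (t : ℕ) :
    HF J t + Module.finrank F
      (J.restrictScalars F ⊓ homogeneousSubmodule (Fin n) F t : Submodule F _) =
      Module.finrank F (homogeneousSubmodule (Fin n) F t) := by
  have hfin := (finrank_homog F n t).1
  set p := homogeneousSubmodule (Fin n) F t with hp
  set f : MvPolynomial (Fin n) F →ₗ[F] (MvPolynomial (Fin n) F ⧸ J) :=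
    (Ideal.Quotient.mkₐ F J).toLinearMap with hf
  have h1 := LinearMap.finrank_range_add_finrank_ker (f.domRestrict p)
  rw [LinearMap.range_domRestrict] at h1
  have h2 : (J.restrictScalars F ⊓ p : Submodule F _) =
      (LinearMap.ker (f.domRestrict p)).map p.subtype := by
    ext x
    rw [Submodule.mem_map]
    constructor
    · rintro ⟨hxJ, hxp⟩
      refine ⟨⟨x, hxp⟩, ?_, rfl⟩
      rw [LinearMap.mem_ker, LinearMap.domRestrict_apply]
      exact Ideal.Quotient.eq_zero_iff_mem.mpr hxJ
    · rintro ⟨⟨y, hyp⟩, hy, rfl⟩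
      rw [LinearMap.mem_ker, LinearMap.domRestrict_apply] at hy
      exact ⟨Ideal.Quotient.eq_zero_iff_mem.mp hy, hyp⟩
  have h3 := LinearEquiv.finrank_eq (Submodule.equivMapOfInjective p.subtype p.injective_subtype
    (LinearMap.ker (f.domRestrict p)))
  rw [h2, ← h3]
  exact h1

end Pool.Agent.H918R4
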