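import Pool.Agent.H918R4.Defs

set_option autoImplicit false
namespace Pool.Agent.H918R4
open MvPolynomial

namespace TG6c

theorem finite_homog (F : Type) [Field F] (n t : ℕ) :
    Module.Finite F (homogeneousSubmodule (Fin n) F t) := by
  have hfin : Set.Finite {d : Fin n →₀ ℕ | d.degree = t} := by
    refine Set.Finite.subset (Set.finite_Iic (Finsupp.equivFunOnFinite.symm (fun _ : Fin n => t))) ?_
    intro m hm
    have hm' : m.degree = t := hm
    simp only [Set.mem_Iic]
    intro i
    simp only [Finsupp.equivFunOnFinite_symm_apply_apply]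
    rw [← hm']
    exact Finsupp.le_degree i m
  have hf : Finite {d : Fin n →₀ ℕ | d.degree = t} := hfin
  let L : homogeneousSubmodule (Fin n) F t →ₗ[F] ({d : Fin n →₀ ℕ | d.degree = t} → F) :=
    { toFun := fun p m => coeff m.1 (p : MvPolynomial (Fin n) F)
      map_add' := by
        intro a b; funext m; simp
      map_smul' := by
        intro c a; funext m; simp }
  have hL : Function.Injective L := by
    intro a b hab
    apply Subtype.ext
    apply MvPolynomial.ext
    intro m
    by_cases hm : m.degree = t
    · exact congrFun hab ⟨m, hm⟩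
    · have ha : (a : MvPolynomial (Fin n) F).IsHomogeneous t := a.2
      have hb : (b : MvPolynomial (Fin n) F).IsHomogeneous t := b.2
      rw [ha.coeff_eq_zero hm, hb.coeff_eq_zero hm]
  exact Module.Finite.of_injective L hL

/-- `h ↦ ∑ h_j f_j` -/
noncomputable def Phi {F : Type} [Field F] {n r : ℕ} (f : Fin r → MvPolynomial (Fin n) F) (d : ℕ) :
    (Fin r → homogeneousSubmodule (Fin n) F d) →ₗ[F] MvPolynomial (Fin n) F where
  toFun h := ∑ j, (h j : MvPolynomial (Fin n) F) * f j
  map_add' := by
    intro a b
    simp only [Pi.add_apply, Submodule.coe_add, add_mul, Finset.sum_add_distrib]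
  map_smul' := by
    intro c a
    simp only [Pi.smul_apply, Submodule.coe_smul, smul_mul_assoc, ← Finset.smul_sum, RingHom.id_apply]

theorem Phi_apply {F : Type} [Field F] {n r : ℕ} (f : Fin r → MvPolynomial (Fin n) F) (d : ℕ)
    (h : Fin r → homogeneousSubmodule (Fin n) F d) :
    Phi f d h = ∑ j, (h j : MvPolynomial (Fin n) F) * f j := rfl

/-- kernel = syzygies -/
noncomputable def kerEquiv {F : Type} [Field F] {n r : ℕ} (f : Fin r → MvPolynomial (Fin n) F) (d : ℕ) :
    LinearMap.ker (Phi f d) ≃ₗ[F] Syz f d where
  toFun h := ⟨fun j => (h.1 j : MvPolynomial (Fin n) F), fun j => (h.1 j).2, by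
    have := h.2
    rw [LinearMap.mem_ker, Phi_apply] at this
    exact this⟩
  map_add' := by
    intro a b
    rfl
  map_smul' := by
    intro c a
    rfl
  invFun h := ⟨fun j => ⟨h.1 j, h.2.1 j⟩, by
    rw [LinearMap.mem_ker, Phi_apply]
    exact h.2.2⟩
  left_inv := by
    intro h
    rfl
  right_inv := by
    intro h
    rfl

theorem comp_mul {F : Type} [Field F] {n : ℕ} (a b : MvPolynomial (Fin n) F) (d : ℕ)
    (hb : b.IsHomogeneous 2) :
    homogeneousComponent (d + 2) (a * b) = homogeneousComponent d a * b := by
  have ha : a = ∑ i ∈ Finset.range (a.totalDegree + 1), homogeneousComponent i a :=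
    (sum_homogeneousComponent a).symm
  have h1 : a * b = ∑ i ∈ Finset.range (a.totalDegree + 1), homogeneousComponent i a * b := by
    conv_lhs => rw [ha]
    rw [Finset.sum_mul]
  rw [h1, map_sum]
  have h2 : ∀ i ∈ Finset.range (a.totalDegree + 1),
      homogeneousComponent (d + 2) (homogeneousComponent i a * b) =
        if i = d then homogeneousComponent i a * b else 0 := by
    intro i _
    have hh : (homogeneousComponent i a * b).IsHomogeneous (i + 2) :=
      (homogeneousComponent_isHomogeneous i a).mul hb
    rw [homogeneousComponent_of_mem hh]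
    by_cases hid : i = d
    · subst hid; simp
    · have h3 : ¬ (d = i) := fun h => hid h.symm
      simp [hid, h3]
  rw [Finset.sum_congr rfl h2]
  rw [Finset.sum_ite_eq']
  split_ifs with hmem
  · rfl
  · have : homogeneousComponent d a = 0 := by
      apply homogeneousComponent_eq_zero
      simp only [Finset.mem_range, not_lt] at hmem
      omega
    rw [this, zero_mul]

theorem range_eq {F : Type} [Field F] {n r : ℕ} (f : Fin r → MvPolynomial (Fin n) F)
    (hf : ∀ j, (f j).IsHomogeneous 2) (d : ℕ) :
    LinearMap.range (Phi f d) =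
      ((Ideal.span (Set.range f)).restrictScalars F ⊓ homogeneousSubmodule (Fin n) F (d + 2) :
        Submodule F _) := by
  ext a
  constructor
  · rintro ⟨h, rfl⟩
    rw [Phi_apply]
    refine ⟨?_, ?_⟩
    · simp only [SetLike.mem_coe, Submodule.restrictScalars_mem]
      refine Ideal.sum_mem _ fun j _ => ?_
      exact Ideal.mul_mem_left _ _ (Ideal.subset_span ⟨j, rfl⟩)
    · refine Submodule.sum_mem _ fun j _ => ?_
      have := (h j).2
      rw [mem_homogeneousSubmodule] at this ⊢
      exact this.mul (hf j)
  · rintro ⟨ha, hb⟩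
    simp only [SetLike.mem_coe, Submodule.restrictScalars_mem] at ha
    have hb' : a.IsHomogeneous (d + 2) := by
      simpa [mem_homogeneousSubmodule] using hb
    rw [← Ideal.submodule_span_eq, Submodule.mem_span_range_iff_exists_fun] at ha
    obtain ⟨c, hc⟩ := ha
    refine ⟨fun j => ⟨homogeneousComponent d (c j), homogeneousComponent_isHomogeneous d (c j)⟩, ?_⟩
    rw [Phi_apply]
    simp only
    have h1 : homogeneousComponent (d + 2) a = a := by
      rw [homogeneousComponent_of_mem hb']
      simp
    rw [← h1, ← hc, map_sum]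
    refine Finset.sum_congr rfl fun j _ => ?_
    rw [smul_eq_mul, comp_mul (c j) (f j) d (hf j)]

end TG6c

/-- G6c -/
theorem finrank_syz (F : Type) [Field F] (n r : ℕ) (f : Fin r → MvPolynomial (Fin n) F)
    (hf : ∀ j, (f j).IsHomogeneous 2) (d : ℕ) :
    Module.finrank F
      ((Ideal.span (Set.range f)).restrictScalars F ⊓ homogeneousSubmodule (Fin n) F (d + 2) :
        Submodule F _) + Module.finrank F (Syz f d) =
      r * Module.finrank F (homogeneousSubmodule (Fin n) F d) := by
  have := TG6c.finite_homog F n d
  have h := LinearMap.finrank_range_add_finrank_ker (TG6c.Phi f d)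
  rw [TG6c.range_eq f hf d, LinearEquiv.finrank_eq (TG6c.kerEquiv f d)] at h
  rw [h, Module.finrank_pi_fintype]
  simp

end Pool.Agent.H918R4
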