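import Pool.Agent.H918R4.Defs

/-! Task G4a: the quadrics `g_j` form a regular sequence (in the reversed order) -/
set_option autoImplicit false
namespace Pool.Agent.H918R4
open MvPolynomial

namespace TG4a

/-- the polynomials as polynomials in the variable `i` -/
noncomputable def φ (κ : Type) [CommRing κ] (r : ℕ) (i : Fin (r + 2)) :
    MvPolynomial (Fin (r + 2)) κ ≃ₐ[κ] Polynomial (MvPolynomial (Fin (r + 1)) κ) :=
  (renameEquiv κ (Equiv.swap 0 i)).trans (finSuccEquiv κ (r + 1))

theorem φ_X_self (κ : Type) [CommRing κ] (r : ℕ) (i : Fin (r + 2)) :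
    φ κ r i (X i) = Polynomial.X := by
  unfold φ
  rw [AlgEquiv.trans_apply, renameEquiv_apply, rename_X, Equiv.swap_apply_right,
    finSuccEquiv_X_zero]

theorem φ_X_ne (κ : Type) [CommRing κ] (r : ℕ) (i m : Fin (r + 2)) (h : m ≠ i) :
    ∃ a : MvPolynomial (Fin (r + 1)) κ, φ κ r i (X m) = Polynomial.C a := by
  unfold φ
  rw [AlgEquiv.trans_apply, renameEquiv_apply, rename_X]
  have h0 : Equiv.swap 0 i m ≠ 0 := by
    intro h1
    apply h
    have h2 : Equiv.swap 0 i (Equiv.swap 0 i m) = Equiv.swap 0 i 0 := by rw [h1]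
    rwa [Equiv.swap_apply_self, Equiv.swap_apply_left] at h2
  obtain ⟨m', hm'⟩ := Fin.exists_succ_eq.2 h0
  rw [← hm', finSuccEquiv_X_succ]
  exact ⟨_, rfl⟩

end TG4a

open TG4a in
theorem g_regular (κ : Type) [CommRing κ] (r : ℕ) (j : Fin r) (h : MvPolynomial (Fin (r + 2)) κ)
    (hh : h * g κ r j ∈ Ideal.span (g κ r '' {k | j < k})) :
    h ∈ Ideal.span (g κ r '' {k | j < k}) := by
  classical
  set i : Fin (r + 2) := j.castSucc.castSucc with hi
  -- the images of the other variables
  have hψ : ∀ m : Fin (r + 2), ∃ a : MvPolynomial (Fin (r + 1)) κ, m ≠ i →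
      φ κ r i (X m) = Polynomial.C a := by
    intro m
    by_cases hm : m = i
    · exact ⟨0, fun h' => absurd hm h'⟩
    · obtain ⟨a, ha⟩ := φ_X_ne κ r i m hm
      exact ⟨a, fun _ => ha⟩
  choose ψ hψ using hψ
  have hlast : Fin.last (r + 1) ≠ i := by
    intro h'
    have := congrArg Fin.val h'
    simp [hi] at this
    omega
  let g' : Fin r → MvPolynomial (Fin (r + 1)) κ := fun k =>
    ψ k.castSucc.castSucc ^ 2 - ψ k.succ.castSucc * ψ (Fin.last (r + 1))
  have hg' : ∀ k, j < k → φ κ r i (g κ r k) = Polynomial.C (g' k) := by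
    intro k hk
    have hk' : (j : ℕ) < (k : ℕ) := hk
    have h1 : k.castSucc.castSucc ≠ i := by
      intro h'
      have := congrArg Fin.val h'
      simp [hi] at this
      omega
    have h2 : k.succ.castSucc ≠ i := by
      intro h'
      have := congrArg Fin.val h'
      simp [hi] at this
      omega
    unfold g
    rw [map_sub, map_mul, map_pow, hψ _ h1, hψ _ h2, hψ _ hlast]
    simp [g']
  have hj2 : j.succ.castSucc ≠ i := by
    intro h'
    have := congrArg Fin.val h'
    simp [hi] at this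
  have hgj : φ κ r i (g κ r j) =
      Polynomial.X ^ 2 - Polynomial.C (ψ j.succ.castSucc * ψ (Fin.last (r + 1))) := by
    unfold g
    rw [map_sub, map_mul, map_pow, ← hi, φ_X_self, hψ _ hj2, hψ _ hlast]
    simp
  set I := Ideal.span (g κ r '' {k | j < k}) with hI
  set 𝔞 := Ideal.span (g' '' {k | j < k}) with ha
  have hmap : I.map (φ κ r i).toRingEquiv.toRingHom = 𝔞.map Polynomial.C := by
    rw [hI, ha, Ideal.map_span, Ideal.map_span, Set.image_image, Set.image_image]
    congr 1
    apply Set.image_congr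
    intro k hk
    exact hg' k hk
  have hmem : ∀ f, f ∈ I ↔ φ κ r i f ∈ 𝔞.map Polynomial.C := by
    intro f
    rw [← hmap]
    have hb : Function.Bijective (φ κ r i).toRingEquiv.toRingHom := (φ κ r i).bijective
    have h1 := Ideal.comap_map_of_bijective (φ κ r i).toRingEquiv.toRingHom hb (I := I)
    constructor
    · intro hf
      exact Ideal.mem_map_of_mem (φ κ r i).toRingEquiv.toRingHom hf
    · intro hf
      rw [← h1]
      exact hf
  rw [hmem] at hh ⊢
  rw [map_mul, hgj] at hh
  rw [Ideal.mem_map_C_iff] at hh ⊢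
  -- reduce modulo 𝔞
  have hq : Polynomial.map (Ideal.Quotient.mk 𝔞) (φ κ r i h) *
      Polynomial.map (Ideal.Quotient.mk 𝔞) (Polynomial.X ^ 2 -
        Polynomial.C (ψ j.succ.castSucc * ψ (Fin.last (r + 1)))) = 0 := by
    rw [← Polynomial.map_mul]
    ext n
    rw [Polynomial.coeff_map, Polynomial.coeff_zero, Ideal.Quotient.eq_zero_iff_mem]
    exact hh n
  have hmonic : (Polynomial.map (Ideal.Quotient.mk 𝔞) (Polynomial.X ^ 2 -
        Polynomial.C (ψ j.succ.castSucc * ψ (Fin.last (r + 1))))).Monic := by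
    apply Polynomial.Monic.map
    exact Polynomial.monic_X_pow_sub_C _ (by norm_num)
  rw [hmonic.mul_left_eq_zero_iff] at hq
  intro n
  have h1 := congrArg (fun P => Polynomial.coeff P n) hq
  simp only [Polynomial.coeff_map, Polynomial.coeff_zero] at h1
  exact Ideal.Quotient.eq_zero_iff_mem.1 h1

end Pool.Agent.H918R4
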