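import Mathlib
import Pool.Agent.H918R4.Defs

/-! Syzygies of a regular sequence are Koszul syzygies. -/
set_option autoImplicit false
namespace Pool.Agent.H918R4

theorem TG4b.image_zero {R : Type} [CommRing R] (r : ℕ) (f : Fin (r + 1) → R) :
    f '' {k | 0 < k} = Set.range (fun k : Fin r => f k.succ) := by
  ext x
  constructor
  · rintro ⟨k, hk, rfl⟩
    have hk0 : k ≠ 0 := Fin.pos_iff_ne_zero.1 hk
    exact ⟨k.pred hk0, by simp⟩
  · rintro ⟨k, rfl⟩
    exact ⟨k.succ, Fin.succ_pos k, rfl⟩

theorem TG4b.image_succ {R : Type} [CommRing R] (r : ℕ) (f : Fin (r + 1) → R) (j : Fin r) :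
    f '' {k | j.succ < k} = (fun k : Fin r => f k.succ) '' {k | j < k} := by
  ext x
  constructor
  · rintro ⟨k, hk, rfl⟩
    have hk' : j.succ < k := hk
    have hk0 : k ≠ 0 := by
      rintro rfl
      exact absurd hk' (Fin.not_lt_zero _)
    refine ⟨k.pred hk0, ?_, by simp⟩
    show j < k.pred hk0
    rw [← Fin.succ_lt_succ_iff, Fin.succ_pred]
    exact hk'
  · rintro ⟨k, hk, rfl⟩
    exact ⟨k.succ, Fin.succ_lt_succ_iff.2 hk, rfl⟩

theorem koszul (R : Type) [CommRing R] (r : ℕ) (f : Fin r → R)
    (hreg : ∀ (j : Fin r) (h : R), h * f j ∈ Ideal.span (f '' {k | j < k}) →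
      h ∈ Ideal.span (f '' {k | j < k}))
    (h : Fin r → R) (hs : ∑ j, h j * f j = 0) :
    ∃ s : Fin r → Fin r → R, (∀ j k, s j k = - s k j) ∧ (∀ j, s j j = 0) ∧
      ∀ j, h j = ∑ k, s j k * f k := by
  induction r with
  | zero => exact ⟨fun _ _ => 0, fun j => j.elim0, fun j => j.elim0, fun j => j.elim0⟩
  | succ r ih =>
    rw [Fin.sum_univ_succ] at hs
    have h0 : h 0 ∈ Ideal.span (f '' {k | 0 < k}) := by
      apply hreg 0
      have e : h 0 * f 0 = -∑ i : Fin r, h i.succ * f i.succ := eq_neg_of_add_eq_zero_left hs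
      rw [e]
      refine neg_mem (Ideal.sum_mem _ fun i _ => Ideal.mul_mem_left _ _ (Ideal.subset_span ?_))
      exact ⟨i.succ, Fin.succ_pos i, rfl⟩
    rw [TG4b.image_zero] at h0
    obtain ⟨c, hc⟩ := (Ideal.mem_span_range_iff_exists_fun).1 h0
    obtain ⟨s', ha, hd, he⟩ := ih (fun k => f k.succ)
      (fun j x hx => by
        have := hreg j.succ x
        rw [TG4b.image_succ] at this
        exact this hx)
      (fun j => h j.succ + c j * f 0)
      (by
        have : ∑ j : Fin r, (h j.succ + c j * f 0) * f j.succ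
            = (∑ i : Fin r, c i * f i.succ) * f 0 + ∑ i : Fin r, h i.succ * f i.succ := by
          rw [Finset.sum_mul, ← Finset.sum_add_distrib]
          exact Finset.sum_congr rfl fun i _ => by ring
        rw [this, hc]
        exact hs)
    refine ⟨Fin.cons (Fin.cons 0 c) (fun j => Fin.cons (-c j) (s' j)), ?_, ?_, ?_⟩
    · intro j k
      refine Fin.cases ?_ (fun j => ?_) j <;> refine Fin.cases ?_ (fun k => ?_) k <;> simp
      exact ha j k
    · intro j
      refine Fin.cases ?_ (fun j => ?_) j
      · simp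
      · simpa using hd j
    · intro j
      refine Fin.cases ?_ (fun j => ?_) j
      · rw [Fin.sum_univ_succ]
        simpa using hc.symm
      · rw [Fin.sum_univ_succ]
        have := he j
        simp only [Fin.cons_succ, Fin.cons_zero]
        linear_combination this

end Pool.Agent.H918R4
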