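import Pool.Agent.H918R4.Defs

/-! Task G4c (helper180): homogeneous syzygies of `g`, from G4a and G4b as hypotheses. -/

set_option autoImplicit false
namespace Pool.Agent.H918R4
open MvPolynomial

namespace TG4c

/-- statement of G4a -/
def S_G4a : Prop := ∀ (κ : Type) [CommRing κ] (r : ℕ) (j : Fin r) (h : MvPolynomial (Fin (r + 2)) κ)
    (_hh : h * g κ r j ∈ Ideal.span (g κ r '' {k | j < k})),
    h ∈ Ideal.span (g κ r '' {k | j < k})

/-- statement of G4b -/
def S_G4b : Prop := ∀ (R : Type) [CommRing R] (r : ℕ) (f : Fin r → R)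
    (_hreg : ∀ (j : Fin r) (h : R), h * f j ∈ Ideal.span (f '' {k | j < k}) →
      h ∈ Ideal.span (f '' {k | j < k}))
    (h : Fin r → R) (_hs : ∑ j, h j * f j = 0),
    ∃ s : Fin r → Fin r → R, (∀ j k, s j k = - s k j) ∧ (∀ j, s j j = 0) ∧
      ∀ j, h j = ∑ k, s j k * f k

theorem g_homog (A : Type) [CommRing A] (r : ℕ) (j : Fin r) : (g A r j).IsHomogeneous 2 := by
  unfold g
  refine IsHomogeneous.sub ?_ ?_
  · simpa using (isHomogeneous_X A (j.castSucc.castSucc)).pow 2
  · exact (isHomogeneous_X A _).mul (isHomogeneous_X A _)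

/-- the homogeneous component of degree `e - 2`, zero if `e < 2` -/
noncomputable def hc {σ κ : Type} [CommRing κ] (d : ℕ) (a : MvPolynomial σ κ) : MvPolynomial σ κ :=
  if 2 ≤ d then homogeneousComponent (d - 2) a else 0

theorem hc_mul {σ κ : Type} [CommRing κ] (d : ℕ) (a q : MvPolynomial σ κ) (hq : q.IsHomogeneous 2) :
    homogeneousComponent d (a * q) = hc d a * q := by
  have h1 : homogeneousComponent d (a * q) =
      ∑ i ∈ Finset.range (a.totalDegree + 1), homogeneousComponent d (homogeneousComponent i a * q) := by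
    conv_lhs => rw [← sum_homogeneousComponent a, Finset.sum_mul]
    rw [map_sum]
  rw [h1]
  have h2 : ∀ i, homogeneousComponent d (homogeneousComponent i a * q) =
      if d = i + 2 then homogeneousComponent i a * q else 0 := by
    intro i
    exact homogeneousComponent_of_mem ((homogeneousComponent_isHomogeneous i a).mul hq)
  simp only [h2]
  unfold hc
  split_ifs with hd
  · obtain ⟨e, rfl⟩ := Nat.exists_eq_add_of_le' hd
    simp only [Nat.add_right_cancel_iff, Nat.add_sub_cancel]
    rw [Finset.sum_ite_eq]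
    split_ifs with he
    · rfl
    · rw [homogeneousComponent_eq_zero e a (by
        rw [Finset.mem_range] at he
        omega), zero_mul]
  · rw [zero_mul]
    refine Finset.sum_eq_zero fun i _ => ?_
    rw [if_neg (by omega)]

/-- the Koszul relation with the coefficient `a` -/
noncomputable def D {κ : Type} [Field κ] {r : ℕ} (j k : Fin r) (a : MvPolynomial (Fin (r + 2)) κ) :
    Fin r → MvPolynomial (Fin (r + 2)) κ :=
  Pi.single j (a * g κ r k) - Pi.single k (a * g κ r j)

theorem D_add {κ : Type} [Field κ] {r : ℕ} (j k : Fin r) (a b : MvPolynomial (Fin (r + 2)) κ) :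
    D j k (a + b) = D j k a + D j k b := by
  unfold D
  rw [add_mul, add_mul, Pi.single_add, Pi.single_add]
  abel

theorem D_zero {κ : Type} [Field κ] {r : ℕ} (j k : Fin r) :
    D j k (0 : MvPolynomial (Fin (r + 2)) κ) = 0 := by
  unfold D
  simp

theorem D_smul {κ : Type} [Field κ] {r : ℕ} (j k : Fin r) (c : κ) (a : MvPolynomial (Fin (r + 2)) κ) :
    D j k (c • a) = c • D j k a := by
  unfold D
  rw [smul_mul_assoc, smul_mul_assoc, smul_sub, ← Pi.single_smul, ← Pi.single_smul]

theorem D_sum {κ : Type} [Field κ] {r : ℕ} (j k : Fin r) {ι : Type} (s : Finset ι)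
    (f : ι → MvPolynomial (Fin (r + 2)) κ) : D j k (∑ i ∈ s, f i) = ∑ i ∈ s, D j k (f i) := by
  classical
  induction s using Finset.induction_on with
  | empty => simp [D_zero]
  | insert a s ha ih => rw [Finset.sum_insert ha, Finset.sum_insert ha, D_add, ih]

/-- the generating set -/
def Gen (κ : Type) [Field κ] (r d : ℕ) : Set (Fin r → MvPolynomial (Fin (r + 2)) κ) :=
  {v | ∃ (j k : Fin r) (m : Fin (r + 2) →₀ ℕ), j ≠ k ∧ m.degree + 2 = d ∧
        v = Pi.single j (monomial m 1 * g κ r k) - Pi.single k (monomial m 1 * g κ r j)}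

theorem D_mem {κ : Type} [Field κ] {r d : ℕ} (j k : Fin r) (hjk : j ≠ k)
    (s : MvPolynomial (Fin (r + 2)) κ) : D j k (hc d s) ∈ Submodule.span κ (Gen κ r d) := by
  unfold hc
  split_ifs with hd
  · set a := homogeneousComponent (d - 2) s with ha
    have hah : a.IsHomogeneous (d - 2) := homogeneousComponent_isHomogeneous _ _
    have h1 : a = ∑ m ∈ a.support, a.coeff m • monomial m (1 : κ) := by
      conv_lhs => rw [a.as_sum]
      refine Finset.sum_congr rfl fun m _ => ?_
      rw [smul_monomial, smul_eq_mul, mul_one]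
    rw [h1, D_sum]
    refine Submodule.sum_mem _ fun m hm => ?_
    rw [D_smul]
    refine Submodule.smul_mem _ _ (Submodule.subset_span ⟨j, k, m, hjk, ?_, rfl⟩)
    have h2 : m.degree = d - 2 := by
      have := hah (mem_support_iff.1 hm)
      rw [Finsupp.degree_eq_weight_one]
      exact this
    omega
  · rw [D_zero]
    exact Submodule.zero_mem _

theorem main (hA : S_G4a) (hB : S_G4b) (κ : Type) [Field κ] (r d : ℕ)
    (h : Fin r → MvPolynomial (Fin (r + 2)) κ)
    (hh : ∀ j, (h j).IsHomogeneous d) (hs : ∑ j, h j * g κ r j = 0) :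
    h ∈ Submodule.span κ (Gen κ r d) := by
  obtain ⟨s, hs1, hs2, hs3⟩ := hB (MvPolynomial (Fin (r + 2)) κ) r (g κ r) (fun j h => hA κ r j h) h hs
  have hc_neg : ∀ a : MvPolynomial (Fin (r + 2)) κ, hc d (-a) = - hc d a := by
    intro a
    unfold hc
    split_ifs
    · rw [map_neg]
    · rw [neg_zero]
  have hc_zero : hc d (0 : MvPolynomial (Fin (r + 2)) κ) = 0 := by
    unfold hc
    split_ifs <;> simp
  have h1 : ∀ j, h j = ∑ k, hc d (s j k) * g κ r k := by
    intro j
    have h2 : homogeneousComponent d (h j) = h j := by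
      rw [homogeneousComponent_of_mem (hh j), if_pos rfl]
    rw [← h2]
    conv_lhs => rw [hs3 j]
    rw [map_sum]
    exact Finset.sum_congr rfl fun k _ => hc_mul d _ _ (g_homog κ r k)
  set F : Fin r → Fin r → (Fin r → MvPolynomial (Fin (r + 2)) κ) :=
    fun j k => Pi.single j (hc d (s j k) * g κ r k) with hF
  have h2 : h = ∑ j, ∑ k, F j k := by
    have h3 : h = ∑ j, Pi.single j (h j) := (Finset.univ_sum_single h).symm
    conv_lhs => rw [h3]
    refine Finset.sum_congr rfl fun j _ => ?_
    rw [h1 j]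
    ext i : 1
    rw [Finset.sum_apply]
    by_cases hij : i = j
    · subst hij
      simp [hF]
    · simp [hF, hij]
  have hFjj : ∀ j, F j j = 0 := by
    intro j
    simp only [hF]
    rw [hs2 j, hc_zero, zero_mul, Pi.single_zero]
  have h4 : ∑ j, ∑ k, F j k = ∑ j, ∑ k, (if j < k then F j k + F k j else 0) := by
    have h5 : ∑ j, ∑ k, F j k = ∑ j, ∑ k, (if j < k then F j k else 0) +
        ∑ j, ∑ k, (if k < j then F j k else 0) := by
      rw [← Finset.sum_add_distrib]
      refine Finset.sum_congr rfl fun j _ => ?_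
      rw [← Finset.sum_add_distrib]
      refine Finset.sum_congr rfl fun k _ => ?_
      rcases lt_trichotomy j k with h | h | h
      · rw [if_pos h, if_neg (not_lt.2 h.le), add_zero]
      · subst h
        simp [hFjj]
      · rw [if_pos h, if_neg (not_lt.2 h.le), zero_add]
    have h6 : ∑ j, ∑ k, (if k < j then F j k else 0) = ∑ j, ∑ k, (if j < k then F k j else 0) :=
      Finset.sum_comm
    rw [h5, h6, ← Finset.sum_add_distrib]
    refine Finset.sum_congr rfl fun j _ => ?_
    rw [← Finset.sum_add_distrib]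
    refine Finset.sum_congr rfl fun k _ => ?_
    split_ifs <;> simp
  rw [h2, h4]
  refine Submodule.sum_mem _ fun j _ => Submodule.sum_mem _ fun k _ => ?_
  split_ifs with hjk
  · have h7 : F j k + F k j = D j k (hc d (s j k)) := by
      simp only [hF]
      unfold D
      rw [hs1 k j, hc_neg, neg_mul, Pi.single_neg, sub_eq_add_neg]
    rw [h7]
    exact D_mem j k hjk.ne _
  · exact Submodule.zero_mem _

end TG4c

end Pool.Agent.H918R4
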