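import Pool.Agent.H918R4.Defs

set_option autoImplicit false
namespace Pool.Agent.H918R4
open MvPolynomial

/-- G5 -/
theorem linInd_of_residue (F : Type) [Field F] (V : ValuationSubring F) (ι ρ σ : Type)
    (w : ι → ρ → MvPolynomial σ V)
    (h : LinearIndependent (IsLocalRing.ResidueField V)
      (fun i r => MvPolynomial.map (IsLocalRing.residue V) (w i r))) :
    LinearIndependent F (fun i r => MvPolynomial.map (algebraMap V F) (w i r)) := by
  classical
  rw [linearIndependent_iff']
  intro s c hsum i0 hi0
  by_contra hne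
  obtain ⟨i1, hi1, hmax⟩ := Finset.exists_max_image s (fun i => V.valuation (c i)) ⟨i0, hi0⟩
  have hc1 : c i1 ≠ 0 := by
    intro h0
    have := hmax i0 hi0
    rw [h0, map_zero] at this
    have h2 : V.valuation (c i0) = 0 := le_antisymm this zero_le'
    exact hne ((map_eq_zero V.valuation).1 h2)
  have hmem : ∀ i ∈ s, c i / c i1 ∈ V := by
    intro i hi
    rw [← ValuationSubring.valuation_le_one_iff, map_div₀]
    have h1 : V.valuation (c i1) ≠ 0 := (map_ne_zero V.valuation).2 hc1
    exact (div_le_one₀ (zero_lt_iff.2 h1)).2 (hmax i hi)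
  let d : ι → V := fun i => if hi : i ∈ s then ⟨c i / c i1, hmem i hi⟩ else 0
  have hd : ∀ i ∈ s, algebraMap V F (d i) = c i / c i1 := by
    intro i hi
    simp only [d, dif_pos hi]
    rfl
  have hsum2 : ∀ r, ∑ i ∈ s, d i • w i r = 0 := by
    intro r
    have hinj : Function.Injective (MvPolynomial.map (σ := σ) (algebraMap V F)) :=
      MvPolynomial.map_injective _ (FaithfulSMul.algebraMap_injective V F)
    apply hinj
    rw [map_zero, map_sum]
    have h1 := congrFun hsum r
    simp only [Finset.sum_apply, Pi.smul_apply, Pi.zero_apply] at h1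
    have h2 : ∑ i ∈ s, (c i / c i1) • MvPolynomial.map (algebraMap V F) (w i r) = 0 := by
      have h3 : (c i1)⁻¹ • ∑ i ∈ s, c i • MvPolynomial.map (algebraMap V F) (w i r) = 0 := by
        rw [h1, smul_zero]
      rw [Finset.smul_sum] at h3
      rw [← h3]
      apply Finset.sum_congr rfl
      intro i _
      rw [smul_smul, div_eq_mul_inv, mul_comm]
    rw [← h2]
    apply Finset.sum_congr rfl
    intro i hi
    rw [MvPolynomial.smul_eq_C_mul, map_mul, MvPolynomial.map_C, hd i hi,
      MvPolynomial.smul_eq_C_mul]
  rw [linearIndependent_iff'] at h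
  have h4 := h s (fun i => IsLocalRing.residue V (d i)) (by
    funext r
    simp only [Finset.sum_apply, Pi.smul_apply, Pi.zero_apply]
    have h5 := congrArg (MvPolynomial.map (σ := σ) (IsLocalRing.residue V)) (hsum2 r)
    rw [map_zero, map_sum] at h5
    rw [← h5]
    apply Finset.sum_congr rfl
    intro i hi
    rw [MvPolynomial.smul_eq_C_mul, MvPolynomial.smul_eq_C_mul, map_mul, MvPolynomial.map_C]) i1 hi1
  have h6 : d i1 = 1 := by
    apply FaithfulSMul.algebraMap_injective V F
    rw [hd i1 hi1, div_self hc1, map_one]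
  simp only [h6, map_one] at h4
  exact one_ne_zero h4

end Pool.Agent.H918R4
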