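import Pool.Agent.H918R4.TG6d
import Pool.Agent.H918R4.TG4cpre
import Pool.Agent.H918R4.TG4a
import Pool.Agent.H918R4.TG4b
import Pool.Agent.H918R4.TG5

set_option autoImplicit false
namespace Pool.Agent.H918R4
open MvPolynomial

/-- G6d (uses G4c, G5) -/
theorem syz_le (F : Type) [Field F] (V : ValuationSubring F) (r : ℕ)
    (f : Fin r → MvPolynomial (Fin (r + 2)) V) (hf : ∀ j, (f j).IsHomogeneous 2)
    (hred : ∀ j, MvPolynomial.map (IsLocalRing.residue V) (f j) = g _ r j) (d : ℕ) :
    Module.finrank (IsLocalRing.ResidueField V) (Syz (g (IsLocalRing.ResidueField V) r) d) ≤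
      Module.finrank F (Syz (fun j => MvPolynomial.map (algebraMap V F) (f j)) d) :=
  syz_le_of F V r f hf hred d
    (fun h hh hs => TG4c.main (fun κ _ r j h hh => g_regular κ r j h hh)
      (fun R _ r f hreg h hs => koszul R r f hreg h hs) _ r d h hh hs)
    (fun ι w h => linInd_of_residue F V ι (Fin r) (Fin (r + 2)) w h)

end Pool.Agent.H918R4
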