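import Pool.Agent.H918R4.Defs

/-! Task G6e (helper423). -/
set_option autoImplicit false
namespace Pool.Agent.H918R4
open MvPolynomial

namespace TG6e

/-- `card_le_HF_g` from G1 and G2b -/
theorem card_le_HF_g_of
    (gspan : ∀ (A : Type) [CommRing A] (r t : ℕ) (a : MvPolynomial (Fin (r + 2)) A),
      a.IsHomogeneous t →
      ∃ (b : MvPolynomial (Fin (r + 2)) A) (h : Fin r → MvPolynomial (Fin (r + 2)) A),
        b ∈ Submodule.span A ((fun m => monomial m (1 : A)) '' Bset r t) ∧
        a = b + ∑ j, h j * g A r j)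
    (B_indep : ∀ (κ : Type) [Field κ] (r t : ℕ) (b : MvPolynomial (Fin (r + 2)) κ),
      b ∈ Submodule.span κ ((fun m => monomial m (1 : κ)) '' Bset r t) →
      b ∈ gJ κ r → b = 0)
    (κ : Type) [Field κ] (r t : ℕ) : HF (gJ κ r) t = (Bset r t).ncard := by
  set B : Submodule κ (MvPolynomial (Fin (r + 2)) κ) :=
    Submodule.span κ ((fun m => monomial m (1 : κ)) '' Bset r t) with hB
  set f : MvPolynomial (Fin (r + 2)) κ →ₗ[κ] (MvPolynomial (Fin (r + 2)) κ ⧸ gJ κ r) :=
    (Ideal.Quotient.mkₐ κ (gJ κ r)).toLinearMap with hf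
  have hfa : ∀ a, f a = Ideal.Quotient.mk (gJ κ r) a := fun a => rfl
  have hBh : B ≤ homogeneousSubmodule (Fin (r + 2)) κ t := by
    rw [hB, Submodule.span_le]
    rintro _ ⟨m, hm, rfl⟩
    rw [SetLike.mem_coe, mem_homogeneousSubmodule]
    exact isHomogeneous_monomial _ hm.1
  have hAS : AS (gJ κ r) t = B.map f := by
    apply le_antisymm
    · rintro _ ⟨a, ha, rfl⟩
      obtain ⟨b, h, hb, hab⟩ := gspan κ r t a ((mem_homogeneousSubmodule _ _).1 ha)
      refine ⟨b, hb, ?_⟩
      change f b = f a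
      rw [hfa, hfa, Ideal.Quotient.eq, hab]
      have : b - (b + ∑ j, h j * g κ r j) = -∑ j, h j * g κ r j := by ring
      rw [this]
      apply Ideal.neg_mem_iff _ |>.2
      apply Ideal.sum_mem
      intro j _
      exact Ideal.mul_mem_left _ _ (Ideal.subset_span ⟨j, rfl⟩)
    · exact Submodule.map_mono hBh
  have hinj : Function.Injective (f.domRestrict B) := by
    rw [← LinearMap.ker_eq_bot, LinearMap.ker_eq_bot']
    rintro ⟨b, hb⟩ h0
    rw [LinearMap.domRestrict_apply, hfa, Ideal.Quotient.eq_zero_iff_mem] at h0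
    exact Subtype.ext (B_indep κ r t b hb h0)
  have hli : LinearIndependent κ (fun m : Bset r t => monomial (m : Fin (r + 2) →₀ ℕ) (1 : κ)) := by
    have h1 := (basisMonomials (Fin (r + 2)) κ).linearIndependent
    have h2 := h1.comp (fun m : Bset r t => (m : Fin (r + 2) →₀ ℕ)) Subtype.val_injective
    simpa [Function.comp_def] using h2
  have hspan : Submodule.span κ
      (Set.range (fun m : Bset r t => monomial (m : Fin (r + 2) →₀ ℕ) (1 : κ))) = B := by
    rw [hB, Set.image_eq_range]
  have hfin : Module.finrank κ B = (Bset r t).ncard := by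
    rw [← hspan, Module.finrank_eq_nat_card_basis (Module.Basis.span hli)]
    exact Nat.card_coe_set_eq _
  unfold HF
  rw [hAS, ← LinearMap.range_domRestrict, LinearMap.finrank_range_of_inj hinj, hfin]

end TG6e

end Pool.Agent.H918R4
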