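import Pool.Agent.H918R4.TG1

/-! Task G7 -/
set_option autoImplicit false
namespace Pool.Agent.H918R4
open MvPolynomial

namespace TG7

variable {A : Type} [CommRing A] {n : ℕ}

/-- the degree `t` component of `h * f` for `f` homogeneous of degree `2` -/
theorem hc_mul (t : ℕ) (h f : MvPolynomial (Fin n) A) (hf : f.IsHomogeneous 2) :
    ∃ h' : MvPolynomial (Fin n) A, homogeneousComponent t (h * f) = h' * f ∧
      ∀ f' : MvPolynomial (Fin n) A, f'.IsHomogeneous 2 →
        homogeneousComponent t (h * f') = h' * f' := by
  have key : ∀ f' : MvPolynomial (Fin n) A, f'.IsHomogeneous 2 →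
      homogeneousComponent t (h * f') =
        (if 2 ≤ t then homogeneousComponent (t - 2) h else 0) * f' := by
    intro f' hf'
    have h1 : h * f' = ∑ i ∈ Finset.range (h.totalDegree + 1), homogeneousComponent i h * f' := by
      rw [← Finset.sum_mul, sum_homogeneousComponent]
    have h2 : ∀ i, homogeneousComponent t (homogeneousComponent i h * f') =
        if t = i + 2 then homogeneousComponent i h * f' else 0 := by
      intro i
      exact homogeneousComponent_of_mem ((homogeneousComponent_isHomogeneous i h).mul hf')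
    rw [h1, map_sum]
    simp only [h2]
    split_ifs with ht
    · rw [Finset.sum_eq_single (t - 2)]
      · rw [if_pos (by omega)]
      · intro b _ hb
        rw [if_neg (by omega)]
      · intro hb
        have h3 : homogeneousComponent (t - 2) h = 0 := by
          apply homogeneousComponent_eq_zero
          simp only [Finset.mem_range, not_lt] at hb
          omega
        rw [h3, zero_mul, ite_self]
    · rw [zero_mul]
      apply Finset.sum_eq_zero
      intro i _
      rw [if_neg (by omega)]
  exact ⟨_, key f hf, key⟩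

/-- a homogeneous polynomial with coefficients in `I` is in `I • (homogeneous polynomials)` -/
theorem mem_smul_of_coeff (I : Ideal A) (t : ℕ) (c : MvPolynomial (Fin n) A)
    (hc : c.IsHomogeneous t) (h : ∀ m, coeff m c ∈ I) :
    c ∈ I • homogeneousSubmodule (Fin n) A t := by
  rw [c.as_sum]
  refine Submodule.sum_mem _ fun m hm => ?_
  have h1 : monomial m (coeff m c) = coeff m c • (monomial m (1 : A)) := by
    rw [smul_monomial, smul_eq_mul, mul_one]
  rw [h1]
  refine Submodule.smul_mem_smul (h m) ?_
  rw [mem_homogeneousSubmodule]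
  refine isHomogeneous_monomial _ ?_
  have h2 := hc (mem_support_iff.1 hm)
  rwa [Finsupp.degree_eq_weight_one]

theorem g_homog (A : Type) [CommRing A] (r : ℕ) (j : Fin r) : (g A r j).IsHomogeneous 2 := by
  unfold g
  refine ((isHomogeneous_X _ _).pow 2).sub ?_
  exact (isHomogeneous_X _ _).mul (isHomogeneous_X _ _)

theorem map_g (A B : Type) [CommRing A] [CommRing B] (φ : A →+* B) (r : ℕ) (j : Fin r) :
    MvPolynomial.map φ (g A r j) = g B r j := by
  simp [g]

theorem span_homog (r t : ℕ) (b : MvPolynomial (Fin (r + 2)) A)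
    (hb : b ∈ Submodule.span A ((fun m => monomial m (1 : A)) '' Bset r t)) :
    b.IsHomogeneous t := by
  rw [← mem_homogeneousSubmodule]
  refine (Submodule.span_le.2 ?_) hb
  rintro _ ⟨m, hm, rfl⟩
  rw [SetLike.mem_coe, mem_homogeneousSubmodule]
  exact isHomogeneous_monomial _ hm.1

theorem main (F : Type) [Field F] (V : ValuationSubring F) (r : ℕ)
    (f : Fin r → MvPolynomial (Fin (r + 2)) V) (hf : ∀ j, (f j).IsHomogeneous 2)
    (hred : ∀ j, MvPolynomial.map (IsLocalRing.residue V) (f j) = g _ r j) (t : ℕ)
    (G1 : ∀ a : MvPolynomial (Fin (r + 2)) V, a.IsHomogeneous t →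
      ∃ (b : MvPolynomial (Fin (r + 2)) V) (h : Fin r → MvPolynomial (Fin (r + 2)) V),
      b ∈ Submodule.span V ((fun m => monomial m (1 : V)) '' Bset r t) ∧
      a = b + ∑ j, h j * g V r j)
    (a : MvPolynomial (Fin (r + 2)) V) (ha : a.IsHomogeneous t) :
    ∃ (b : MvPolynomial (Fin (r + 2)) V) (h : Fin r → MvPolynomial (Fin (r + 2)) V),
      b ∈ Submodule.span V ((fun m => monomial m (1 : V)) '' Bset r t) ∧
      a = b + ∑ j, h j * f j := by
  set N : Submodule V (MvPolynomial (Fin (r + 2)) V) :=
    Submodule.span V ((fun m => monomial m (1 : V)) '' Bset r t) ⊔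
      (Ideal.span (Set.range f)).restrictScalars V with hN
  have hle : homogeneousSubmodule (Fin (r + 2)) V t ≤ N := by
    refine Submodule.le_of_le_smul_of_le_jacobson_bot (I := IsLocalRing.maximalIdeal V)
      (homogeneousSubmodule_fg _ _ t) ?_ ?_
    · rw [IsLocalRing.jacobson_eq_maximalIdeal _ bot_ne_top]
    · intro x hx
      rw [mem_homogeneousSubmodule] at hx
      obtain ⟨b, h, hb, hxb⟩ := G1 x hx
      choose h' h1 h2 using fun j => hc_mul (A := V) t (h j) (g V r j) (g_homog V r j)
      have e1 : x = b + ∑ j, h' j * g V r j := by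
        have e2 := congrArg (homogeneousComponent t) hxb
        rw [map_add, map_sum, homogeneousComponent_of_mem hx, if_pos rfl,
          homogeneousComponent_of_mem (span_homog r t b hb), if_pos rfl] at e2
        rw [e2]
        congr 1
        exact Finset.sum_congr rfl fun j _ => h1 j
      have e3 : x = (b + ∑ j, h' j * f j) + ∑ j, h' j * (g V r j - f j) := by
        rw [add_assoc, ← Finset.sum_add_distrib]
        rw [e1]
        congr 1
        refine Finset.sum_congr rfl fun j _ => ?_
        ring
      rw [e3]
      refine Submodule.add_mem_sup ?_ ?_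
      · refine Submodule.add_mem_sup hb ?_
        refine Submodule.sum_mem _ fun j _ => ?_
        exact Ideal.mul_mem_left _ _ (Ideal.subset_span ⟨j, rfl⟩)
      · refine Submodule.sum_mem _ fun j _ => ?_
        refine mem_smul_of_coeff _ _ _ ?_ ?_
        · have e4 : h' j * (g V r j - f j) = homogeneousComponent t (h j * (g V r j - f j)) := by
            rw [h2 j _ ((g_homog V r j).sub (hf j))]
          rw [e4]
          exact homogeneousComponent_isHomogeneous _ _
        · intro m
          have e5 : MvPolynomial.map (IsLocalRing.residue V) (h' j * (g V r j - f j)) = 0 := by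
            rw [map_mul, map_sub, map_g, hred, sub_self, mul_zero]
          have e6 := congrArg (coeff m) e5
          rw [coeff_map, coeff_zero] at e6
          exact (IsLocalRing.residue_eq_zero_iff _).1 e6
  have h1 := hle ((mem_homogeneousSubmodule t a).2 ha)
  rw [hN, Submodule.mem_sup] at h1
  obtain ⟨b, hb, z, hz, hbz⟩ := h1
  have hz' : z ∈ Ideal.span (Set.range f) := hz
  rw [Ideal.mem_span_range_iff_exists_fun] at hz'
  obtain ⟨h, hh⟩ := hz'
  exact ⟨b, h, hb, by rw [hh, hbz]⟩

end TG7

/-- G7 (uses G1) -/
theorem exists_decomp (F : Type) [Field F] (V : ValuationSubring F) (r : ℕ)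
    (f : Fin r → MvPolynomial (Fin (r + 2)) V) (hf : ∀ j, (f j).IsHomogeneous 2)
    (hred : ∀ j, MvPolynomial.map (IsLocalRing.residue V) (f j) = g _ r j) (t : ℕ)
    (a : MvPolynomial (Fin (r + 2)) V) (ha : a.IsHomogeneous t) :
    ∃ (b : MvPolynomial (Fin (r + 2)) V) (h : Fin r → MvPolynomial (Fin (r + 2)) V),
      b ∈ Submodule.span V ((fun m => monomial m (1 : V)) '' Bset r t) ∧
      a = b + ∑ j, h j * f j :=
  TG7.main F V r f hf hred t (fun a ha => gspan V r t a ha) a ha

end Pool.Agent.H918R4
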