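import Pool.Agent.H918R4.Defs
set_option autoImplicit false
namespace Pool.Agent.H918R4
open MvPolynomial

namespace TG8

theorem Bset_finite (r t : ℕ) : (Bset r t).Finite := by
  apply Set.Finite.subset (s := {m : Fin (r + 2) →₀ ℕ | m.degree ≤ t})
  · exact Finsupp.finite_of_degree_le t
  · intro m hm
    exact hm.1.le

/-- support of elements of the span -/
theorem mem_sp {A : Type} [CommRing A] {n : ℕ} (S : Set (Fin n →₀ ℕ)) (a : MvPolynomial (Fin n) A) :
    a ∈ Submodule.span A ((fun m => monomial m (1 : A)) '' S) ↔ ∀ m ∈ a.support, m ∈ S := by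
  rw [← restrictSupport_eq_span, mem_restrictSupport_iff]
  rfl

theorem sp_homog {A : Type} [CommRing A] {r t : ℕ} {a : MvPolynomial (Fin (r + 2)) A}
    (ha : a ∈ Submodule.span A ((fun m => monomial m (1 : A)) '' Bset r t)) :
    a.IsHomogeneous t := by
  rw [mem_sp] at ha
  intro m hm
  have := (ha m (mem_support_iff.2 hm)).1
  rw [← this]
  simp only [Finsupp.degree_eq_weight_one]
  rfl

theorem sp_map {A A' : Type} [CommRing A] [CommRing A'] {n : ℕ} (φ : A →+* A')
    (S : Set (Fin n →₀ ℕ)) {a : MvPolynomial (Fin n) A}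
    (ha : a ∈ Submodule.span A ((fun m => monomial m (1 : A)) '' S)) :
    MvPolynomial.map φ a ∈ Submodule.span A' ((fun m => monomial m (1 : A')) '' S) := by
  rw [mem_sp] at ha ⊢
  intro m hm
  exact ha m (support_map_subset _ _ hm)

/-- scaling a polynomial over `F` to a primitive polynomial over `V` -/
theorem scale {F : Type} [Field F] (V : ValuationSubring F) {n : ℕ} (S : Set (Fin n →₀ ℕ))
    (a : MvPolynomial (Fin n) F) (ha : a ≠ 0)
    (haS : a ∈ Submodule.span F ((fun m => monomial m (1 : F)) '' S)) :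
    ∃ (c : F) (a' : MvPolynomial (Fin n) V), C c * a = MvPolynomial.map (algebraMap V F) a' ∧
      a' ∈ Submodule.span V ((fun m => monomial m (1 : V)) '' S) ∧
      MvPolynomial.map (IsLocalRing.residue V) a' ≠ 0 := by
  rw [mem_sp] at haS
  have hne : a.support.Nonempty := by
    rwa [support_nonempty]
  obtain ⟨m, hm, hmax⟩ := a.support.exists_max_image (fun k => V.valuation (coeff k a)) hne
  have hm0 : coeff m a ≠ 0 := mem_support_iff.1 hm
  have hin : ∀ k, (coeff m a)⁻¹ * coeff k a ∈ V := by
    intro k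
    rw [← V.valuation_le_one_iff, map_mul, map_inv₀]
    by_cases hk : k ∈ a.support
    · have h1 := hmax k hk
      have h2 : V.valuation (coeff m a) ≠ 0 := by
        rwa [Valuation.ne_zero_iff]
      rw [inv_mul_le_iff₀ (zero_lt_iff.2 h2), mul_one]
      exact h1
    · rw [notMem_support_iff.1 hk]
      simp
  refine ⟨(coeff m a)⁻¹, ∑ k ∈ a.support, monomial k ⟨(coeff m a)⁻¹ * coeff k a, hin k⟩, ?_, ?_, ?_⟩
  · ext k
    rw [coeff_C_mul, coeff_map, coeff_sum]
    simp only [coeff_monomial]
    rw [Finset.sum_ite_eq']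
    split_ifs with hk
    · rfl
    · rw [notMem_support_iff.1 hk]
      simp
  · rw [mem_sp]
    intro k hk
    rw [mem_support_iff, coeff_sum] at hk
    simp only [coeff_monomial] at hk
    rw [Finset.sum_ite_eq'] at hk
    split_ifs at hk with hk'
    · exact haS k hk'
    · exact absurd rfl hk
  · intro h0
    have h1 := congrArg (coeff m) h0
    rw [coeff_map, coeff_sum] at h1
    simp only [coeff_monomial] at h1
    rw [Finset.sum_ite_eq', if_pos hm, coeff_zero] at h1
    have h2 : (⟨(coeff m a)⁻¹ * coeff m a, hin m⟩ : V) = 1 := by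
      apply Subtype.ext
      exact inv_mul_cancel₀ hm0
    rw [h2, map_one] at h1
    exact one_ne_zero h1

section
variable {F : Type} [Field F] (V : ValuationSubring F) {r : ℕ}
    (f : Fin r → MvPolynomial (Fin (r + 2)) V)
    (h7 : ∀ (t : ℕ) (a : MvPolynomial (Fin (r + 2)) V), a.IsHomogeneous t →
      ∃ (b : MvPolynomial (Fin (r + 2)) V) (h : Fin r → MvPolynomial (Fin (r + 2)) V),
      b ∈ Submodule.span V ((fun m => monomial m (1 : V)) '' Bset r t) ∧
      a = b + ∑ j, h j * f j)
include h7

theorem le_sup (t : ℕ) : homogeneousSubmodule (Fin (r + 2)) F t ≤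
    Submodule.span F ((fun m => monomial m (1 : F)) '' Bset r t) ⊔
    (Ideal.span (Set.range fun j => MvPolynomial.map (algebraMap V F) (f j))).restrictScalars F := by
  intro a ha
  rw [mem_homogeneousSubmodule] at ha
  rw [a.as_sum]
  apply Submodule.sum_mem
  intro m hm
  have hdeg : m.degree = t := by
    have := ha (mem_support_iff.1 hm)
    rw [← this]
    simp only [Finsupp.degree_eq_weight_one]
    rfl
  obtain ⟨b, h, hb, he⟩ := h7 t (monomial m 1) (isHomogeneous_monomial _ hdeg)
  have h1 : (monomial m (coeff m a) : MvPolynomial (Fin (r + 2)) F) =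
      coeff m a • MvPolynomial.map (algebraMap V F) (monomial m 1) := by
    rw [map_monomial, map_one, smul_monomial, smul_eq_mul, mul_one]
  rw [h1, he, map_add, map_sum]
  apply Submodule.smul_mem
  apply Submodule.add_mem_sup
  · exact sp_map _ _ hb
  · show _ ∈ (Ideal.span (Set.range fun j => MvPolynomial.map (algebraMap V F) (f j)))
    apply Ideal.sum_mem
    intro j _
    rw [map_mul]
    exact Ideal.mul_mem_left _ _ (Ideal.subset_span ⟨j, rfl⟩)

theorem AS_eq (t : ℕ) :
    AS (Ideal.span (Set.range fun j => MvPolynomial.map (algebraMap V F) (f j))) t =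
    (Submodule.span F ((fun m => monomial m (1 : F)) '' Bset r t)).map
      (Ideal.Quotient.mkₐ F (Ideal.span (Set.range fun j =>
        MvPolynomial.map (algebraMap V F) (f j)))).toLinearMap := by
  unfold AS
  apply le_antisymm
  · rintro _ ⟨a, ha, rfl⟩
    obtain ⟨b, hb, i, hi, rfl⟩ := Submodule.mem_sup.1 (le_sup V f h7 t ha)
    refine ⟨b, hb, ?_⟩
    rw [map_add]
    have h1 : (Ideal.Quotient.mkₐ F (Ideal.span (Set.range fun j =>
        MvPolynomial.map (algebraMap V F) (f j)))).toLinearMap i = 0 := by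
      exact Ideal.Quotient.eq_zero_iff_mem.2 hi
    rw [h1, add_zero]
  · apply Submodule.map_mono
    intro a ha
    exact sp_homog ha

theorem key (t : ℕ)
    (h6 : (Bset r t).ncard ≤
      HF (Ideal.span (Set.range fun j => MvPolynomial.map (algebraMap V F) (f j))) t) :
    HF (Ideal.span (Set.range fun j => MvPolynomial.map (algebraMap V F) (f j))) t =
      (Bset r t).ncard ∧
    ∀ b ∈ Submodule.span F ((fun m => monomial m (1 : F)) '' Bset r t),
      b ∈ Ideal.span (Set.range fun j => MvPolynomial.map (algebraMap V F) (f j)) → b = 0 := by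
  set I := Ideal.span (Set.range fun j => MvPolynomial.map (algebraMap V F) (f j)) with hI
  set P := Submodule.span F ((fun m => monomial m (1 : F)) '' Bset r t) with hP
  have hfin : ((fun m => monomial m (1 : F)) '' Bset r t :
      Set (MvPolynomial (Fin (r + 2)) F)).Finite := (Bset_finite r t).image _
  have : FiniteDimensional F P := FiniteDimensional.span_of_finite F hfin
  have hP1 : Module.finrank F P ≤ (Bset r t).ncard := by
    classical
    have := hfin.fintype
    have h1 := finrank_span_le_card (R := F) ((fun m => monomial m (1 : F)) '' Bset r t :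
      Set (MvPolynomial (Fin (r + 2)) F))
    rw [← Set.ncard_eq_toFinset_card'] at h1
    exact h1.trans (Set.ncard_image_le (Bset_finite r t))
  have h2 := LinearMap.finrank_range_add_finrank_ker
    ((Ideal.Quotient.mkₐ F I).toLinearMap.domRestrict P)
  have hAS : AS I t = P.map (Ideal.Quotient.mkₐ F I).toLinearMap := AS_eq V f h7 t
  rw [LinearMap.range_domRestrict, ← hAS] at h2
  unfold HF at h6 ⊢
  have h3 : Module.finrank F (AS I t) = (Bset r t).ncard := by omega
  have h4 : Module.finrank F (LinearMap.ker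
      ((Ideal.Quotient.mkₐ F I).toLinearMap.domRestrict P)) = 0 := by omega
  refine ⟨h3, fun b hb hbI => ?_⟩
  have h5 := Submodule.finrank_eq_zero.1 h4
  have h6' : (⟨b, hb⟩ : P) ∈ LinearMap.ker
      ((Ideal.Quotient.mkₐ F I).toLinearMap.domRestrict P) := by
    rw [LinearMap.mem_ker]
    exact Ideal.Quotient.eq_zero_iff_mem.2 hbI
  rw [h5, Submodule.mem_bot] at h6'
  exact congrArg Subtype.val h6'

end

theorem flat_core
    (hg : ∀ (κ : Type) [Field κ] (r : ℕ), (gJ κ r).IsPrime)
    (hB : ∀ (κ : Type) [Field κ] (r t : ℕ) (b : MvPolynomial (Fin (r + 2)) κ)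
      (_ : b ∈ Submodule.span κ ((fun m => monomial m (1 : κ)) '' Bset r t))
      (_ : b ∈ gJ κ r), b = 0)
    (h6 : ∀ (F : Type) [Field F] (V : ValuationSubring F) (r : ℕ)
      (f : Fin r → MvPolynomial (Fin (r + 2)) V) (_ : ∀ j, (f j).IsHomogeneous 2)
      (_ : ∀ j, MvPolynomial.map (IsLocalRing.residue V) (f j) = g _ r j) (t : ℕ),
      (Bset r t).ncard ≤
        HF (Ideal.span (Set.range fun j => MvPolynomial.map (algebraMap V F) (f j))) t)
    (h7 : ∀ (F : Type) [Field F] (V : ValuationSubring F) (r : ℕ)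
      (f : Fin r → MvPolynomial (Fin (r + 2)) V) (_ : ∀ j, (f j).IsHomogeneous 2)
      (_ : ∀ j, MvPolynomial.map (IsLocalRing.residue V) (f j) = g _ r j) (t : ℕ)
      (a : MvPolynomial (Fin (r + 2)) V) (_ : a.IsHomogeneous t),
      ∃ (b : MvPolynomial (Fin (r + 2)) V) (h : Fin r → MvPolynomial (Fin (r + 2)) V),
        b ∈ Submodule.span V ((fun m => monomial m (1 : V)) '' Bset r t) ∧
        a = b + ∑ j, h j * f j)
    (F : Type) [Field F] (V : ValuationSubring F) (r : ℕ)
    (f : Fin r → MvPolynomial (Fin (r + 2)) V) (hf : ∀ j, (f j).IsHomogeneous 2)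
    (hred : ∀ j, MvPolynomial.map (IsLocalRing.residue V) (f j) = g _ r j) :
    (∀ t, HF (Ideal.span (Set.range fun j => MvPolynomial.map (algebraMap V F) (f j))) t =
      (Bset r t).ncard) ∧
    DomI (Ideal.span (Set.range fun j => MvPolynomial.map (algebraMap V F) (f j))) := by
  have h7' := h7 F V r f hf hred
  have hk := fun t => key V f h7' t (h6 F V r f hf hred t)
  refine ⟨fun t => (hk t).1, ?_⟩
  set I := Ideal.span (Set.range fun j => MvPolynomial.map (algebraMap V F) (f j)) with hI
  intro s t a b ha hb hab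
  by_contra hcon
  push Not at hcon
  obtain ⟨haI, hbI⟩ := hcon
  obtain ⟨α, hα, i, hi, hai⟩ := Submodule.mem_sup.1 (le_sup V f h7' s ha)
  obtain ⟨β, hβ, i', hi', hbi⟩ := Submodule.mem_sup.1 (le_sup V f h7' t hb)
  have hi2 : i ∈ I := hi
  have hi2' : i' ∈ I := hi'
  have hα0 : α ≠ 0 := by
    rintro rfl
    rw [zero_add] at hai
    exact haI (hai ▸ hi2)
  have hβ0 : β ≠ 0 := by
    rintro rfl
    rw [zero_add] at hbi
    exact hbI (hbi ▸ hi2')
  have hαβ : α * β ∈ I := by
    have h1 : α * β = a * b - i * b - α * i' := by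
      rw [← hai, ← hbi]; ring
    rw [h1]
    exact I.sub_mem (I.sub_mem hab (I.mul_mem_right _ hi2)) (I.mul_mem_left _ hi2')
  obtain ⟨c, α', hc, hα', hαr⟩ := scale V (Bset r s) α hα0 hα
  obtain ⟨d, β', hd, hβ', hβr⟩ := scale V (Bset r t) β hβ0 hβ
  have hhom : (α' * β').IsHomogeneous (s + t) := (sp_homog hα').mul (sp_homog hβ')
  obtain ⟨e, h, he, heq⟩ := h7' (s + t) (α' * β') hhom
  have hmI : MvPolynomial.map (algebraMap V F) e ∈ I := by
    have h1 : MvPolynomial.map (algebraMap V F) e = C c * C d * (α * β) -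
        ∑ j, MvPolynomial.map (algebraMap V F) (h j) * MvPolynomial.map (algebraMap V F) (f j) := by
      have h2 := congrArg (MvPolynomial.map (algebraMap V F)) heq
      rw [map_mul, map_add, map_sum, ← hc, ← hd] at h2
      simp only [map_mul] at h2
      rw [eq_sub_iff_add_eq, ← h2]
      ring
    rw [h1]
    refine I.sub_mem (I.mul_mem_left _ hαβ) (Ideal.sum_mem _ fun j _ => ?_)
    exact I.mul_mem_left _ (Ideal.subset_span ⟨j, rfl⟩)
  have he0 : e = 0 := by
    have h1 := (hk (s + t)).2 _ (sp_map (algebraMap V F) _ he) hmI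
    apply MvPolynomial.map_injective (algebraMap V F) (FaithfulSMul.algebraMap_injective V F)
    rw [h1, map_zero]
  rw [he0, zero_add] at heq
  have hprod : MvPolynomial.map (IsLocalRing.residue V) α' *
      MvPolynomial.map (IsLocalRing.residue V) β' ∈ gJ (IsLocalRing.ResidueField V) r := by
    rw [← map_mul, heq, map_sum]
    refine Ideal.sum_mem _ fun j _ => ?_
    rw [map_mul, hred]
    exact Ideal.mul_mem_left _ _ (Ideal.subset_span ⟨j, rfl⟩)
  rcases (hg (IsLocalRing.ResidueField V) r).mem_or_mem hprod with h1 | h1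
  · exact hαr (hB _ r s _ (sp_map _ _ hα') h1)
  · exact hβr (hB _ r t _ (sp_map _ _ hβ') h1)

end TG8

end Pool.Agent.H918R4
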