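import Pool.Agent.H918R4.TG1
import Pool.Agent.H918R4.TG2
import Pool.Agent.H918R4.TG6
import Pool.Agent.H918R4.TG6a
import Pool.Agent.H918R4.TG6b
import Pool.Agent.H918R4.TG6c
import Pool.Agent.H918R4.TG6dfin
import Pool.Agent.H918R4.TG6e
import Pool.Agent.H918R4.TG7
import Pool.Agent.H918R4.TG8

set_option autoImplicit false
namespace Pool.Agent.H918R4
open MvPolynomial

/-- G6e -/
theorem card_le_HF_g (κ : Type) [Field κ] (r t : ℕ) : HF (gJ κ r) t = (Bset r t).ncard :=
  TG6e.card_le_HF_g_of gspan B_indep κ r t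

/-- G6 -/
theorem card_le_HF (F : Type) [Field F] (V : ValuationSubring F) (r : ℕ)
    (f : Fin r → MvPolynomial (Fin (r + 2)) V) (hf : ∀ j, (f j).IsHomogeneous 2)
    (hred : ∀ j, MvPolynomial.map (IsLocalRing.residue V) (f j) = g _ r j) (t : ℕ) :
    (Bset r t).ncard ≤
      HF (Ideal.span (Set.range fun j => MvPolynomial.map (algebraMap V F) (f j))) t :=
  TG6.card_le_HF_of finrank_homog HF_add_inf finrank_syz syz_le card_le_HF_g F V r f hf hred t

/-- G8 -/
theorem flat (F : Type) [Field F] (V : ValuationSubring F) (r : ℕ)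
    (f : Fin r → MvPolynomial (Fin (r + 2)) V) (hf : ∀ j, (f j).IsHomogeneous 2)
    (hred : ∀ j, MvPolynomial.map (IsLocalRing.residue V) (f j) = g _ r j) :
    (∀ t, HF (Ideal.span (Set.range fun j => MvPolynomial.map (algebraMap V F) (f j))) t =
      (Bset r t).ncard) ∧
    DomI (Ideal.span (Set.range fun j => MvPolynomial.map (algebraMap V F) (f j))) :=
  TG8.flat_core g_prime B_indep card_le_HF exists_decomp F V r f hf hred

end Pool.Agent.H918R4
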