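import Mathlib
import Pool.Agent.H918R4.Defs

set_option autoImplicit false

namespace Pool.Agent.H918R4

open Polynomial Topology

namespace TP2

variable (k : Type) [Field k]

abbrev Om := AlgebraicClosure (RatFunc k)

noncomputable abbrev BB := integralClosure (Polynomial k) (Om k)

abbrev GG := Om k ≃ₐ[RatFunc k] Om k

instance commPoly : SMulCommClass (GG k) (Polynomial k) (Om k) :=
  ⟨fun g r x => by
    change g (r • x) = r • g x
    rw [← algebraMap_smul (RatFunc k) r x, map_smul, algebraMap_smul]⟩

lemma open_fix (b : Om k) (c : Om k) : IsOpen {g : GG k | g b = c} := by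
  rw [isOpen_iff_mem_nhds]
  intro g0 hg0
  have hint : IsIntegral (RatFunc k) b := Algebra.IsIntegral.isIntegral b
  haveI : FiniteDimensional (RatFunc k) (IntermediateField.adjoin (RatFunc k) {b}) :=
    IntermediateField.adjoin.finiteDimensional hint
  have hopen := IntermediateField.fixingSubgroup_isOpen
    (IntermediateField.adjoin (RatFunc k) {b})
  have hcont : Continuous (fun g : GG k => g0⁻¹ * g) := continuous_const_mul g0⁻¹
  have h1 : (fun g : GG k => g0⁻¹ * g) ⁻¹'
      ((IntermediateField.adjoin (RatFunc k) {b}).fixingSubgroup : Set (GG k)) ∈ 𝓝 g0 := by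
    apply (hopen.preimage hcont).mem_nhds
    simp only [Set.mem_preimage, inv_mul_cancel]
    exact Subgroup.one_mem _
  refine Filter.mem_of_superset h1 ?_
  intro g hg
  have hg' : g0⁻¹ * g ∈ (IntermediateField.adjoin (RatFunc k) {b}).fixingSubgroup := hg
  rw [IntermediateField.mem_fixingSubgroup_iff] at hg'
  have h2 := hg' b (IntermediateField.mem_adjoin_simple_self (RatFunc k) b)
  have h3 : g b = g0 b := by
    have h4 : g0 ((g0⁻¹ * g) b) = g0 b := by rw [h2]
    rw [← h4]
    change g b = (g0 * (g0⁻¹ * g)) b
    rw [mul_inv_cancel_left]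
  change g b = c
  rw [h3]
  exact hg0

end TP2

open TP2 in
/-- P2 -/
theorem exists_smul_prime (k : Type) [Field k] [CharZero k]
    (P Q : Ideal (integralClosure (Polynomial k) (AlgebraicClosure (RatFunc k))))
    (hP : P.IsPrime) (hQ : Q.IsPrime)
    (h : P.comap (algebraMap (Polynomial k) _) = Q.comap (algebraMap (Polynomial k) _)) :
    ∃ γ : AlgebraicClosure (RatFunc k) ≃ₐ[RatFunc k] AlgebraicClosure (RatFunc k),
      ∀ b : integralClosure (Polynomial k) (AlgebraicClosure (RatFunc k)),
        ∃ h : γ b ∈ integralClosure (Polynomial k) (AlgebraicClosure (RatFunc k)),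
          (b ∈ P ↔ (⟨γ b, h⟩ : integralClosure (Polynomial k) (AlgebraicClosure (RatFunc k))) ∈ Q) := by
  haveI : CharZero (RatFunc k) := charZero_of_injective_algebraMap
    (algebraMap k (RatFunc k)).injective
  haveI : IsGalois (RatFunc k) (Om k) := inferInstance
  haveI : CompactSpace (GG k) := inferInstance
  haveI : TotallyDisconnectedSpace (GG k) := inferInstance
  haveI : IsTopologicalGroup (GG k) := inferInstance
  letI : TopologicalSpace (BB k) := ⊥
  haveI : DiscreteTopology (BB k) := ⟨rfl⟩
  haveI : ContinuousSMul (GG k) (BB k) := by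
    refine ⟨?_⟩
    rw [continuous_prod_of_discrete_right]
    intro b
    rw [continuous_discrete_rng]
    intro c
    have h1 : (fun g : GG k => (g, b).1 • (g, b).2) ⁻¹' {c} = {g : GG k | g (b : Om k) = (c : Om k)} := by
      ext g
      constructor
      · intro hg
        exact congrArg Subtype.val hg
      · intro hg
        exact Subtype.ext hg
    rw [h1]
    exact open_fix k _ _
  haveI : Algebra.IsInvariant (Polynomial k) (BB k) (GG k) := by
    refine ⟨?_⟩
    intro b hb
    have h1 : ∀ g : GG k, g (b : Om k) = (b : Om k) := fun g => congrArg Subtype.val (hb g)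
    have h2 : (b : Om k) ∈ (⊥ : IntermediateField (RatFunc k) (Om k)) := by
      rw [InfiniteGalois.mem_bot_iff_fixed]
      exact h1
    rw [IntermediateField.mem_bot] at h2
    obtain ⟨q, hq⟩ := h2
    have h3 : IsIntegral (Polynomial k) (algebraMap (RatFunc k) (Om k) q) := by
      rw [hq]
      exact b.2
    have h4 : IsIntegral (Polynomial k) q :=
      (isIntegral_algebraMap_iff (algebraMap (RatFunc k) (Om k)).injective).mp h3
    obtain ⟨a, ha⟩ := IsIntegrallyClosed.isIntegral_iff.mp h4
    refine ⟨a, ?_⟩
    apply Subtype.ext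
    change algebraMap (Polynomial k) (Om k) a = (b : Om k)
    rw [IsScalarTower.algebraMap_apply (Polynomial k) (RatFunc k) (Om k), ha, hq]
  obtain ⟨g, hg⟩ := Algebra.IsInvariant.exists_smul_of_under_eq_of_profinite
    (A := Polynomial k) (B := BB k) (G := GG k) P Q h
  refine ⟨g, ?_⟩
  intro b
  refine ⟨(g • b : BB k).2, ?_⟩
  change b ∈ P ↔ (g • b : BB k) ∈ Q
  rw [hg]
  exact (Ideal.smul_mem_pointwise_smul_iff).symm

end Pool.Agent.H918R4
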