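import Pool.Agent.H918R4.Defs

/-! # A specialisation `u ↦ 0` of the integral closure of `k[X]` (task P3) -/

set_option autoImplicit false

namespace Pool.Agent.H918R4

namespace TP3

open Polynomial

theorem gen (k : Type) [Field k] [IsAlgClosed k] (B : Type) [CommRing B] [Algebra (Polynomial k) B]
    [Algebra.IsIntegral (Polynomial k) B]
    (hinj : Function.Injective (algebraMap (Polynomial k) B)) :
    ∃ φ : B →+* k, ∀ f : Polynomial k, φ (algebraMap _ _ f) = f.eval 0 := by
  set P : Ideal (Polynomial k) := RingHom.ker (Polynomial.evalRingHom (0 : k)) with hP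
  have hPmax : P.IsMaximal :=
    RingHom.ker_isMaximal_of_surjective _ (fun x => ⟨Polynomial.C x, by simp⟩)
  obtain ⟨Q, hQ, hQP⟩ := Ideal.exists_ideal_over_maximal_of_isIntegral (S := B) P (by
    rw [(RingHom.injective_iff_ker_eq_bot _).mp hinj]
    exact bot_le)
  let ψ : k →+* B ⧸ Q := (Ideal.Quotient.mk Q).comp ((algebraMap (Polynomial k) B).comp Polynomial.C)
  have hψ : ∀ f : Polynomial k, Ideal.Quotient.mk Q (algebraMap (Polynomial k) B f) =
      ψ (f.eval 0) := by
    intro f
    show Ideal.Quotient.mk Q (algebraMap (Polynomial k) B f) =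
      Ideal.Quotient.mk Q (algebraMap (Polynomial k) B (Polynomial.C (f.eval 0)))
    rw [Ideal.Quotient.eq, ← map_sub]
    have h1 : f - Polynomial.C (f.eval 0) ∈ P := by
      rw [hP, RingHom.mem_ker]
      simp
    rw [← hQP] at h1
    exact h1
  have hint : ψ.IsIntegral := by
    intro y
    obtain ⟨b, rfl⟩ := Ideal.Quotient.mk_surjective y
    obtain ⟨F, hF, hFb⟩ := Algebra.IsIntegral.isIntegral (R := Polynomial k) b
    refine ⟨F.map (Polynomial.evalRingHom 0), hF.map _, ?_⟩
    rw [Polynomial.eval₂_map]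
    have h2 : ψ.comp (Polynomial.evalRingHom 0) =
        (Ideal.Quotient.mk Q).comp (algebraMap (Polynomial k) B) := by
      apply RingHom.ext
      intro f
      exact (hψ f).symm
    rw [h2, ← Polynomial.hom_eval₂, hFb, map_zero]
  have hbij : Function.Bijective ψ := IsAlgClosed.ringHom_bijective_of_isIntegral ψ hint
  let e : k ≃+* B ⧸ Q := RingEquiv.ofBijective ψ hbij
  refine ⟨(e.symm : B ⧸ Q →+* k).comp (Ideal.Quotient.mk Q), ?_⟩
  intro f
  show e.symm (Ideal.Quotient.mk Q (algebraMap (Polynomial k) B f)) = f.eval 0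
  rw [hψ, RingEquiv.symm_apply_eq]
  rfl

end TP3

/-- P3 -/
theorem exists_phi0 (k : Type) [Field k] [IsAlgClosed k] :
    ∃ φ0 : integralClosure (Polynomial k) (AlgebraicClosure (RatFunc k)) →+* k,
      ∀ f : Polynomial k, φ0 (algebraMap _ _ f) = f.eval 0 := by
  apply TP3.gen
  intro f g h
  have h1 : algebraMap (Polynomial k) (AlgebraicClosure (RatFunc k)) f =
      algebraMap (Polynomial k) (AlgebraicClosure (RatFunc k)) g := congrArg Subtype.val h
  rw [IsScalarTower.algebraMap_apply (Polynomial k) (RatFunc k) (AlgebraicClosure (RatFunc k)),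
    IsScalarTower.algebraMap_apply (Polynomial k) (RatFunc k) (AlgebraicClosure (RatFunc k))] at h1
  exact RatFunc.algebraMap_injective k ((algebraMap (RatFunc k) (AlgebraicClosure (RatFunc k))).injective h1)

end Pool.Agent.H918R4
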