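import Pool.Agent.H918R4.Defs

/-! Task P4: extension of the automorphism of `k` to the algebraic closure of `k(X)`. -/

set_option autoImplicit false

namespace Pool.Agent.H918R4

open Polynomial in
/-- P4 -/
theorem exists_ext (k : Type) [Field k] (σ : RingAut k) (c : k) (hc : c ≠ 0) :
    ∃ τ0 : RingAut (AlgebraicClosure (RatFunc k)),
      (∀ x : k, τ0 (algebraMap k _ x) = algebraMap k _ (σ x)) ∧
      τ0 (algebraMap (RatFunc k) _ RatFunc.X) =
        algebraMap k _ c * algebraMap (RatFunc k) _ RatFunc.X := by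
  letI : Invertible c := invertibleOfNonzero hc
  let σ' : k ≃+* k := σ
  let θ : k[X] ≃+* k[X] :=
    (Polynomial.mapEquiv σ').trans (algEquivCMulXAddC c 0).toRingEquiv
  have hθC : ∀ x : k, θ (C x) = C (σ x) := by
    intro x
    change (algEquivCMulXAddC c 0) (Polynomial.mapEquiv σ' (C x)) = C (σ x)
    have h1 : Polynomial.mapEquiv σ' (C x) = C (σ x) := by
      simp [Polynomial.mapEquiv, σ']
    rw [h1, ← Polynomial.algebraMap_eq]
    exact AlgEquiv.commutes _ _
  have hθX : θ X = C c * X := by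
    change (algEquivCMulXAddC c 0) (Polynomial.mapEquiv σ' X) = C c * X
    have h1 : Polynomial.mapEquiv σ' (X : k[X]) = X := by
      simp [Polynomial.mapEquiv]
    rw [h1, algEquivCMulXAddC_apply]
    simp
  let Θ : RatFunc k ≃+* RatFunc k := IsFractionRing.ringEquivOfRingEquiv θ
  have hΘ : ∀ f : k[X], Θ (algebraMap k[X] (RatFunc k) f) = algebraMap k[X] (RatFunc k) (θ f) :=
    fun f => IsFractionRing.ringEquivOfRingEquiv_algebraMap θ f
  let τ0 : AlgebraicClosure (RatFunc k) ≃+* AlgebraicClosure (RatFunc k) :=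
    IsAlgClosure.equivOfEquiv _ _ Θ
  have hτ : ∀ f : RatFunc k, τ0 (algebraMap (RatFunc k) _ f) =
      algebraMap (RatFunc k) (AlgebraicClosure (RatFunc k)) (Θ f) :=
    fun f => IsAlgClosure.equivOfEquiv_algebraMap _ _ Θ f
  have hk : ∀ x : k, algebraMap k (AlgebraicClosure (RatFunc k)) x =
      algebraMap (RatFunc k) _ (algebraMap k[X] (RatFunc k) (C x)) := by
    intro x
    rw [IsScalarTower.algebraMap_apply k (RatFunc k) (AlgebraicClosure (RatFunc k)),
      RatFunc.algebraMap_C]
    rfl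
  refine ⟨τ0, fun x => ?_, ?_⟩
  · rw [hk, hτ, hΘ, hθC, ← hk]
  · rw [← RatFunc.algebraMap_X, hτ, hΘ, hθX, map_mul, map_mul, ← hk]

end Pool.Agent.H918R4
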