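import Pool.Agent.H918R4.Defs

set_option autoImplicit false

namespace Pool.Agent.H918R4

open Polynomial

namespace TP1

theorem main (R Ω : Type) [CommRing R] [IsLocalRing R] [Field Ω] [Algebra R Ω]
    (hint : ∀ z : Ω, IsIntegral R z → z ∈ Set.range (algebraMap R Ω)) (y : Ω) (n : ℕ) :
    ∀ (f : Polynomial R), f.natDegree ≤ n → Polynomial.aeval y f = 0 → ∀ i : ℕ,
      IsUnit (f.coeff i) → y ∈ Set.range (algebraMap R Ω) ∨ y⁻¹ ∈ Set.range (algebraMap R Ω) := by
  induction n with
  | zero =>
    intro f hd hf i hi
    exfalso
    have h1 : f = C (f.coeff 0) := Polynomial.eq_C_of_natDegree_le_zero hd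
    have h2 : IsUnit (f.coeff 0) := by
      cases i with
      | zero => exact hi
      | succ i =>
        exfalso
        rw [Polynomial.coeff_eq_zero_of_natDegree_lt (by omega)] at hi
        exact not_isUnit_zero hi
    rw [h1, Polynomial.aeval_C] at hf
    have h3 := h2.map (algebraMap R Ω)
    rw [hf] at h3
    exact not_isUnit_zero h3
  | succ n ih =>
    intro f hd hf i hi
    rcases Nat.lt_or_ge f.natDegree (n + 1) with hlt | hge
    · exact ih f (by omega) hf i hi
    have hdeg : f.natDegree = n + 1 := le_antisymm hd hge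
    by_cases hu : IsUnit f.leadingCoeff
    · left
      apply hint
      obtain ⟨u, hu⟩ := hu
      refine ⟨C ((u⁻¹ : Rˣ) : R) * f, ?_, ?_⟩
      · rw [Polynomial.Monic, Polynomial.leadingCoeff, Polynomial.natDegree_C_mul_of_isUnit u⁻¹.isUnit,
          Polynomial.coeff_C_mul]
        have : f.coeff f.natDegree = (u : R) := hu.symm
        rw [this, Units.inv_mul]
      · have : aeval y (C ((u⁻¹ : Rˣ) : R) * f) = 0 := by rw [map_mul, hf, mul_zero]
        exact this
    · have hb : IsIntegral R (f.leadingCoeff • y) := isIntegral_leadingCoeff_smul f y hf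
      obtain ⟨b', hb'⟩ := hint _ hb
      set f1 : R[X] := f.eraseLead + C b' * X ^ n with hf1
      have hdec : f = f.eraseLead + C f.leadingCoeff * X ^ (n + 1) := by
        conv_lhs => rw [← Polynomial.eraseLead_add_C_mul_X_pow f]
        rw [hdeg]
      have hf1z : aeval y f1 = 0 := by
        rw [hf1, map_add, map_mul, aeval_C, map_pow, aeval_X, hb']
        rw [hdec, map_add, map_mul, aeval_C, map_pow, aeval_X] at hf
        rw [← hf, Algebra.smul_def]
        ring
      have hd1 : f1.natDegree ≤ n := by
        refine (Polynomial.natDegree_add_le _ _).trans (max_le ?_ ?_)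
        · refine (Polynomial.eraseLead_natDegree_le f).trans ?_
          omega
        · exact Polynomial.natDegree_C_mul_X_pow_le _ _
      have hc : ∀ j, j ≠ n + 1 → j ≠ n → f1.coeff j = f.coeff j := by
        intro j h1 h2
        rw [hf1, coeff_add, coeff_C_mul, coeff_X_pow, if_neg h2, mul_zero, add_zero,
          Polynomial.eraseLead_coeff_of_ne j (by omega)]
      have hcn : f1.coeff n = f.coeff n + b' := by
        rw [hf1, coeff_add, coeff_C_mul, coeff_X_pow, if_pos rfl, mul_one,
          Polynomial.eraseLead_coeff_of_ne n (by omega)]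
      have hin : i ≠ n + 1 := by
        rintro rfl
        apply hu
        rw [Polynomial.leadingCoeff, hdeg]
        exact hi
      by_cases hi2 : i = n
      · subst hi2
        by_cases hun : IsUnit (f1.coeff i)
        · exact ih f1 hd1 hf1z i hun
        · have hbu : IsUnit b' := by
            by_contra hbn
            have h5 : f.coeff i = f1.coeff i + -b' := by rw [hcn]; ring
            have h6 : f.coeff i ∈ nonunits R := by
              rw [h5]
              apply IsLocalRing.nonunits_add hun
              rw [mem_nonunits_iff, IsUnit.neg_iff]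
              exact hbn
            exact h6 hi
          right
          obtain ⟨u, rfl⟩ := hbu
          refine ⟨f.leadingCoeff * ((u⁻¹ : Rˣ) : R), ?_⟩
          have h7 : algebraMap R Ω (f.leadingCoeff * ((u⁻¹ : Rˣ) : R)) * y = 1 := by
            have : algebraMap R Ω (f.leadingCoeff * ((u⁻¹ : Rˣ) : R)) * y =
                algebraMap R Ω ((u⁻¹ : Rˣ) : R) * (f.leadingCoeff • y) := by
              rw [map_mul, Algebra.smul_def]; ring
            rw [this, ← hb', ← map_mul, Units.inv_mul, map_one]
          exact eq_inv_of_mul_eq_one_left h7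
      · refine ih f1 hd1 hf1z i ?_
        rw [hc i hin hi2]
        exact hi

end TP1

theorem val_of_root (R Ω : Type) [CommRing R] [IsLocalRing R] [Field Ω] [Algebra R Ω]
    (hint : ∀ z : Ω, IsIntegral R z → z ∈ Set.range (algebraMap R Ω)) (y : Ω)
    (f : Polynomial R) (hf : Polynomial.aeval y f = 0) (i : ℕ) (hi : IsUnit (f.coeff i)) :
    y ∈ Set.range (algebraMap R Ω) ∨ y⁻¹ ∈ Set.range (algebraMap R Ω) :=
  TP1.main R Ω hint y f.natDegree f le_rfl hf i hi

end Pool.Agent.H918R4
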