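import Pool.Agent.H918R4.Defs
import Pool.Agent.H918R4.TP1

/-! P5: the valuation ring above `X = 0` in the algebraic closure of `k(X)`. -/

set_option autoImplicit false

namespace Pool.Agent.H918R4

namespace TP5

open Polynomial

theorem main (A Ω k : Type) [CommRing A] [Field Ω] [Algebra A Ω] [Field k]
    (φ0 : integralClosure A Ω →+* k)
    (hroot : ∀ y : Ω, ∃ (f : Polynomial A) (i : ℕ), Polynomial.aeval y f = 0 ∧
      φ0 (algebraMap A _ (f.coeff i)) ≠ 0) :
    ∃ (O : ValuationSubring Ω) (φ : O →+* k),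
      (∀ z, z ∈ O ↔ ∃ b s : integralClosure A Ω, φ0 s ≠ 0 ∧ z * s = b) ∧
      (∀ b : integralClosure A Ω, ∃ h : (b : Ω) ∈ O, φ ⟨b, h⟩ = φ0 b) := by
  let P : Ideal (integralClosure A Ω) := RingHom.ker φ0
  haveI hP : P.IsPrime := RingHom.ker_isPrime φ0
  have hmemP : ∀ s : integralClosure A Ω, s ∈ P.primeCompl ↔ φ0 s ≠ 0 := by
    intro s
    show ¬ (s ∈ RingHom.ker φ0) ↔ _
    rw [RingHom.mem_ker]
  have hs0 : ∀ s : integralClosure A Ω, φ0 s ≠ 0 → (s : Ω) ≠ 0 := by
    intro s hs h
    apply hs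
    have : s = 0 := Subtype.ext h
    rw [this, map_zero]
  have hu : ∀ s : P.primeCompl, IsUnit (algebraMap (integralClosure A Ω) Ω s) := by
    intro s
    exact isUnit_iff_ne_zero.2 (hs0 s.1 ((hmemP s.1).1 s.2))
  let j : Localization.AtPrime P →+* Ω := IsLocalization.lift (M := P.primeCompl) hu
  letI : Algebra (Localization.AtPrime P) Ω := j.toAlgebra
  have hj : ∀ x : integralClosure A Ω, algebraMap (Localization.AtPrime P) Ω
      (algebraMap _ _ x) = x := fun x => IsLocalization.lift_eq hu x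
  haveI : IsScalarTower (integralClosure A Ω) (Localization.AtPrime P) Ω :=
    IsScalarTower.of_algebraMap_eq (fun x => (hj x).symm)
  have hrange : ∀ z : Ω, z ∈ Set.range (algebraMap (Localization.AtPrime P) Ω) ↔
      ∃ b s : integralClosure A Ω, φ0 s ≠ 0 ∧ z * s = b := by
    intro z
    constructor
    · rintro ⟨r, rfl⟩
      obtain ⟨b, s, rfl⟩ := IsLocalization.exists_mk'_eq P.primeCompl r
      refine ⟨b, s.1, (hmemP s.1).1 s.2, ?_⟩
      have h1 := congrArg (algebraMap (Localization.AtPrime P) Ω)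
        (IsLocalization.mk'_spec (Localization.AtPrime P) b s)
      rw [map_mul, hj, hj] at h1
      exact h1
    · rintro ⟨b, s, hs, h⟩
      refine ⟨IsLocalization.mk' _ b (⟨s, (hmemP s).2 hs⟩ : P.primeCompl), ?_⟩
      have h1 := congrArg (algebraMap (Localization.AtPrime P) Ω)
        (IsLocalization.mk'_spec (Localization.AtPrime P) b (⟨s, (hmemP s).2 hs⟩ : P.primeCompl))
      rw [map_mul, hj, hj] at h1
      exact mul_right_cancel₀ (hs0 s hs) (h1.trans h.symm)
  have hint : ∀ z : Ω, IsIntegral (Localization.AtPrime P) z →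
      z ∈ Set.range (algebraMap (Localization.AtPrime P) Ω) := by
    intro z hz
    obtain ⟨m, hm⟩ := hz.exists_multiple_integral_of_isLocalization P.primeCompl
    have hm2 : IsIntegral A (m • z) := isIntegral_trans _ hm
    rw [hrange]
    refine ⟨⟨m • z, hm2⟩, m.1, (hmemP m.1).1 m.2, ?_⟩
    show z * ((m.1 : integralClosure A Ω) : Ω) = m • z
    rw [mul_comm]
    rfl
  have hval : ∀ y : Ω, y ∈ j.range ∨ y⁻¹ ∈ j.range := by
    intro y
    obtain ⟨f, i, hf, hi⟩ := hroot y
    have h1 : Polynomial.aeval y (f.map ((algebraMap (integralClosure A Ω)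
        (Localization.AtPrime P)).comp (algebraMap A (integralClosure A Ω)))) = 0 := by
      rw [Polynomial.aeval_def, Polynomial.eval₂_map]
      rw [Polynomial.aeval_def] at hf
      have h2 : (algebraMap (Localization.AtPrime P) Ω).comp ((algebraMap (integralClosure A Ω)
        (Localization.AtPrime P)).comp (algebraMap A (integralClosure A Ω))) =
          algebraMap A Ω := by
        ext a
        exact hj _
      rw [h2]
      exact hf
    have h3 := val_of_root (Localization.AtPrime P) Ω hint y _ h1 i (by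
      rw [Polynomial.coeff_map]
      exact IsLocalization.map_units (Localization.AtPrime P)
        (⟨algebraMap A _ (f.coeff i), (hmemP _).2 hi⟩ : P.primeCompl))
    exact h3
  let O : ValuationSubring Ω := ValuationSubring.ofSubring j.range hval
  have hO : ∀ z, z ∈ O ↔ ∃ b s : integralClosure A Ω, φ0 s ≠ 0 ∧ z * s = b :=
    fun z => hrange z
  have hO' : ∀ z : O, ∃ b s : integralClosure A Ω, φ0 s ≠ 0 ∧ (z : Ω) * s = b :=
    fun z => (hO z).1 z.2
  choose bf sf h1 h2 using hO'
  have wd : ∀ (z : O) (b s : integralClosure A Ω), φ0 s ≠ 0 → (z : Ω) * s = b →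
      φ0 (bf z) / φ0 (sf z) = φ0 b / φ0 s := by
    intro z b s hs h
    rw [div_eq_div_iff (h1 z) hs, ← map_mul, ← map_mul]
    congr 1
    apply Subtype.ext
    show ((bf z : integralClosure A Ω) : Ω) * (s : Ω) = (b : Ω) * (sf z : Ω)
    rw [← h2 z, ← h]
    ring
  let φ : O →+* k :=
    { toFun := fun z => φ0 (bf z) / φ0 (sf z)
      map_one' := by
        rw [wd 1 1 1 (by rw [map_one]; exact one_ne_zero) (by simp), map_one, div_one]
      map_zero' := by
        rw [wd 0 0 1 (by rw [map_one]; exact one_ne_zero) (by simp), map_zero, zero_div]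
      map_mul' := by
        intro x y
        rw [wd (x * y) (bf x * bf y) (sf x * sf y)
          (by rw [map_mul]; exact mul_ne_zero (h1 x) (h1 y))
          (by
            show ((x : Ω) * (y : Ω)) * ((sf x : Ω) * (sf y : Ω)) = (bf x : Ω) * (bf y : Ω)
            rw [← h2 x, ← h2 y]
            ring), map_mul, map_mul, mul_div_mul_comm]
      map_add' := by
        intro x y
        rw [wd (x + y) (bf x * sf y + bf y * sf x) (sf x * sf y)
          (by rw [map_mul]; exact mul_ne_zero (h1 x) (h1 y))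
          (by
            show ((x : Ω) + (y : Ω)) * ((sf x : Ω) * (sf y : Ω)) =
              (bf x : Ω) * (sf y : Ω) + (bf y : Ω) * (sf x : Ω)
            rw [← h2 x, ← h2 y]
            ring), map_mul, map_add, map_mul, map_mul]
        have := h1 x
        have := h1 y
        field_simp }
  refine ⟨O, φ, hO, ?_⟩
  intro b
  have hb : (b : Ω) ∈ O := (hO _).2 ⟨b, 1, by rw [map_one]; exact one_ne_zero, by simp⟩
  refine ⟨hb, ?_⟩
  show φ0 (bf ⟨b, hb⟩) / φ0 (sf ⟨b, hb⟩) = φ0 b
  rw [wd ⟨b, hb⟩ b 1 (by rw [map_one]; exact one_ne_zero) (by simp), map_one, div_one]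

theorem root (k : Type) [Field k]
    (φ0 : integralClosure (Polynomial k) (AlgebraicClosure (RatFunc k)) →+* k)
    (h0 : ∀ f : Polynomial k, φ0 (algebraMap _ _ f) = f.eval 0)
    (y : AlgebraicClosure (RatFunc k)) :
    ∃ (f : Polynomial (Polynomial k)) (i : ℕ), Polynomial.aeval y f = 0 ∧
      φ0 (algebraMap (Polynomial k) _ (f.coeff i)) ≠ 0 := by
  have h1 : IsAlgebraic (RatFunc k) y := Algebra.IsAlgebraic.isAlgebraic y
  have h2 : IsAlgebraic (Polynomial k) y :=
    (IsFractionRing.isAlgebraic_iff (Polynomial k) (RatFunc k) (AlgebraicClosure (RatFunc k))).2 h1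
  obtain ⟨g, hg, hgy⟩ := h2
  have hX : Prime (Polynomial.C (Polynomial.X : Polynomial k) : Polynomial (Polynomial k)) :=
    Polynomial.prime_C_iff.2 Polynomial.prime_X
  obtain ⟨n, g', hg', rfl⟩ := WfDvdMonoid.max_power_factor hg hX.irreducible
  rw [Polynomial.C_dvd_iff_dvd_coeff] at hg'
  push Not at hg'
  obtain ⟨i, hi⟩ := hg'
  refine ⟨g', i, ?_, ?_⟩
  · rw [map_mul, map_pow, Polynomial.aeval_C] at hgy
    rcases mul_eq_zero.1 hgy with h | h
    · exfalso
      have h4 : algebraMap (Polynomial k) (AlgebraicClosure (RatFunc k)) Polynomial.X = 0 := by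
        by_contra hne
        exact pow_ne_zero n hne h
      rw [IsScalarTower.algebraMap_apply (Polynomial k) (RatFunc k)] at h4
      have h5 : algebraMap (Polynomial k) (RatFunc k) Polynomial.X = 0 :=
        (map_eq_zero _).1 h4
      rw [RatFunc.algebraMap_X] at h5
      exact RatFunc.X_ne_zero h5
    · exact h
  · rw [h0, ← Polynomial.coeff_zero_eq_eval_zero]
    rw [Polynomial.X_dvd_iff] at hi
    exact hi

end TP5

/-- P5 -/
theorem exists_O (k : Type) [Field k] [IsAlgClosed k] [CharZero k]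
    (φ0 : integralClosure (Polynomial k) (AlgebraicClosure (RatFunc k)) →+* k)
    (h0 : ∀ f : Polynomial k, φ0 (algebraMap _ _ f) = f.eval 0) :
    ∃ (O : ValuationSubring (AlgebraicClosure (RatFunc k))) (φ : O →+* k),
      (∀ z, z ∈ O ↔ ∃ b s : integralClosure (Polynomial k) (AlgebraicClosure (RatFunc k)),
        φ0 s ≠ 0 ∧ z * s = b) ∧
      (∀ b : integralClosure (Polynomial k) (AlgebraicClosure (RatFunc k)),
        ∃ h : (b : AlgebraicClosure (RatFunc k)) ∈ O, φ ⟨b, h⟩ = φ0 b) :=
  TP5.main (Polynomial k) (AlgebraicClosure (RatFunc k)) k φ0 (TP5.root k φ0 h0)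

end Pool.Agent.H918R4
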