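import Pool.Agent.H918R4.Defs
import Pool.Agent.H918R4.TP2
import Pool.Agent.H918R4.TP3
import Pool.Agent.H918R4.TP4
import Pool.Agent.H918R4.TP5

/-! Task P6: existence of the lift data (assembly). -/
set_option autoImplicit false
namespace Pool.Agent.H918R4

namespace TP6

open Polynomial

/-- the algebraic closure of `k(X)` -/
abbrev Om (k : Type) [Field k] : Type := AlgebraicClosure (RatFunc k)

/-- the integral closure of `k[X]` -/
noncomputable abbrev BB (k : Type) [Field k] : Subalgebra (Polynomial k) (AlgebraicClosure (RatFunc k)) :=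
  integralClosure (Polynomial k) (AlgebraicClosure (RatFunc k))

variable {k : Type} [Field k]

/-- the endomorphism `σ` on coefficients, `X ↦ c X` -/
noncomputable def th (σ : RingAut k) (c : k) : k[X] →+* k[X] :=
  Polynomial.eval₂RingHom (Polynomial.C.comp (σ : k →+* k)) (C c * X)

theorem th_eval (σ : RingAut k) (c : k) (f : k[X]) : (th σ c f).eval 0 = σ (f.eval 0) := by
  have : (Polynomial.evalRingHom (0 : k)).comp (th σ c) =
      (σ : k →+* k).comp (Polynomial.evalRingHom (0 : k)) := by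
    apply Polynomial.ringHom_ext
    · intro a
      simp [th]
    · simp [th]
  exact congrArg (fun g : k[X] →+* k => g f) this

theorem alg_C (x : k) : algebraMap k[X] (Om k) (C x) = algebraMap k (Om k) x := by
  rw [IsScalarTower.algebraMap_apply k[X] (RatFunc k) (Om k),
    IsScalarTower.algebraMap_apply k (RatFunc k) (Om k)]
  congr 1

theorem alg_X : algebraMap k[X] (Om k) X = algebraMap (RatFunc k) (Om k) RatFunc.X := by
  rw [IsScalarTower.algebraMap_apply k[X] (RatFunc k) (Om k), RatFunc.algebraMap_X]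

theorem tau_alg (σ : RingAut k) (c : k) (τ0 : RingAut (Om k))
    (h1 : ∀ x : k, τ0 (algebraMap k _ x) = algebraMap k _ (σ x))
    (h2 : τ0 (algebraMap (RatFunc k) _ RatFunc.X) =
        algebraMap k _ c * algebraMap (RatFunc k) _ RatFunc.X) (f : k[X]) :
    τ0 (algebraMap k[X] (Om k) f) = algebraMap k[X] (Om k) (th σ c f) := by
  have : (τ0 : Om k →+* Om k).comp (algebraMap k[X] (Om k)) =
      (algebraMap k[X] (Om k)).comp (th σ c) := by
    apply Polynomial.ringHom_ext
    · intro a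
      simp only [RingHom.comp_apply, RingHom.coe_coe, th, coe_eval₂RingHom, eval₂_C]
      rw [alg_C, h1, alg_C]
    · simp only [RingHom.comp_apply, RingHom.coe_coe, th, coe_eval₂RingHom, eval₂_X]
      rw [alg_X, h2, map_mul, alg_C, alg_X]
  exact congrArg (fun g : k[X] →+* Om k => g f) this

/-- the statement of P2 -/
def SP2 : Prop := ∀ (k : Type) [Field k] [CharZero k]
    (P Q : Ideal (integralClosure (Polynomial k) (AlgebraicClosure (RatFunc k))))
    (_hP : P.IsPrime) (_hQ : Q.IsPrime)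
    (_h : P.comap (algebraMap (Polynomial k) _) = Q.comap (algebraMap (Polynomial k) _)),
    ∃ γ : AlgebraicClosure (RatFunc k) ≃ₐ[RatFunc k] AlgebraicClosure (RatFunc k),
      ∀ b : integralClosure (Polynomial k) (AlgebraicClosure (RatFunc k)),
        ∃ h : γ b ∈ integralClosure (Polynomial k) (AlgebraicClosure (RatFunc k)),
          (b ∈ P ↔ (⟨γ b, h⟩ : integralClosure (Polynomial k) (AlgebraicClosure (RatFunc k))) ∈ Q)

/-- the statement of P3 -/
def SP3 : Prop := ∀ (k : Type) [Field k] [IsAlgClosed k],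
    ∃ φ0 : integralClosure (Polynomial k) (AlgebraicClosure (RatFunc k)) →+* k,
      ∀ f : Polynomial k, φ0 (algebraMap _ _ f) = f.eval 0

/-- the statement of P4 -/
def SP4 : Prop := ∀ (k : Type) [Field k] (σ : RingAut k) (c : k) (_hc : c ≠ 0),
    ∃ τ0 : RingAut (AlgebraicClosure (RatFunc k)),
      (∀ x : k, τ0 (algebraMap k _ x) = algebraMap k _ (σ x)) ∧
      τ0 (algebraMap (RatFunc k) _ RatFunc.X) =
        algebraMap k _ c * algebraMap (RatFunc k) _ RatFunc.X

/-- the statement of P5 -/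
def SP5 : Prop := ∀ (k : Type) [Field k] [IsAlgClosed k] [CharZero k]
    (φ0 : integralClosure (Polynomial k) (AlgebraicClosure (RatFunc k)) →+* k)
    (_h0 : ∀ f : Polynomial k, φ0 (algebraMap _ _ f) = f.eval 0),
    ∃ (O : ValuationSubring (AlgebraicClosure (RatFunc k))) (φ : O →+* k),
      (∀ z, z ∈ O ↔ ∃ b s : integralClosure (Polynomial k) (AlgebraicClosure (RatFunc k)),
        φ0 s ≠ 0 ∧ z * s = b) ∧
      (∀ b : integralClosure (Polynomial k) (AlgebraicClosure (RatFunc k)),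
        ∃ h : (b : AlgebraicClosure (RatFunc k)) ∈ O, φ ⟨b, h⟩ = φ0 b)

/-- the automorphism maps the integral closure to itself -/
theorem tau_int (σ : RingAut k) (c : k) (τ0 : RingAut (Om k))
    (h1 : ∀ x : k, τ0 (algebraMap k _ x) = algebraMap k _ (σ x))
    (h2 : τ0 (algebraMap (RatFunc k) _ RatFunc.X) =
        algebraMap k _ c * algebraMap (RatFunc k) _ RatFunc.X) {b : Om k}
    (hb : b ∈ BB k) : τ0 b ∈ BB k := by
  have hb' : IsIntegral k[X] b := hb
  have := IsIntegral.map_of_comp_eq (th σ c) (τ0 : Om k →+* Om k) (by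
    ext f
    · simp only [RingHom.comp_apply, RingHom.coe_coe]
      exact (tau_alg σ c τ0 h1 h2 _).symm
    · simp only [RingHom.comp_apply, RingHom.coe_coe]
      exact (tau_alg σ c τ0 h1 h2 _).symm) hb'
  exact this

/-- transport of algebraicity to the closure of `k ∪ {X}` -/
theorem isalg_closure (y : Om k) : IsAlgebraic (Subfield.closure (Set.range (algebraMap k (Om k)) ∪
    {algebraMap (RatFunc k) (Om k) RatFunc.X})) y := by
  set F := Subfield.closure (Set.range (algebraMap k (Om k)) ∪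
    {algebraMap (RatFunc k) (Om k) RatFunc.X}) with hF
  have hpol : ∀ f : k[X], algebraMap k[X] (Om k) f ∈ F := by
    intro f
    induction f using Polynomial.induction_on' with
    | add p q hp hq => rw [map_add]; exact F.add_mem hp hq
    | monomial n a =>
      rw [← C_mul_X_pow_eq_monomial, map_mul, map_pow, alg_C, alg_X]
      refine F.mul_mem ?_ (F.pow_mem ?_ n)
      · exact Subfield.subset_closure (Or.inl ⟨a, rfl⟩)
      · exact Subfield.subset_closure (Or.inr rfl)
  have hrat : ∀ x : RatFunc k, algebraMap (RatFunc k) (Om k) x ∈ F := by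
    intro x
    induction x using RatFunc.induction_on with
    | f p q hq =>
      rw [map_div₀, ← IsScalarTower.algebraMap_apply, ← IsScalarTower.algebraMap_apply]
      exact F.div_mem (hpol p) (hpol q)
  have hy : IsAlgebraic (RatFunc k) y := Algebra.IsAlgebraic.isAlgebraic y
  let f : RatFunc k →+* F := (algebraMap (RatFunc k) (Om k)).codRestrict F hrat
  exact IsAlgebraic.ringHom_of_comp_eq f (RingHom.id (Om k)) hy f.injective (by ext x; rfl)

theorem lift_of (p2 : SP2) (p3 : SP3) (p4 : SP4) (p5 : SP5)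
    (k : Type) [Field k] [IsAlgClosed k] [CharZero k] (σ : RingAut k) (c : k)
    (hc : c ≠ 0) : Nonempty (LiftData k σ c) := by
  obtain ⟨φ0, hφ0⟩ := p3 k
  obtain ⟨τ0, h1, h2⟩ := p4 k σ c hc
  have hτB : ∀ b ∈ BB k, τ0 b ∈ BB k := fun b hb => tau_int σ c τ0 h1 h2 hb
  let τB : BB k →+* BB k :=
    ((τ0 : Om k →+* Om k).comp (BB k).val.toRingHom).codRestrict (BB k).toSubring
      (fun b => hτB b b.2)
  have hτB' : ∀ b : BB k, ((τB b : BB k) : Om k) = τ0 b := fun b => rfl
  let φ1 : BB k →+* k := ((σ⁻¹ : RingAut k) : k →+* k).comp (φ0.comp τB)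
  have hφ1 : ∀ b, φ1 b = σ⁻¹ (φ0 (τB b)) := fun b => rfl
  have hφ1f : ∀ f : k[X], φ1 (algebraMap _ _ f) = f.eval 0 := by
    intro f
    have e1 : τB (algebraMap k[X] (BB k) f) = algebraMap k[X] (BB k) (th σ c f) := by
      apply Subtype.ext
      rw [hτB']
      exact tau_alg σ c τ0 h1 h2 f
    rw [hφ1, e1, hφ0, th_eval]
    exact σ.symm_apply_apply _
  obtain ⟨γ, hγ⟩ := p2 k (RingHom.ker φ1) (RingHom.ker φ0) (RingHom.ker_isPrime _)
    (RingHom.ker_isPrime _) (by
      ext f
      rw [Ideal.mem_comap, Ideal.mem_comap, RingHom.mem_ker, RingHom.mem_ker, hφ0, hφ1f])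
  have hγk : ∀ f : k[X], γ (algebraMap k[X] (Om k) f) = algebraMap k[X] (Om k) f := by
    intro f
    rw [IsScalarTower.algebraMap_apply k[X] (RatFunc k) (Om k), γ.commutes]
  -- the key identity
  have key : ∀ b : BB k, ∃ h : γ b ∈ BB k, φ0 ⟨γ b, h⟩ = φ1 b := by
    intro b
    obtain ⟨h, -⟩ := hγ b
    refine ⟨h, ?_⟩
    obtain ⟨h', h''⟩ := hγ (b - algebraMap k[X] (BB k) (C (φ1 b)))
    have e1 : φ1 (b - algebraMap k[X] (BB k) (C (φ1 b))) = 0 := by
      rw [map_sub, hφ1f, eval_C, sub_self]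
    have e2 := h''.1 (RingHom.mem_ker.2 e1)
    rw [RingHom.mem_ker] at e2
    have e3 : (⟨γ ((b - algebraMap k[X] (BB k) (C (φ1 b)) : BB k) : Om k), h'⟩ : BB k) =
        ⟨γ b, h⟩ - algebraMap k[X] (BB k) (C (φ1 b)) := by
      apply Subtype.ext
      change γ ((b : Om k) - algebraMap k[X] (Om k) (C (φ1 b))) =
        γ b - algebraMap k[X] (Om k) (C (φ1 b))
      rw [map_sub, hγk]
    rw [e3, map_sub, hφ0, eval_C, sub_eq_zero] at e2
    exact e2
  -- the final automorphism
  let τ : RingAut (Om k) := γ.symm.toRingEquiv.trans τ0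
  have hτ : ∀ z, τ z = τ0 (γ.symm z) := fun z => rfl
  have hγs : ∀ b ∈ BB k, γ.symm b ∈ BB k := by
    intro b hb
    have hb' : IsIntegral k[X] b := hb
    have e : (γ.symm.restrictScalars k[X]) b = γ.symm b := rfl
    have := hb'.map (γ.symm.restrictScalars k[X])
    exact this
  have hτint : ∀ b ∈ BB k, τ b ∈ BB k := fun b hb => hτB _ (hγs b hb)
  have hτφ : ∀ (b : BB k), φ0 ⟨τ b, hτint b b.2⟩ = σ (φ0 b) := by
    intro b
    obtain ⟨h, h'⟩ := key ⟨γ.symm b, hγs b b.2⟩
    have e1 : (⟨γ (γ.symm b), h⟩ : BB k) = b := Subtype.ext (γ.apply_symm_apply _)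
    rw [e1, hφ1] at h'
    have e2 : τB ⟨γ.symm b, hγs b b.2⟩ = ⟨τ b, hτint b b.2⟩ := Subtype.ext rfl
    rw [h', e2]
    exact (σ.apply_symm_apply _).symm
  obtain ⟨O, φ, hO, hφ⟩ := p5 k φ0 hφ0
  have hγk' : ∀ x : RatFunc k, γ.symm (algebraMap (RatFunc k) (Om k) x) =
      algebraMap (RatFunc k) (Om k) x := fun x => γ.symm.commutes x
  have memk : ∀ x : k, algebraMap k (Om k) x ∈ O := by
    intro x
    obtain ⟨h, -⟩ := hφ (algebraMap k[X] (BB k) (C x))
    rw [← alg_C]
    exact h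
  have memu : algebraMap (RatFunc k) (Om k) RatFunc.X ∈ O := by
    obtain ⟨h, -⟩ := hφ (algebraMap k[X] (BB k) X)
    rw [← alg_X]
    exact h
  have hτO : ∀ x ∈ O, τ x ∈ O := by
    intro x hx
    obtain ⟨b, s, hs, hxs⟩ := (hO x).1 hx
    refine (hO _).2 ⟨⟨τ b, hτint b b.2⟩, ⟨τ s, hτint s s.2⟩, ?_, ?_⟩
    · rw [hτφ]
      intro h
      exact hs ((map_eq_zero_iff σ σ.injective).1 h)
    · change τ x * τ s = τ b
      rw [← map_mul, hxs]
  refine ⟨{
    Ω := Om k
    u := algebraMap (RatFunc k) (Om k) RatFunc.X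
    trans := ?_
    τ := τ
    O := O
    φ := φ
    isalg := isalg_closure
    τ_map := ?_
    τ_u := ?_
    mem_O := memk
    φ_map := ?_
    u_mem := memu
    φ_u := ?_
    τ_O := hτO
    φ_τ := ?_ }⟩
  · have h3 : Transcendental k (RatFunc.X : RatFunc k) := RatFunc.transcendental_X
    exact (transcendental_algebraMap_iff (algebraMap (RatFunc k) (Om k)).injective).2 h3
  · intro x
    rw [hτ, IsScalarTower.algebraMap_apply k (RatFunc k) (Om k), hγk',
      ← IsScalarTower.algebraMap_apply k (RatFunc k) (Om k), h1]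
  · rw [hτ, hγk', h2]
  · intro x
    obtain ⟨h, h'⟩ := hφ (algebraMap k[X] (BB k) (C x))
    have e : (⟨algebraMap k (Om k) x, memk x⟩ : O) =
        ⟨((algebraMap k[X] (BB k) (C x) : BB k) : Om k), h⟩ := Subtype.ext (alg_C x).symm
    rw [e, h', hφ0, eval_C]
  · obtain ⟨h, h'⟩ := hφ (algebraMap k[X] (BB k) X)
    have e : (⟨algebraMap (RatFunc k) (Om k) RatFunc.X, memu⟩ : O) =
        ⟨((algebraMap k[X] (BB k) X : BB k) : Om k), h⟩ := Subtype.ext alg_X.symm
    rw [e, h', hφ0, eval_X]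
  · intro x hx
    obtain ⟨b, s, hs, hxs⟩ := (hO x).1 hx
    obtain ⟨hb, hb'⟩ := hφ b
    obtain ⟨hs1, hs2⟩ := hφ s
    obtain ⟨tb, tb'⟩ := hφ ⟨τ b, hτint b b.2⟩
    obtain ⟨ts, ts'⟩ := hφ ⟨τ s, hτint s s.2⟩
    have e1 : φ ⟨x, hx⟩ * φ0 s = φ0 b := by
      rw [← hs2, ← hb', ← map_mul]
      congr 1
      exact Subtype.ext hxs
    have e2 : φ ⟨τ x, hτO x hx⟩ * σ (φ0 s) = σ (φ0 b) := by
      rw [← hτφ, ← hτφ, ← ts', ← tb', ← map_mul]
      congr 1
      apply Subtype.ext
      change τ x * τ s = τ b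
      rw [← map_mul, hxs]
    have hs3 : σ (φ0 s) ≠ 0 := fun h => hs ((map_eq_zero_iff σ σ.injective).1 h)
    rw [← e1, map_mul] at e2
    exact mul_right_cancel₀ hs3 e2

end TP6

/-- P6 -/
theorem exists_lift (k : Type) [Field k] [IsAlgClosed k] [CharZero k] (σ : RingAut k) (c : k)
    (hc : c ≠ 0) : Nonempty (LiftData k σ c) :=
  TP6.lift_of (fun k _ _ P Q hP hQ h => exists_smul_prime k P Q hP hQ h)
    (fun k _ _ => exists_phi0 k) (fun k _ σ c hc => exists_ext k σ c hc)
    (fun k _ _ _ φ0 h0 => exists_O k φ0 h0) k σ c hc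

end Pool.Agent.H918R4
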