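import Pool.Agent.H918R4.Defs

/-! Task P7 (helper666). -/
set_option autoImplicit false
namespace Pool.Agent.H918R4
open Polynomial

/-- P7 -/
theorem vinf (K F : Type) [Field K] [Field F] (j : K →+* F) (ε : F)
    (hε : ∀ f : Polynomial K, f ≠ 0 → Polynomial.eval₂ j ε f ≠ 0) :
    ∃ V : ValuationSubring F, (∀ x, j x ∈ V) ∧ ∃ h : ε ∈ V, ¬ IsUnit (⟨ε, h⟩ : V) := by
  let P : Ideal K[X] := Ideal.span {X}
  have hP : P.IsPrime := (Ideal.span_singleton_prime X_ne_zero).2 Polynomial.prime_X
  let A := Localization.AtPrime P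
  let g : K[X] →+* F := Polynomial.eval₂RingHom j ε
  have hg : ∀ y : P.primeCompl, IsUnit (g y) := fun y =>
    (hε y (fun h => y.2 (by rw [h]; exact P.zero_mem))).isUnit
  let f : A →+* F := IsLocalization.lift hg
  have hf : ∀ p : K[X], f (algebraMap _ A p) = g p := fun p => IsLocalization.lift_eq hg p
  obtain ⟨V, h, hl⟩ := IsLocalRing.exists_factor_valuationRing f
  have hX : f (algebraMap K[X] A X) = ε := by rw [hf]; simp [g]
  have hεV : ε ∈ V := by rw [← hX]; exact h _
  refine ⟨V, fun x => ?_, hεV, ?_⟩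
  · have h1 := h (algebraMap K[X] A (C x))
    rw [hf] at h1
    simpa [g] using h1
  · intro hu
    have h2 : IsUnit (f.codRestrict V.toSubring h (algebraMap K[X] A X)) := by
      have h3 : f.codRestrict V.toSubring h (algebraMap K[X] A X) = ⟨ε, hεV⟩ := Subtype.ext hX
      rw [h3]
      exact hu
    have h4 : IsUnit (algebraMap K[X] A X) := hl.map_nonunit _ h2
    have h5 := (IsLocalization.AtPrime.isUnit_to_map_iff A P X).1 h4
    exact h5 (Ideal.mem_span_singleton_self _)

end Pool.Agent.H918R4
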