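import Pool.Agent.H918R4.Defs

/-! Task P8 (helper509): specialisation. -/

set_option autoImplicit false
namespace Pool.Agent.H918R4
open MvPolynomial

namespace TP8

theorem tau_pow_mem {k : Type} [Field k] {σ : RingAut k} {c : k} (L : LiftData k σ c) (m : ℕ)
    (x : L.Ω) (hx : x ∈ L.O) : ∃ h : (L.τ ^ m) x ∈ L.O,
      L.φ ⟨(L.τ ^ m) x, h⟩ = (σ ^ m) (L.φ ⟨x, hx⟩) := by
  induction m with
  | zero =>
    refine ⟨by rw [pow_zero]; exact hx, ?_⟩
    simp only [pow_zero]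
    rfl
  | succ m ih =>
    obtain ⟨h, he⟩ := ih
    have e : (L.τ ^ (m + 1)) x = L.τ ((L.τ ^ m) x) := by
      rw [pow_succ']
      rfl
    have h' : (L.τ ^ (m + 1)) x ∈ L.O := by
      rw [e]
      exact L.τ_O _ h
    refine ⟨h', ?_⟩
    have e2 : (⟨(L.τ ^ (m + 1)) x, h'⟩ : L.O) = ⟨L.τ ((L.τ ^ m) x), L.τ_O _ h⟩ := Subtype.ext e
    rw [e2, L.φ_τ _ h, he, pow_succ']
    rfl

end TP8

open TP8 in
/-- P8 -/
theorem spec (Ω : Type) [Field Ω] (τ : RingAut Ω) (c0 : Ω) (L : LiftData Ω τ c0) (p q r n : ℕ)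
    (c : Fin r → Fin n → Fin n → Kfix p q τ) (G : Fin r → Fin n → Fin n → Ω)
    (v : Fin n → Kfix p q L.τ) (hv : v ≠ 0)
    (h : ∀ i, ∑ a, ∑ b, (algebraMap Ω L.Ω (c i a b) + L.u * algebraMap Ω L.Ω (G i a b)) *
      (v a : L.Ω) * (v b : L.Ω) = 0) :
    ∃ w : Fin n → Kfix p q τ, w ≠ 0 ∧ QF c w = 0 := by
  obtain ⟨a0, ha0⟩ : ∃ a, v a ≠ 0 := by
    by_contra hcon
    push Not at hcon
    exact hv (funext hcon)
  have : Nonempty (Fin n) := ⟨a0⟩
  obtain ⟨i0, hi0⟩ := Finite.exists_max (fun i => L.O.valuation (v i : L.Ω))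
  have hvi0 : (v i0 : L.Ω) ≠ 0 := by
    intro h0
    have h1 := hi0 a0
    have h2 : (v a0 : L.Ω) ≠ 0 := fun h => ha0 (Subtype.ext h)
    rw [h0, map_zero] at h1
    exact h2 ((map_eq_zero _).1 (le_antisymm h1 zero_le))
  have hmem : ∀ a, ((v a / v i0 : Kfix p q L.τ) : L.Ω) ∈ L.O := by
    intro a
    rw [← L.O.valuation_le_one_iff, Subfield.coe_div, map_div₀]
    exact div_le_one_of_le₀ (hi0 a) zero_le
  have hfix : ∀ a, L.φ ⟨_, hmem a⟩ ∈ Kfix p q τ := by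
    intro a
    obtain ⟨m, hm, hc, he⟩ := mem_Kfix.1 (v a / v i0 : Kfix p q L.τ).2
    refine mem_Kfix.2 ⟨m, hm, hc, ?_⟩
    obtain ⟨h1, h2⟩ := tau_pow_mem L m _ (hmem a)
    rw [← h2]
    congr 1
    exact Subtype.ext he
  refine ⟨fun a => ⟨L.φ ⟨_, hmem a⟩, hfix a⟩, ?_, ?_⟩
  · intro h0
    have h1 := congrArg Subtype.val (congrFun h0 i0)
    have h2 : (⟨_, hmem i0⟩ : L.O) = 1 := by
      apply Subtype.ext
      show ((v i0 / v i0 : Kfix p q L.τ) : L.Ω) = 1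
      rw [Subfield.coe_div, div_self hvi0]
    have h3 : L.φ ⟨_, hmem i0⟩ = 0 := h1
    rw [h2, map_one] at h3
    exact one_ne_zero h3
  · funext i
    apply Subtype.ext
    have e1 : ∑ a, ∑ b, ((⟨algebraMap Ω L.Ω (c i a b), L.mem_O _⟩ : L.O) + (⟨L.u, L.u_mem⟩ : L.O) *
        ⟨algebraMap Ω L.Ω (G i a b), L.mem_O _⟩) * (⟨_, hmem a⟩ : L.O) * (⟨_, hmem b⟩ : L.O) = 0 := by
      apply Subtype.ext
      have e2 : ((v i0 : L.Ω) ^ 2)⁻¹ * ∑ a, ∑ b, (algebraMap Ω L.Ω (c i a b) +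
          L.u * algebraMap Ω L.Ω (G i a b)) * (v a : L.Ω) * (v b : L.Ω) = 0 := by
        rw [h i, mul_zero]
      show L.O.subtype _ = 0
      refine Eq.trans ?_ e2
      rw [Finset.mul_sum, map_sum]
      refine Finset.sum_congr rfl fun a _ => ?_
      rw [Finset.mul_sum, map_sum]
      refine Finset.sum_congr rfl fun b _ => ?_
      show (algebraMap Ω L.Ω (c i a b) + L.u * algebraMap Ω L.Ω (G i a b)) *
        ((v a / v i0 : Kfix p q L.τ) : L.Ω) * ((v b / v i0 : Kfix p q L.τ) : L.Ω) = _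
      rw [Subfield.coe_div, Subfield.coe_div]
      field_simp
    have e3 := congrArg L.φ e1
    rw [map_zero, map_sum] at e3
    show (Kfix p q τ).subtype (QF c _ i) = 0
    unfold QF
    rw [map_sum, ← e3]
    refine Finset.sum_congr rfl fun a _ => ?_
    rw [map_sum, map_sum]
    refine Finset.sum_congr rfl fun b _ => ?_
    rw [map_mul, map_mul, map_mul, map_mul, map_add, map_mul, L.φ_map, L.φ_u, zero_mul, add_zero]
    rfl

end Pool.Agent.H918R4
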