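import Pool.Agent.H918R4.TC14
import Pool.Agent.H918R4.TG8fin
import Pool.Agent.H918R4.TG3
import Pool.Agent.H918R4.TP6
import Pool.Agent.H918R4.TP7
import Pool.Agent.H918R4.TP8
import Pool.Agent.H918R4.TF1
import Pool.Agent.H918R4.TF2

/-! Assembly: upper bound over `Kfix`, existence of the field. -/
set_option autoImplicit false
namespace Pool.Agent.H918R4
open MvPolynomial

theorem qpol_isHomogeneous {A : Type} [CommRing A] {n : ℕ} (c : Fin n → Fin n → A) :
    (qpol c).IsHomogeneous 2 := by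
  unfold qpol
  refine IsHomogeneous.sum _ _ _ fun a _ => IsHomogeneous.sum _ _ _ fun b _ => ?_
  have := ((isHomogeneous_C (Fin n) (c a b)).mul (isHomogeneous_X A a)).mul (isHomogeneous_X A b)
  simpa using this

theorem g_isHomogeneous (A : Type) [CommRing A] (r : ℕ) (j : Fin r) : (g A r j).IsHomogeneous 2 := by
  unfold g
  refine IsHomogeneous.sub ?_ ?_
  · simpa using (isHomogeneous_X A j.castSucc.castSucc).pow 2
  · simpa using (isHomogeneous_X A j.succ.castSucc).mul (isHomogeneous_X A (Fin.last (r + 1)))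

theorem g_map {A B : Type} [CommRing A] [CommRing B] (φ : A →+* B) (r : ℕ) (j : Fin r) :
    MvPolynomial.map φ (g A r j) = g B r j := by
  simp [g]

theorem qpol_map {A B : Type} [CommRing A] [CommRing B] (φ : A →+* B) {n : ℕ}
    (c : Fin n → Fin n → A) :
    MvPolynomial.map φ (qpol c) = qpol (fun a b => φ (c a b)) := by
  simp [qpol, map_sum]

theorem qpol_eval {A : Type} [CommRing A] {n : ℕ} (c : Fin n → Fin n → A) (v : Fin n → A) :
    eval v (qpol c) = ∑ a, ∑ b, c a b * v a * v b := by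
  simp [qpol, map_sum]

/-- coefficients of `g_j` -/
def Gc (A : Type) [CommRing A] (r : ℕ) (j : Fin r) (a b : Fin (r + 2)) : A :=
  (if a = j.castSucc.castSucc ∧ b = j.castSucc.castSucc then 1 else 0) -
    (if a = j.succ.castSucc ∧ b = Fin.last (r + 1) then 1 else 0)

theorem g_eval (A : Type) [CommRing A] (r : ℕ) (j : Fin r) (v : Fin (r + 2) → A) :
    eval v (g A r j) = ∑ a, ∑ b, Gc A r j a b * v a * v b := by
  simp only [g, map_sub, map_pow, eval_X, map_mul, Gc, sub_mul, Finset.sum_sub_distrib]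
  congr 1
  · rw [Finset.sum_eq_single j.castSucc.castSucc]
    · rw [Finset.sum_eq_single j.castSucc.castSucc]
      · simp [pow_two]
      · intro b _ hb; simp [hb]
      · simp
    · intro a _ ha
      refine Finset.sum_eq_zero fun b _ => by simp [ha]
    · simp
  · rw [Finset.sum_eq_single j.succ.castSucc]
    · rw [Finset.sum_eq_single (Fin.last (r + 1))]
      · simp
      · intro b _ hb; rw [if_neg (fun h => hb h.2)]; simp
      · simp
    · intro a _ ha
      refine Finset.sum_eq_zero fun b _ => ?_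
      rw [if_neg (fun h => ha h.1)]; simp
    · simp

theorem Kfix_map (Ω : Type) [Field Ω] (τ : RingAut Ω) (c0 : Ω) (L : LiftData Ω τ c0) (p q : ℕ)
    (x : Ω) (hx : x ∈ Kfix p q τ) : algebraMap Ω L.Ω x ∈ Kfix p q L.τ := by
  obtain ⟨n, hn, hc, h⟩ := hx
  refine ⟨n, hn, hc, ?_⟩
  have key : ∀ (m : ℕ) (z : Ω), (L.τ ^ m) (algebraMap Ω L.Ω z) = algebraMap Ω L.Ω ((τ ^ m) z) := by
    intro m
    induction m with
    | zero => intro z; rfl
    | succ m ih =>
      intro z
      rw [pow_succ, pow_succ]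
      change (L.τ ^ m) (L.τ (algebraMap Ω L.Ω z)) = algebraMap Ω L.Ω ((τ ^ m) (τ z))
      rw [L.τ_map, ih]
  rw [key, h]

/-- upper bound -/
theorem upper (Ω : Type) [Field Ω] [IsAlgClosed Ω] [CharZero Ω] (τ : RingAut Ω) (hτ : LocFin τ)
    (p q : ℕ) (hp : p.Prime) (hq : q.Prime)
    (hpq : p ≠ q) (hp2 : p ≠ 2) (hq2 : q ≠ 2) (r : ℕ)
    (hr : r * 2 ^ (r - 1) + 1 ≤ (p * q - p - q) + 2 ^ r)
    (c : Fin r → Fin (r + 2) → Fin (r + 2) → Kfix p q τ) :
    ∃ w : Fin (r + 2) → Kfix p q τ, w ≠ 0 ∧ QF c w = 0 := by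
  obtain ⟨L⟩ := exists_lift Ω τ 1 one_ne_zero
  have : CharZero L.Ω := charZero_of_injective_algebraMap (algebraMap Ω L.Ω).injective
  have : CharZero (Kfix p q L.τ) :=
    charZero_of_injective_algebraMap (R := ℚ) (algebraMap ℚ (Kfix p q L.τ)).injective
  have hL : LocFin L.τ := by
    refine locFin_of L.Ω L.τ _ ?_ L.isalg
    rintro x (⟨y, rfl⟩ | hx)
    · obtain ⟨n, hn, h⟩ := hτ y
      refine ⟨n, hn, ?_⟩
      have key : ∀ (m : ℕ) (z : Ω), (L.τ ^ m) (algebraMap Ω L.Ω z) = algebraMap Ω L.Ω ((τ ^ m) z) := by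
        intro m
        induction m with
        | zero => intro z; rfl
        | succ m ih =>
          intro z
          rw [pow_succ, pow_succ]
          change (L.τ ^ m) (L.τ (algebraMap Ω L.Ω z)) = algebraMap Ω L.Ω ((τ ^ m) (τ z))
          rw [L.τ_map, ih]
      rw [key, h]
    · rw [Set.mem_singleton_iff] at hx
      subst hx
      refine ⟨1, one_pos, ?_⟩
      rw [pow_one, L.τ_u, map_one, one_mul]
  set F := Kfix p q L.τ with hF
  have hPQ : PQ p q F := pq_Kfix L.Ω p q hp hq L.τ hL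
  have huF : L.u ∈ Kfix p q L.τ :=
    ⟨1, one_pos, Nat.coprime_one_left _, by rw [pow_one, L.τ_u, map_one, one_mul]⟩
  have hu0 : L.u ≠ 0 := by
    intro h
    exact L.trans (h ▸ isAlgebraic_zero)
  set j : Kfix p q τ →+* F :=
    ((algebraMap Ω L.Ω).comp (Kfix p q τ).subtype).codRestrict F
      (fun x => Kfix_map Ω τ 1 L p q x x.2) with hj
  have hjv : ∀ x : Kfix p q τ, ((j x : F) : L.Ω) = algebraMap Ω L.Ω (x : Ω) := fun x => rfl
  set ε : F := ⟨L.u, huF⟩⁻¹ with hε
  have hεv : ((ε : F) : L.Ω) = L.u⁻¹ := rfl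
  obtain ⟨V, hV, hεV, hεu⟩ := vinf (Kfix p q τ) F j ε (by
    intro f hf h0
    have h1 : Polynomial.aeval (L.u⁻¹) (f.map (Kfix p q τ).subtype) = 0 := by
      have h2 := congrArg (F.subtype) h0
      rw [Polynomial.hom_eval₂, map_zero] at h2
      rw [Polynomial.aeval_def, Polynomial.eval₂_map]
      exact h2
    have h3 : IsAlgebraic Ω (L.u⁻¹) :=
      ⟨f.map (Kfix p q τ).subtype, (Polynomial.map_ne_zero_iff (Kfix p q τ).subtype.injective).2 hf, h1⟩
    exact L.trans (inv_inv L.u ▸ h3.inv))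
  -- the deformed system over `V`
  set f : Fin r → MvPolynomial (Fin (r + 2)) V := fun i =>
    g V r i + C (⟨ε, hεV⟩ : V) * qpol (fun a b => (⟨j (c i a b), hV _⟩ : V)) with hf
  have hhom : ∀ i, (f i).IsHomogeneous 2 := by
    intro i
    refine (g_isHomogeneous V r i).add ?_
    simpa using (isHomogeneous_C (Fin (r + 2)) (⟨ε, hεV⟩ : V)).mul
      (qpol_isHomogeneous (fun a b => (⟨j (c i a b), hV _⟩ : V)))
  have hred : ∀ i, MvPolynomial.map (IsLocalRing.residue V) (f i) = g _ r i := by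
    intro i
    have h0 : IsLocalRing.residue V (⟨ε, hεV⟩ : V) = 0 := by
      rw [IsLocalRing.residue_eq_zero_iff]
      exact (IsLocalRing.mem_maximalIdeal _).2 hεu
    rw [hf]
    simp only [map_add, map_mul, map_C, h0, map_zero, zero_mul, add_zero, g_map]
  obtain ⟨hH, hD⟩ := flat F V r f hhom hred
  obtain ⟨v, hv0, hv⟩ := theoremC F p q hp hq hpq hp2 hq2 hPQ r hr
    (fun i => MvPolynomial.map (algebraMap V F) (f i)) (fun i => (hhom i).map _)
    (fun t ht => by rw [hH t]; exact ncard_Bset r t ht) hD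
  refine spec Ω τ 1 L p q r (r + 2) c (Gc Ω r) v hv0 ?_
  intro i
  have h1 := hv i
  have h2 : MvPolynomial.map (algebraMap V F) (f i) =
      g F r i + C ε * qpol (fun a b => j (c i a b)) := by
    rw [hf]
    simp only [map_add, map_mul, map_C, g_map, qpol_map]
    rfl
  rw [h2, map_add, map_mul, eval_C, qpol_eval, g_eval] at h1
  have h3 := congrArg (fun z : F => (z : L.Ω)) h1
  simp only [Subfield.coe_add, Subfield.coe_mul, Subfield.coe_zero, hεv] at h3
  have h4 : ∀ (a b : Fin (r + 2)), ((Gc F r i a b : F) : L.Ω) = algebraMap Ω L.Ω (Gc Ω r i a b) := by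
    intro a b
    unfold Gc
    rw [Subfield.coe_sub, map_sub]
    congr 1 <;> split_ifs <;> simp
  have h5 : ∀ (w : Fin (r + 2) → Fin (r + 2) → F), (((∑ a, ∑ b, w a b : F) : L.Ω)) =
      ∑ a, ∑ b, ((w a b : F) : L.Ω) := by
    intro w
    have h8 : F.subtype (∑ a, ∑ b, w a b) = ∑ a, ∑ b, F.subtype (w a b) := by
      rw [map_sum]
      exact Finset.sum_congr rfl fun a _ => map_sum _ _ _
    exact h8
  rw [h5, h5] at h3
  simp only [Subfield.coe_mul, h4, hjv] at h3
  have h6 : L.u * (∑ a, ∑ b, algebraMap Ω L.Ω (Gc Ω r i a b) * (v a : L.Ω) * (v b : L.Ω)) +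
      (∑ a, ∑ b, algebraMap Ω L.Ω (c i a b) * (v a : L.Ω) * (v b : L.Ω)) = 0 := by
    have h7 := congrArg (fun z => L.u * z) h3
    simp only [mul_add, mul_zero] at h7
    rw [← mul_assoc L.u L.u⁻¹, mul_inv_cancel₀ hu0, one_mul] at h7
    simpa [mul_add] using h7
  calc (∑ a, ∑ b, (algebraMap Ω L.Ω (c i a b) + L.u * algebraMap Ω L.Ω (Gc Ω r i a b)) *
      (v a : L.Ω) * (v b : L.Ω))
      = L.u * (∑ a, ∑ b, algebraMap Ω L.Ω (Gc Ω r i a b) * (v a : L.Ω) * (v b : L.Ω)) +
      (∑ a, ∑ b, algebraMap Ω L.Ω (c i a b) * (v a : L.Ω) * (v b : L.Ω)) := by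
        rw [Finset.mul_sum, ← Finset.sum_add_distrib]
        refine Finset.sum_congr rfl fun a _ => ?_
        rw [Finset.mul_sum, ← Finset.sum_add_distrib]
        refine Finset.sum_congr rfl fun b _ => ?_
        ring
    _ = 0 := h6

end Pool.Agent.H918R4
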