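import Pool.Agent.H918R4.Defs

/-! Task E1: `no_root`. -/
set_option autoImplicit false
namespace Pool.Agent.H918R4.TE1

variable {Γ : Type*} [LinearOrderedCommGroupWithZero Γ]

theorem eq_one_of_pow {x : Γ} {n : ℕ} (hn : n ≠ 0) (h : x ^ n = 1) : x = 1 :=
  (_root_.pow_eq_one_iff.1 h).resolve_right hn

theorem case3 {V X : Γ} {p q : ℕ} (hX0 : X ≠ 0) (hX1 : X < 1) (hpq : 3 * p < 2 * q)
    (h1 : V ^ (3 * p + q) = X ^ 3) (h2 : V ^ (3 * p) ≤ X ^ 2) : False := by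
  have h3 : (V ^ (3 * p)) ^ (3 * p + q) ≤ (X ^ 2) ^ (3 * p + q) := pow_le_pow_left' h2 _
  have h4 : (V ^ (3 * p)) ^ (3 * p + q) = (X ^ 3) ^ (3 * p) := by
    rw [← h1, ← pow_mul, ← pow_mul, mul_comm]
  rw [h4, ← pow_mul, ← pow_mul] at h3
  have hX : 0 < X := zero_lt_iff.2 hX0
  have h5 : X ^ (2 * (3 * p + q)) < X ^ (3 * (3 * p)) :=
    pow_lt_pow_right_of_lt_one₀ hX hX1 (by omega)
  exact absurd h3 (not_le.2 h5)

theorem three_cases {A B D : Γ} (ha : A ≤ max B D) (hb : B ≤ max A D) (hd : D ≤ max A B) :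
    A = B ∨ B = D ∨ (A = D ∧ B ≤ A) := by
  rcases le_total A B with h1 | h1 <;> rcases le_total B D with h2 | h2 <;>
    rcases le_total A D with h3 | h3 <;>
    simp only [max_eq_left, max_eq_right, h1, h2, h3] at ha hb hd
  all_goals first
    | exact Or.inl (le_antisymm (by assumption) (by assumption))
    | exact Or.inr (Or.inl (le_antisymm (by assumption) (by assumption)))
    | exact Or.inr (Or.inr ⟨le_antisymm (by assumption) (by assumption), by assumption⟩)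

end Pool.Agent.H918R4.TE1

namespace Pool.Agent.H918R4

variable {c : ℂ}

namespace TE1

theorem tau_pow_mem (L : LiftData ℂ 1 c) (n : ℕ) (x : L.Ω) (hx : x ∈ L.O) : (L.τ ^ n) x ∈ L.O := by
  induction n with
  | zero => simpa using hx
  | succ n ih => rw [pow_succ']; exact L.τ_O _ ih

theorem phi_tau_pow (L : LiftData ℂ 1 c) (n : ℕ) (x : L.Ω) (hx : x ∈ L.O) :
    L.φ ⟨(L.τ ^ n) x, tau_pow_mem L n x hx⟩ = L.φ ⟨x, hx⟩ := by
  induction n with
  | zero => simp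
  | succ n ih =>
    rw [← ih]
    have := L.φ_τ _ (tau_pow_mem L n x hx)
    rw [RingAut.one_apply] at this
    rw [← this]
    congr 1
    exact Subtype.ext (by change (L.τ ^ (n + 1)) x = _; rw [pow_succ']; rfl)

theorem tau_pow_u (L : LiftData ℂ 1 c) (n : ℕ) :
    (L.τ ^ n) L.u = algebraMap ℂ L.Ω (c ^ n) * L.u := by
  induction n with
  | zero => simp
  | succ n ih =>
    rw [pow_succ', RingAut.mul_apply, ih, map_mul, L.τ_map, L.τ_u, RingAut.one_apply, pow_succ,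
      map_mul]
    ring

theorem unit_lemma (L : LiftData ℂ 1 c) (η : L.Ω) (hη : L.O.valuation η = 1) (n : ℕ) (d : ℂ)
    (h : (L.τ ^ n) η * algebraMap ℂ L.Ω d = η) : d = 1 := by
  have h0 : η ≠ 0 := by rintro rfl; simp at hη
  have h1 : η ∈ L.O := (L.O.valuation_le_one_iff η).1 hη.le
  have h2 : η⁻¹ ∈ L.O := (L.O.valuation_le_one_iff _).1 (by rw [map_inv₀, hη, inv_one])
  have h3 : L.φ ⟨η, h1⟩ * L.φ ⟨η⁻¹, h2⟩ = 1 := by
    rw [← map_mul, ← map_one L.φ]
    congr 1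
    exact Subtype.ext (mul_inv_cancel₀ h0)
  have h4 : L.φ ⟨η, h1⟩ ≠ 0 := left_ne_zero_of_mul_eq_one h3
  have h5 : L.φ ⟨η, h1⟩ * d = L.φ ⟨η, h1⟩ := by
    conv_lhs => rw [← phi_tau_pow L n η h1, ← L.φ_map d]
    rw [← map_mul]
    congr 1
    exact Subtype.ext h
  exact mul_left_cancel₀ h4 (by rw [h5, mul_one])

theorem u_ne (L : LiftData ℂ 1 c) : L.u ≠ 0 := fun h =>
  L.trans (h ▸ isAlgebraic_zero)

theorem v_u_lt (L : LiftData ℂ 1 c) : L.O.valuation L.u < 1 := by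
  refine lt_of_le_of_ne ((L.O.valuation_le_one_iff _).2 L.u_mem) fun h => ?_
  have h2 : L.u⁻¹ ∈ L.O := (L.O.valuation_le_one_iff _).1 (by rw [map_inv₀, h, inv_one])
  have h3 : L.φ ⟨L.u, L.u_mem⟩ * L.φ ⟨L.u⁻¹, h2⟩ = 1 := by
    rw [← map_mul, ← map_one L.φ]
    congr 1
    exact Subtype.ext (mul_inv_cancel₀ (u_ne L))
  rw [L.φ_u, zero_mul] at h3
  exact zero_ne_one h3

theorem gen (p q : ℕ) (hp : 1 < p) (hq : 1 < q) (hp2 : Nat.Coprime p 2) (hpq : 3 * p < 2 * q)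
    (hc : IsPrimitiveRoot c (p * q)) (L : LiftData ℂ 1 c) :
    ∃ x : Kfix p q L.τ, ∀ y : Kfix p q L.τ,
      y ^ (3 * p + q) + x * y ^ (3 * p) + x ^ 3 ≠ 0 := by
  have hx : L.u ^ (p * q) ∈ Kfix p q L.τ := by
    refine ⟨1, one_pos, Nat.coprime_one_left _, ?_⟩
    rw [map_pow, tau_pow_u, mul_pow, ← map_pow, pow_one, hc.pow_eq_one, map_one, one_mul]
  refine ⟨⟨_, hx⟩, ?_⟩
  rintro ⟨y, n, hn, hcop, hy⟩ h
  have h' : y ^ (3 * p + q) + L.u ^ (p * q) * y ^ (3 * p) + (L.u ^ (p * q)) ^ 3 = 0 := by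
    have := congrArg (Subtype.val) h
    simpa using this
  have hu := u_ne L
  have hx0 : L.u ^ (p * q) ≠ 0 := pow_ne_zero _ hu
  have hy0 : y ≠ 0 := by
    rintro rfl
    rw [zero_pow (by omega), zero_pow (by omega), mul_zero, zero_add, zero_add] at h'
    exact pow_ne_zero 3 hx0 h'
  set v := L.O.valuation with hv
  set V := v y with hV
  set U := v L.u with hU
  have hV0 : V ≠ 0 := (Valuation.ne_zero_iff _).2 hy0
  have hU0 : U ≠ 0 := (Valuation.ne_zero_iff _).2 hu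
  have hU1 : U < 1 := v_u_lt L
  have hX0 : U ^ (p * q) ≠ 0 := pow_ne_zero _ hU0
  have hX1 : U ^ (p * q) < 1 := pow_lt_one₀ zero_le hU1 (by positivity)
  have hA : v (y ^ (3 * p + q)) = V ^ (3 * p + q) := map_pow _ _ _
  have hB : v (L.u ^ (p * q) * y ^ (3 * p)) = U ^ (p * q) * V ^ (3 * p) := by
    rw [map_mul, map_pow, map_pow]
  have hD : v ((L.u ^ (p * q)) ^ 3) = (U ^ (p * q)) ^ 3 := by
    rw [map_pow, map_pow]
  have e1 : V ^ (3 * p + q) ≤ max (U ^ (p * q) * V ^ (3 * p)) ((U ^ (p * q)) ^ 3) := by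
    rw [← hA, ← hB, ← hD]
    have : y ^ (3 * p + q) = -(L.u ^ (p * q) * y ^ (3 * p) + (L.u ^ (p * q)) ^ 3) := by
      linear_combination h'
    rw [this, Valuation.map_neg]
    exact v.map_add _ _
  have e2 : U ^ (p * q) * V ^ (3 * p) ≤ max (V ^ (3 * p + q)) ((U ^ (p * q)) ^ 3) := by
    rw [← hA, ← hB, ← hD]
    have : L.u ^ (p * q) * y ^ (3 * p) = -(y ^ (3 * p + q) + (L.u ^ (p * q)) ^ 3) := by
      linear_combination h'
    rw [this, Valuation.map_neg]
    exact v.map_add _ _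
  have e3 : (U ^ (p * q)) ^ 3 ≤ max (V ^ (3 * p + q)) (U ^ (p * q) * V ^ (3 * p)) := by
    rw [← hA, ← hB, ← hD]
    have : (L.u ^ (p * q)) ^ 3 = -(y ^ (3 * p + q) + L.u ^ (p * q) * y ^ (3 * p)) := by
      linear_combination h'
    rw [this, Valuation.map_neg]
    exact v.map_add _ _
  rcases three_cases e1 e2 e3 with h1 | h1 | ⟨h1, h2⟩
  · -- V ^ q = X
    have h2 : V ^ q = U ^ (p * q) := by
      rw [pow_add, mul_comm] at h1
      exact mul_right_cancel₀ (pow_ne_zero _ hV0) h1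
    have h3 : v (y / L.u ^ p) = 1 := by
      refine eq_one_of_pow (n := q) (by omega) ?_
      rw [map_div₀, map_pow, div_pow, ← hV, ← hU, h2, ← pow_mul, div_self hX0]
    have h4 := unit_lemma L _ h3 n (c ^ (n * p)) (by
      have : algebraMap ℂ L.Ω c ≠ 0 := by
        rw [Ne, map_eq_zero]; exact hc.ne_zero (by positivity)
      rw [map_div₀, map_pow, hy, tau_pow_u, mul_pow, map_pow, map_pow, ← pow_mul]
      field_simp)
    have h5 : p * q ∣ n * p := hc.dvd_of_pow_eq_one _ h4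
    have h6 : q ∣ n := by
      rw [mul_comm n p] at h5
      exact Nat.dvd_of_mul_dvd_mul_left (by omega) h5
    have h7 : q ∣ 1 := by
      rw [← hcop]
      exact Nat.dvd_gcd h6 (Dvd.intro_left p rfl)
    rw [Nat.dvd_one] at h7
    omega
  · have h2 : V ^ (3 * p) = (U ^ (p * q)) ^ 2 := by
      rw [pow_succ' _ 2] at h1
      exact mul_left_cancel₀ hX0 h1
    have h3 : v (y ^ 3 / L.u ^ (2 * q)) = 1 := by
      refine eq_one_of_pow (n := p) (by omega) ?_
      rw [map_div₀, map_pow, map_pow, div_pow, ← hV, ← hU, ← pow_mul, ← pow_mul, h2, ← pow_mul,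
        show p * q * 2 = 2 * q * p by ring, div_self (pow_ne_zero _ hU0)]
    have h4 := unit_lemma L _ h3 n (c ^ (n * (2 * q))) (by
      have : algebraMap ℂ L.Ω c ≠ 0 := by
        rw [Ne, map_eq_zero]; exact hc.ne_zero (by positivity)
      rw [map_div₀, map_pow, map_pow, hy, tau_pow_u, mul_pow, map_pow, map_pow, ← pow_mul]
      generalize 2 * q = t
      field_simp)
    have h5 : p * q ∣ n * (2 * q) := hc.dvd_of_pow_eq_one _ h4
    have h6 : p ∣ n * 2 := by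
      rw [← mul_assoc] at h5
      exact Nat.dvd_of_mul_dvd_mul_right (by omega) h5
    have h6' : p ∣ n := hp2.dvd_of_dvd_mul_right h6
    have h7 : p ∣ 1 := by
      rw [← hcop]
      exact Nat.dvd_gcd h6' (Dvd.intro q rfl)
    rw [Nat.dvd_one] at h7
    omega
  · refine case3 hX0 hX1 hpq h1 ?_
    rw [h1, pow_succ' _ 2] at h2
    exact le_of_mul_le_mul_left h2 (zero_lt_iff.2 hX0)

end TE1

/-- E1 -/
theorem no_root (c : ℂ) (hc : IsPrimitiveRoot c (2731 * 8191)) (L : LiftData ℂ 1 c) :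
    ∃ x : Kfix 2731 8191 L.τ, ∀ y : Kfix 2731 8191 L.τ,
      y ^ 16384 + x * y ^ 8193 + x ^ 3 ≠ 0 := by
  have h := TE1.gen 2731 8191 (by norm_num) (by norm_num) (by norm_num) (by norm_num) hc L
  exact h

end Pool.Agent.H918R4
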