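import Mathlib
import Pool.Agent.H918R4.Defs

/-! Task L1a: power series descent. -/

set_option autoImplicit false

namespace Pool.Agent.H918R4

open MvPolynomial

namespace TL1a

open PowerSeries in
theorem QF_X_mul {K : Type} [Field K] {m n : ℕ} (c : Fin m → Fin n → Fin n → PowerSeries K)
    (v : Fin n → PowerSeries K) (i : Fin m) :
    QF c (fun a => PowerSeries.X * v a) i = PowerSeries.X ^ 2 * QF c v i := by
  unfold QF
  rw [Finset.mul_sum]
  refine Finset.sum_congr rfl fun a _ => ?_
  rw [Finset.mul_sum]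
  refine Finset.sum_congr rfl fun b _ => ?_
  ring

theorem cc_QF {K : Type} [Field K] {m n : ℕ} (A : Fin m → Fin n → Fin n → K)
    (v : Fin n → PowerSeries K) (i : Fin m) :
    PowerSeries.constantCoeff (QF (fun i a b => PowerSeries.C (A i a b)) v i) =
      QF A (fun a => PowerSeries.constantCoeff (v a)) i := by
  unfold QF
  rw [map_sum]
  refine Finset.sum_congr rfl fun a _ => ?_
  rw [map_sum]
  refine Finset.sum_congr rfl fun b _ => ?_
  rw [map_mul, map_mul, PowerSeries.constantCoeff_C]

theorem zero_of_cc {K : Type} [Field K] {m n : ℕ} (A A' : Fin m → Fin n → Fin n → K)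
    (hA : ∀ v : Fin n → K, QF A v = 0 → QF A' v = 0 → v = 0) (v : Fin n → PowerSeries K)
    (h : ∀ i, PowerSeries.constantCoeff (QF (fun i a b => PowerSeries.C (A i a b)) v i) = 0)
    (h' : ∀ i, PowerSeries.constantCoeff (QF (fun i a b => PowerSeries.C (A' i a b)) v i) = 0) :
    ∃ v' : Fin n → PowerSeries K, v = fun a => PowerSeries.X * v' a := by
  have h0 := hA (fun a => PowerSeries.constantCoeff (v a))
    (by funext i; rw [← cc_QF, h i]; rfl) (by funext i; rw [← cc_QF, h' i]; rfl)
  have h1 : ∀ a, ∃ w, v a = PowerSeries.X * w := by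
    intro a
    have : PowerSeries.constantCoeff (v a) = 0 := congrFun h0 a
    exact PowerSeries.X_dvd_iff.2 this
  choose v' hv' using h1
  exact ⟨v', funext hv'⟩

theorem cancel {K : Type} [Field K] {a b : PowerSeries K}
    (h : PowerSeries.X ^ 2 * a + PowerSeries.X * b = 0) : PowerSeries.X * a + b = 0 := by
  have h1 : PowerSeries.X * (PowerSeries.X * a + b) = 0 := by
    rw [← h]; ring
  exact (mul_eq_zero.1 h1).resolve_left PowerSeries.X_ne_zero

theorem step {K : Type} [Field K] (m n : ℕ) (A A' : Fin m → Fin n → Fin n → K)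
    (hA : ∀ v : Fin n → K, QF A v = 0 → QF A' v = 0 → v = 0) (x y z : Fin n → PowerSeries K)
    (h1 : ∀ i, QF (fun i a b => PowerSeries.C (A i a b)) x i +
      PowerSeries.X * QF (fun i a b => PowerSeries.C (A' i a b)) y i = 0)
    (h2 : ∀ i, QF (fun i a b => PowerSeries.C (A' i a b)) x i +
      PowerSeries.X * QF (fun i a b => PowerSeries.C (A i a b)) z i = 0)
    (h3 : ∀ i, QF (fun i a b => PowerSeries.C (A i a b)) y i +
      PowerSeries.X * QF (fun i a b => PowerSeries.C (A' i a b)) z i = 0) :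
    ∃ x' y' z' : Fin n → PowerSeries K, (x = fun a => PowerSeries.X * x' a) ∧
      (y = fun a => PowerSeries.X * y' a) ∧ (z = fun a => PowerSeries.X * z' a) ∧
      (∀ i, QF (fun i a b => PowerSeries.C (A i a b)) x' i +
        PowerSeries.X * QF (fun i a b => PowerSeries.C (A' i a b)) y' i = 0) ∧
      (∀ i, QF (fun i a b => PowerSeries.C (A' i a b)) x' i +
        PowerSeries.X * QF (fun i a b => PowerSeries.C (A i a b)) z' i = 0) ∧
      (∀ i, QF (fun i a b => PowerSeries.C (A i a b)) y' i +
        PowerSeries.X * QF (fun i a b => PowerSeries.C (A' i a b)) z' i = 0) := by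
  have key : ∀ {a b : PowerSeries K}, a + PowerSeries.X * b = 0 →
      PowerSeries.constantCoeff a = 0 := by
    intro a b h
    have := congrArg PowerSeries.constantCoeff h
    rw [map_add, map_mul, PowerSeries.constantCoeff_X, zero_mul, add_zero, map_zero] at this
    exact this
  have key' : ∀ {a b : PowerSeries K}, PowerSeries.X * a + b = 0 →
      PowerSeries.constantCoeff b = 0 := by
    intro a b h
    rw [add_comm] at h
    exact key h
  obtain ⟨x', rfl⟩ := zero_of_cc A A' hA x (fun i => key (h1 i)) (fun i => key (h2 i))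
  simp only [QF_X_mul] at h1 h2
  have g1 := fun i => cancel (h1 i)
  have g2 := fun i => cancel (h2 i)
  obtain ⟨y', rfl⟩ := zero_of_cc A A' hA y (fun i => key (h3 i)) (fun i => key' (g1 i))
  simp only [QF_X_mul] at g1 h3
  have g3 := fun i => cancel (h3 i)
  obtain ⟨z', rfl⟩ := zero_of_cc A A' hA z (fun i => key' (g2 i)) (fun i => key' (g3 i))
  simp only [QF_X_mul] at g2 g3
  refine ⟨x', y', z', rfl, rfl, rfl, ?_, ?_, ?_⟩
  · intro i
    have h := g1 i
    have e : PowerSeries.X * (QF (fun i a b => PowerSeries.C (A i a b)) x' i +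
        PowerSeries.X * QF (fun i a b => PowerSeries.C (A' i a b)) y' i) = 0 := by
      rw [← h]; ring
    exact (mul_eq_zero.1 e).resolve_left PowerSeries.X_ne_zero
  · intro i
    have h := g2 i
    have e : PowerSeries.X * (QF (fun i a b => PowerSeries.C (A' i a b)) x' i +
        PowerSeries.X * QF (fun i a b => PowerSeries.C (A i a b)) z' i) = 0 := by
      rw [← h]; ring
    exact (mul_eq_zero.1 e).resolve_left PowerSeries.X_ne_zero
  · intro i
    have h := g3 i
    have e : PowerSeries.X * (QF (fun i a b => PowerSeries.C (A i a b)) y' i +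
        PowerSeries.X * QF (fun i a b => PowerSeries.C (A' i a b)) z' i) = 0 := by
      rw [← h]; ring
    exact (mul_eq_zero.1 e).resolve_left PowerSeries.X_ne_zero

theorem divis {K : Type} [Field K] (m n : ℕ) (A A' : Fin m → Fin n → Fin n → K)
    (hA : ∀ v : Fin n → K, QF A v = 0 → QF A' v = 0 → v = 0) (k : ℕ) :
    ∀ x y z : Fin n → PowerSeries K,
    (∀ i, QF (fun i a b => PowerSeries.C (A i a b)) x i +
      PowerSeries.X * QF (fun i a b => PowerSeries.C (A' i a b)) y i = 0) →
    (∀ i, QF (fun i a b => PowerSeries.C (A' i a b)) x i +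
      PowerSeries.X * QF (fun i a b => PowerSeries.C (A i a b)) z i = 0) →
    (∀ i, QF (fun i a b => PowerSeries.C (A i a b)) y i +
      PowerSeries.X * QF (fun i a b => PowerSeries.C (A' i a b)) z i = 0) →
    ∀ a, PowerSeries.X ^ k ∣ x a ∧ PowerSeries.X ^ k ∣ y a ∧ PowerSeries.X ^ k ∣ z a := by
  induction k with
  | zero =>
    intro x y z _ _ _ a
    simp
  | succ k ih =>
    intro x y z h1 h2 h3 a
    obtain ⟨x', y', z', rfl, rfl, rfl, g1, g2, g3⟩ := step m n A A' hA x y z h1 h2 h3
    obtain ⟨d1, d2, d3⟩ := ih x' y' z' g1 g2 g3 a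
    refine ⟨?_, ?_, ?_⟩
    · rw [pow_succ']; exact mul_dvd_mul_left _ d1
    · rw [pow_succ']; exact mul_dvd_mul_left _ d2
    · rw [pow_succ']; exact mul_dvd_mul_left _ d3

theorem eq_zero {K : Type} [Field K] (f : PowerSeries K) (h : ∀ k, PowerSeries.X ^ k ∣ f) :
    f = 0 := by
  ext k
  rw [map_zero]
  exact (PowerSeries.X_pow_dvd_iff.1 (h (k + 1))) k (Nat.lt_succ_self k)

end TL1a

open TL1a in
/-- L1a -/
theorem triangle_ps (K : Type) [Field K] (m n : ℕ) (A A' : Fin m → Fin n → Fin n → K)
    (hA : ∀ v : Fin n → K, QF A v = 0 → QF A' v = 0 → v = 0) (x y z : Fin n → PowerSeries K)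
    (h1 : ∀ i, QF (fun i a b => PowerSeries.C (A i a b)) x i +
      PowerSeries.X * QF (fun i a b => PowerSeries.C (A' i a b)) y i = 0)
    (h2 : ∀ i, QF (fun i a b => PowerSeries.C (A' i a b)) x i +
      PowerSeries.X * QF (fun i a b => PowerSeries.C (A i a b)) z i = 0)
    (h3 : ∀ i, QF (fun i a b => PowerSeries.C (A i a b)) y i +
      PowerSeries.X * QF (fun i a b => PowerSeries.C (A' i a b)) z i = 0) :
    x = 0 ∧ y = 0 ∧ z = 0 := by
  have h := fun k => divis m n A A' hA k x y z h1 h2 h3
  refine ⟨?_, ?_, ?_⟩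
  · funext a; exact eq_zero _ fun k => (h k a).1
  · funext a; exact eq_zero _ fun k => (h k a).2.1
  · funext a; exact eq_zero _ fun k => (h k a).2.2

end Pool.Agent.H918R4
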