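import Pool.Agent.H918R4.Defs

/-! L1b: from power series to Laurent series (given L1a). -/
set_option autoImplicit false
namespace Pool.Agent.H918R4

namespace TL1b

theorem qf_map {R S : Type*} [CommRing R] [CommRing S] (φ : R →+* S) {ι ν : Type*} [Fintype ν]
    (c : ι → ν → ν → R) (v : ν → R) (i : ι) :
    QF (fun i a b => φ (c i a b)) (fun a => φ (v a)) i = φ (QF c v i) := by
  simp only [QF, map_sum, map_mul]

theorem qf_smul {R : Type*} [CommRing R] {ι ν : Type*} [Fintype ν]
    (c : ι → ν → ν → R) (s : R) (v : ν → R) (i : ι) :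
    QF c (fun a => s * v a) i = s ^ 2 * QF c v i := by
  simp only [QF, Finset.mul_sum]
  refine Finset.sum_congr rfl fun a _ => Finset.sum_congr rfl fun b _ => ?_
  ring

theorem qf_reindex {R : Type*} [CommRing R] {ι ι' ν ν' : Type*} [Fintype ν] [Fintype ν']
    (c : ι → ν → ν → R) (e1 : ι ≃ ι') (e2 : ν ≃ ν') (v : ν' → R) (i : ι) :
    QF (fun (i : ι') (a b : ν') => c (e1.symm i) (e2.symm a) (e2.symm b)) v (e1 i) =
      QF c (fun a => v (e2 a)) i := by
  simp only [QF, Equiv.symm_apply_apply]
  rw [← Equiv.sum_comp e2]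
  refine Finset.sum_congr rfl fun a _ => ?_
  rw [← Equiv.sum_comp e2]
  refine Finset.sum_congr rfl fun b _ => ?_
  simp only [Equiv.symm_apply_apply]

/-- the coefficients of the triangle construction -/
noncomputable def co {K : Type} [Field K] {m n : ℕ} (A A' : Fin m → Fin n → Fin n → K) :
    Fin 3 → Fin 3 → Fin m → Fin n → Fin n → PowerSeries K
  | 0, 0 => fun i a b => PowerSeries.C (A i a b)
  | 0, 1 => fun i a b => PowerSeries.X * PowerSeries.C (A' i a b)
  | 1, 0 => fun i a b => PowerSeries.C (A' i a b)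
  | 1, 2 => fun i a b => PowerSeries.X * PowerSeries.C (A i a b)
  | 2, 1 => fun i a b => PowerSeries.C (A i a b)
  | 2, 2 => fun i a b => PowerSeries.X * PowerSeries.C (A' i a b)
  | _, _ => fun _ _ _ => 0

noncomputable def c1 {K : Type} [Field K] {m n : ℕ} (A A' : Fin m → Fin n → Fin n → K) :
    Fin 3 × Fin m → Fin 3 × Fin n → Fin 3 × Fin n → PowerSeries K :=
  fun j p q => if p.1 = q.1 then co A A' j.1 p.1 j.2 p.2 q.2 else 0

theorem qf_c1 {K : Type} [Field K] {m n : ℕ} (A A' : Fin m → Fin n → Fin n → K)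
    (w : Fin 3 × Fin n → PowerSeries K) (k : Fin 3) (i : Fin m) :
    QF (c1 A A') w (k, i) = ∑ s : Fin 3, QF (co A A' k s) (fun a => w (s, a)) i := by
  simp only [QF, c1]
  rw [Fintype.sum_prod_type]
  refine Finset.sum_congr rfl fun s _ => Finset.sum_congr rfl fun a _ => ?_
  rw [Fintype.sum_prod_type]
  rw [Finset.sum_eq_single s]
  · refine Finset.sum_congr rfl fun b _ => ?_
    simp
  · intro t _ ht
    apply Finset.sum_eq_zero
    intro b _
    rw [if_neg (fun h => ht h.symm)]
    ring
  · intro h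
    exact absurd (Finset.mem_univ _) h

theorem qf_X {R : Type*} [CommRing R] {ι ν : Type*} [Fintype ν] (c : ι → ν → ν → R) (t : R) (v : ν → R) (i : ι) :
    QF (fun i a b => t * c i a b) v i = t * QF c v i := by
  simp only [QF, Finset.mul_sum]
  refine Finset.sum_congr rfl fun a _ => Finset.sum_congr rfl fun b _ => ?_
  ring

theorem qf_zero {R : Type*} [CommRing R] {ι ν : Type*} [Fintype ν] (v : ν → R) (i : ι) :
    QF (fun (_ : ι) (_ _ : ν) => (0 : R)) v i = 0 := by
  simp [QF]

end TL1b

open TL1b

theorem triangle_core (K : Type) [Field K] (m n : ℕ)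
    (hps : ∀ (A A' : Fin m → Fin n → Fin n → K)
      (_ : ∀ v : Fin n → K, QF A v = 0 → QF A' v = 0 → v = 0) (x y z : Fin n → PowerSeries K)
      (_ : ∀ i, QF (fun i a b => PowerSeries.C (A i a b)) x i +
        PowerSeries.X * QF (fun i a b => PowerSeries.C (A' i a b)) y i = 0)
      (_ : ∀ i, QF (fun i a b => PowerSeries.C (A' i a b)) x i +
        PowerSeries.X * QF (fun i a b => PowerSeries.C (A i a b)) z i = 0)
      (_ : ∀ i, QF (fun i a b => PowerSeries.C (A i a b)) y i +
        PowerSeries.X * QF (fun i a b => PowerSeries.C (A' i a b)) z i = 0),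
      x = 0 ∧ y = 0 ∧ z = 0)
    (f : Fin (2 * m) → Fin n → Fin n → K) (hf : Aniso f) :
    ∃ c : Fin (3 * m) → Fin (3 * n) → Fin (3 * n) → LaurentSeries K, Aniso c := by
  set A : Fin m → Fin n → Fin n → K := fun i => f ⟨i, by omega⟩ with hA
  set A' : Fin m → Fin n → Fin n → K := fun i => f ⟨m + i, by omega⟩ with hA'
  have hAA : ∀ v : Fin n → K, QF A v = 0 → QF A' v = 0 → v = 0 := by
    intro v h1 h2
    apply hf
    funext i
    rcases Nat.lt_or_ge i.1 m with h | h
    · have := congrFun h1 ⟨i.1, h⟩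
      exact this
    · have := congrFun h2 ⟨i.1 - m, by omega⟩
      have e : (⟨m + (i.1 - m), by omega⟩ : Fin (2 * m)) = i := Fin.ext (by simp; omega)
      simp only [QF, hA', e] at this
      exact this
  set ι := algebraMap (PowerSeries K) (LaurentSeries K) with hι
  have hinj : Function.Injective ι := IsFractionRing.injective (PowerSeries K) (LaurentSeries K)
  -- the system
  refine ⟨fun i a b => ι (c1 A A' (finProdFinEquiv.symm i) (finProdFinEquiv.symm a) (finProdFinEquiv.symm b)), ?_⟩
  intro v hv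
  set v' : Fin 3 × Fin n → LaurentSeries K := fun p => v (finProdFinEquiv p) with hv'
  have hQ : ∀ j, QF (fun j p q => ι (c1 A A' j p q)) v' j = 0 := by
    intro j
    rw [← qf_reindex (fun j p q => ι (c1 A A' j p q)) finProdFinEquiv finProdFinEquiv v j]
    exact congrFun hv _
  obtain ⟨b, hb⟩ := IsLocalization.exist_integer_multiples_of_finite (Submonoid.powers (PowerSeries.X : PowerSeries K)) v'
  choose w hw using hb
  have hb0 : (ι (b : PowerSeries K)) ≠ 0 := by
    obtain ⟨k, hk⟩ := b.2
    have hk' : PowerSeries.X ^ k = (b : PowerSeries K) := hk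
    rw [← hk']
    intro h
    have h2 : (PowerSeries.X : PowerSeries K) ^ k = 0 := hinj (by rw [h, map_zero])
    exact pow_ne_zero k PowerSeries.X_ne_zero h2
  have hw' : ∀ p, ι (w p) = ι (b : PowerSeries K) * v' p := by
    intro p
    rw [← Algebra.smul_def]
    exact hw p
  have hQw : ∀ j, QF (c1 A A') w j = 0 := by
    intro j
    apply hinj
    rw [map_zero, ← qf_map]
    have e : (fun a => ι (w a)) = fun a => ι (b : PowerSeries K) * v' a := funext hw'
    rw [e, qf_smul, hQ, mul_zero]
  have key := hps A A' hAA (fun a => w (0, a)) (fun a => w (1, a)) (fun a => w (2, a)) (by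
    intro i
    have := hQw (0, i)
    rw [qf_c1, Fin.sum_univ_three] at this
    have e1 : QF (co A A' 0 0) (fun a => w (0, a)) i = QF (fun i a b => PowerSeries.C (A i a b)) (fun a => w (0, a)) i := rfl
    have e2 : QF (co A A' 0 1) (fun a => w (1, a)) i = QF (fun i a b => PowerSeries.X * PowerSeries.C (A' i a b)) (fun a => w (1, a)) i := rfl
    have e3 : QF (co A A' 0 2) (fun a => w (2, a)) i = 0 := qf_zero _ _
    rw [e1, e2, e3, qf_X, add_zero] at this
    exact this) (by
    intro i
    have := hQw (1, i)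
    rw [qf_c1, Fin.sum_univ_three] at this
    have e1 : QF (co A A' 1 0) (fun a => w (0, a)) i = QF (fun i a b => PowerSeries.C (A' i a b)) (fun a => w (0, a)) i := rfl
    have e2 : QF (co A A' 1 2) (fun a => w (2, a)) i = QF (fun i a b => PowerSeries.X * PowerSeries.C (A i a b)) (fun a => w (2, a)) i := rfl
    have e3 : QF (co A A' 1 1) (fun a => w (1, a)) i = 0 := qf_zero _ _
    rw [e1, e2, e3, qf_X, add_zero] at this
    exact this) (by
    intro i
    have := hQw (2, i)
    rw [qf_c1, Fin.sum_univ_three] at this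
    have e1 : QF (co A A' 2 1) (fun a => w (1, a)) i = QF (fun i a b => PowerSeries.C (A i a b)) (fun a => w (1, a)) i := rfl
    have e2 : QF (co A A' 2 2) (fun a => w (2, a)) i = QF (fun i a b => PowerSeries.X * PowerSeries.C (A' i a b)) (fun a => w (2, a)) i := rfl
    have e3 : QF (co A A' 2 0) (fun a => w (0, a)) i = 0 := qf_zero _ _
    rw [e1, e2, e3, qf_X, zero_add] at this
    exact this)
  obtain ⟨k0, k1, k2⟩ := key
  have hw0 : ∀ p, w p = 0 := by
    rintro ⟨s, a⟩
    fin_cases s
    · exact congrFun k0 a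
    · exact congrFun k1 a
    · exact congrFun k2 a
  funext a
  have h1 := hw' (finProdFinEquiv.symm a)
  rw [hw0, map_zero] at h1
  have h2 := (mul_eq_zero.mp h1.symm).resolve_left hb0
  have h3 : v (finProdFinEquiv (finProdFinEquiv.symm a)) = 0 := h2
  rw [Equiv.apply_symm_apply] at h3
  exact h3

end Pool.Agent.H918R4
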