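import Pool.Agent.H918R4.Defs
import Pool.Agent.H918R4.TL1a
import Pool.Agent.H918R4.TL1bcore

/-! L1b: the triangle construction. -/
set_option autoImplicit false
namespace Pool.Agent.H918R4

/-- L1b -/
theorem triangle (K : Type) [Field K] (m n : ℕ) (f : Fin (2 * m) → Fin n → Fin n → K)
    (hf : Aniso f) :
    ∃ c : Fin (3 * m) → Fin (3 * n) → Fin (3 * n) → LaurentSeries K, Aniso c :=
  triangle_core K m n (triangle_ps K m n) f hf

end Pool.Agent.H918R4
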