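import Pool.Agent.H918R4.Defs

set_option autoImplicit false
namespace Pool.Agent.H918R4
open MvPolynomial

namespace TL2

/-- the matrix with the single entry `r` at `(a, b)` -/
def E {K ν : Type} [Field K] [DecidableEq ν] (a b : ν) (r : K) : ν → ν → K :=
  fun a' b' => if a' = a then (if b' = b then r else 0) else 0

theorem sum_E {K ν : Type} [Field K] [DecidableEq ν] [Fintype ν] (a b : ν) (r : K) (v : ν → K) :
    ∑ a', ∑ b', E a b r a' b' * v a' * v b' = r * v a * v b := by
  rw [Finset.sum_eq_single a]
  · rw [Finset.sum_eq_single b]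
    · simp [E]
    · intro b' _ hb'
      simp [E, hb']
    · intro h
      exact absurd (Finset.mem_univ _) h
  · intro a' _ ha'
    simp [E, ha']
  · intro h
    exact absurd (Finset.mem_univ _) h

theorem sum_add {K ν : Type} [Field K] [Fintype ν] (c c' : ν → ν → K) (v : ν → K) :
    ∑ a, ∑ b, (c + c') a b * v a * v b =
      ∑ a, ∑ b, c a b * v a * v b + ∑ a, ∑ b, c' a b * v a * v b := by
  rw [← Finset.sum_add_distrib]
  refine Finset.sum_congr rfl fun a _ => ?_
  rw [← Finset.sum_add_distrib]
  refine Finset.sum_congr rfl fun b _ => ?_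
  simp only [Pi.add_apply]
  ring

/-- the forms `x_{i+1} w - x_i^2` and `x_13^2 + x x_13 x_0 + x^3 w^2` -/
def cf {K : Type} [Field K] (x : K) (i : Fin 14) : Fin 15 → Fin 15 → K :=
  if i = Fin.last 13 then (E (13 : Fin 15) 13 1 + E 13 0 x) + E 14 14 (x ^ 3)
  else E i.succ 14 1 + E i.castSucc i.castSucc (-1)

end TL2

open TL2 in
/-- L2 -/
theorem chain_aniso (K : Type) [Field K] (x : K)
    (hx : ∀ y : K, y ^ 16384 + x * y ^ 8193 + x ^ 3 ≠ 0) :
    ∃ f : Fin 14 → Fin 15 → Fin 15 → K, Aniso f := by
  refine ⟨cf x, ?_⟩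
  intro v hv
  have hlast : v 13 * v 13 + x * v 13 * v 0 + x ^ 3 * v 14 * v 14 = 0 := by
    have h := congrFun hv (Fin.last 13)
    unfold QF cf at h
    simp only [if_true] at h
    rw [sum_add, sum_add, sum_E, sum_E, sum_E] at h
    simpa using h
  have hstep : ∀ i : Fin 14, i ≠ Fin.last 13 → v i.succ * v 14 = v i.castSucc * v i.castSucc := by
    intro i hi
    have h := congrFun hv i
    unfold QF cf at h
    simp only [if_neg hi] at h
    rw [sum_add, sum_E, sum_E] at h
    simp only [one_mul, Pi.zero_apply] at h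
    linear_combination h
  have hstep' : ∀ (j : ℕ) (hj : j < 13), v ⟨j + 1, by omega⟩ * v 14 =
      v ⟨j, by omega⟩ * v ⟨j, by omega⟩ := by
    intro j hj
    exact hstep ⟨j, by omega⟩ (by
      intro h
      have := congrArg Fin.val h
      simp at this
      omega)
  by_cases hw : v 14 = 0
  · have h1 : ∀ (j : ℕ) (hj : j < 13), v ⟨j, by omega⟩ = 0 := by
      intro j hj
      have := hstep' j hj
      rw [hw, mul_zero] at this
      exact mul_self_eq_zero.1 this.symm
    have h13 : v 13 = 0 := by
      have h0 : v 0 = 0 := h1 0 (by norm_num)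
      rw [h0, hw] at hlast
      simp only [mul_zero, add_zero] at hlast
      exact mul_self_eq_zero.1 hlast
    funext a
    rcases a with ⟨a, ha⟩
    by_cases h : a < 13
    · exact h1 a h
    · have h2 : a = 13 ∨ a = 14 := by omega
      rcases h2 with rfl | rfl
      · exact h13
      · exact hw
  · exfalso
    set w := v 14 with hwdef
    set y := v 0 / w with hy
    have key : ∀ (j : ℕ) (hj : j < 14), v ⟨j, by omega⟩ = w * y ^ (2 ^ j) := by
      intro j
      induction j with
      | zero =>
        intro _
        rw [pow_zero, pow_one, hy, mul_div_cancel₀ _ hw]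
        rfl
      | succ j ih =>
        intro hj
        have h1 := hstep' j (by omega)
        rw [ih (by omega)] at h1
        apply mul_right_cancel₀ hw
        rw [h1, pow_succ 2 j, pow_mul y]
        generalize y ^ 2 ^ j = z
        ring
    have h13 : v 13 = w * y ^ (2 ^ 13) := key 13 (by norm_num)
    have h0 : v 0 = w * y := by
      rw [hy, mul_div_cancel₀ _ hw]
    rw [h13, h0] at hlast
    apply hx y
    have e1 : y ^ 16384 = y ^ (2 ^ 13) * y ^ (2 ^ 13) := by
      rw [← pow_add]
      norm_num
    have e2 : y ^ 8193 = y ^ (2 ^ 13) * y := by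
      rw [← pow_succ]
      norm_num
    rw [e1, e2]
    generalize y ^ 2 ^ 13 = z at hlast ⊢
    have : w * w * (z * z + x * (z * y) + x ^ 3) = 0 := by
      linear_combination hlast
    rcases mul_eq_zero.1 this with h | h
    · exact absurd (mul_self_eq_zero.1 h) hw
    · exact h

end Pool.Agent.H918R4
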