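import Pool.Agent.H918R4.Defs

/-! L3a, L3b: quadratic maps and arrays of coefficients. -/
set_option autoImplicit false
namespace Pool.Agent.H918R4
open MvPolynomial

/-- L3a -/
theorem arr_of_qmap (K : Type) [Field K] (r n : ℕ)
    (q : QuadraticMap K (Fin n → K) (Fin r → K)) :
    ∃ c : Fin r → Fin n → Fin n → K, ∀ v, q v = QF c v := by
  obtain ⟨B, rfl⟩ := LinearMap.BilinMap.toQuadraticMap_surjective q
  refine ⟨fun i a b => B (Pi.single a 1) (Pi.single b 1) i, fun v => ?_⟩
  rw [LinearMap.BilinMap.toQuadraticMap_apply]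
  have hv : v = ∑ a, v a • (Pi.single a 1 : Fin n → K) := by
    funext j
    simp [Finset.sum_apply, Pi.single_apply]
  funext i
  have h1 : B v v = ∑ a, ∑ b, (v a * v b) • B (Pi.single a 1) (Pi.single b 1) := by
    conv_lhs => rw [hv]
    rw [map_sum (B (∑ a, v a • (Pi.single a 1 : Fin n → K)))]
    simp only [map_sum B, LinearMap.sum_apply, map_smul, LinearMap.smul_apply, smul_smul]
    rw [Finset.sum_comm]
    simp only [Finset.smul_sum, smul_smul, mul_comm]
  rw [h1]
  simp only [QF, Finset.sum_apply, Pi.smul_apply, smul_eq_mul]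
  refine Finset.sum_congr rfl fun a _ => Finset.sum_congr rfl fun b _ => ?_
  ring

/-- L3b -/
theorem qmap_of_arr (K : Type) [Field K] (r n : ℕ) (c : Fin r → Fin n → Fin n → K) :
    ∃ q : QuadraticMap K (Fin n → K) (Fin r → K), ∀ v, q v = QF c v := by
  refine ⟨LinearMap.BilinMap.toQuadraticMap (LinearMap.mk₂ K
    (fun v w : Fin n → K => fun i : Fin r =>
      ∑ a, ∑ b, c i a b * v a * w b) ?_ ?_ ?_ ?_), fun v => rfl⟩
  · intro v v' w
    funext i
    simp only [Pi.add_apply, ← Finset.sum_add_distrib]
    refine Finset.sum_congr rfl fun a _ => Finset.sum_congr rfl fun b _ => ?_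
    ring
  · intro t v w
    funext i
    simp only [Pi.smul_apply, smul_eq_mul, Finset.mul_sum]
    refine Finset.sum_congr rfl fun a _ => Finset.sum_congr rfl fun b _ => ?_
    ring
  · intro v w w'
    funext i
    simp only [Pi.add_apply, ← Finset.sum_add_distrib]
    refine Finset.sum_congr rfl fun a _ => Finset.sum_congr rfl fun b _ => ?_
    ring
  · intro t v w
    funext i
    simp only [Pi.smul_apply, smul_eq_mul, Finset.mul_sum]
    refine Finset.sum_congr rfl fun a _ => Finset.sum_congr rfl fun b _ => ?_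
    ring

end Pool.Agent.H918R4
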