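import Pool.Agent.H918R4.Defs

/-! Tasks L3c and L3d: `metab` and `aniso_restrict`. -/
set_option autoImplicit false
namespace Pool.Agent.H918R4
open MvPolynomial

namespace TL3c

theorem sum_castLE {K : Type*} [AddCommMonoid K] {n n' : ℕ} (h : n ≤ n') (F : Fin n' → K)
    (hF : ∀ a, a ∉ Set.range (Fin.castLE h) → F a = 0) :
    ∑ a, F a = ∑ a : Fin n, F (Fin.castLE h a) := by
  symm
  refine Finset.sum_of_injOn (Fin.castLE h) (Fin.castLE_injective h).injOn
    (fun _ _ => Finset.mem_coe.2 (Finset.mem_univ _)) (fun a _ ha => hF a ?_) (fun _ _ => rfl)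
  intro hr
  apply ha
  simpa using hr

end TL3c

/-- L3c -/
theorem metab (L : Type) [Field L] (i : L) (hi : i * i = -1) (r n : ℕ)
    (q : QuadraticMap L (Fin n → L) (Fin r → L)) :
    ∃ m : ℕ, 0 < m ∧ ∃ W : Submodule L (Fin m → Fin n → L),
      m * n ≤ 2 * Module.finrank L W ∧ ∀ x ∈ W, ∑ i, q (x i) = 0 := by
  refine ⟨2, two_pos, ?_⟩
  let φ : (Fin n → L) →ₗ[L] (Fin 2 → Fin n → L) :=
    LinearMap.pi (Fin.cons LinearMap.id fun _ => i • LinearMap.id)
  have h0 : ∀ v, φ v 0 = v := fun v => rfl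
  have h1 : ∀ v, φ v 1 = i • v := fun v => rfl
  have hinj : Function.Injective φ := by
    intro v w hvw
    have := congrFun hvw 0
    rwa [h0, h0] at this
  refine ⟨LinearMap.range φ, ?_, ?_⟩
  · rw [LinearMap.finrank_range_of_inj hinj, Module.finrank_fin_fun]
  · rintro x ⟨v, rfl⟩
    rw [Fin.sum_univ_two, h0, h1, QuadraticMap.map_smul, hi, neg_smul, one_smul, add_neg_cancel]

/-- L3d -/
theorem aniso_restrict (K : Type) [Field K] (r n n' : ℕ) (h : n ≤ n')
    (c : Fin r → Fin n' → Fin n' → K) (hc : Aniso c) :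
    ∃ c' : Fin r → Fin n → Fin n → K, Aniso c' := by
  refine ⟨fun i a b => c i (Fin.castLE h a) (Fin.castLE h b), fun v hv => ?_⟩
  have hex : ∀ a, Function.extend (Fin.castLE h) v 0 (Fin.castLE h a) = v a := fun a =>
    (Fin.castLE_injective h).extend_apply _ _ _
  have hz : ∀ a, a ∉ Set.range (Fin.castLE h) → Function.extend (Fin.castLE h) v 0 a = 0 := by
    intro a ha
    rw [Function.extend_apply' _ _ _ (fun hx => ha hx)]
    rfl
  have h1 := hc (Function.extend (Fin.castLE h) v 0) (by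
    funext i
    have h2 := congrFun hv i
    unfold QF at h2 ⊢
    rw [TL3c.sum_castLE h _ (fun a ha => by
      refine Finset.sum_eq_zero fun b _ => ?_
      rw [hz a ha, mul_zero, zero_mul])]
    rw [← h2]
    refine Finset.sum_congr rfl fun a _ => ?_
    rw [TL3c.sum_castLE h _ (fun b hb => by rw [hz b hb, mul_zero])]
    refine Finset.sum_congr rfl fun b _ => ?_
    rw [hex, hex])
  funext a
  rw [← hex a, h1]
  rfl

end Pool.Agent.H918R4
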