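import Pool.Agent.H918R4.FinA
import Pool.Agent.H918R4.TE1
import Pool.Agent.H918R4.TL1b
import Pool.Agent.H918R4.TL2
import Pool.Agent.H918R4.TL3a
import Pool.Agent.H918R4.TL3c

/-! Assembly: the field and the final statement. -/
set_option autoImplicit false
namespace Pool.Agent.H918R4
open MvPolynomial

/-- the field -/
theorem exists_field : ∃ (Ω : Type) (_ : Field Ω) (_ : IsAlgClosed Ω) (_ : CharZero Ω)
    (τ : RingAut Ω), LocFin τ ∧ (∃ i : Kfix 2731 8191 τ, i * i = -1) ∧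
      ∃ x : Kfix 2731 8191 τ, ∀ y : Kfix 2731 8191 τ, y ^ 16384 + x * y ^ 8193 + x ^ 3 ≠ 0 := by
  obtain ⟨c, hc⟩ : ∃ c : ℂ, IsPrimitiveRoot c (2731 * 8191) :=
    ⟨_, Complex.isPrimitiveRoot_exp (2731 * 8191) (by norm_num)⟩
  have hc0 : c ≠ 0 := hc.ne_zero (by norm_num)
  obtain ⟨L⟩ := exists_lift ℂ 1 c hc0
  have hz : CharZero L.Ω := charZero_of_injective_algebraMap (algebraMap ℂ L.Ω).injective
  refine ⟨L.Ω, inferInstance, inferInstance, hz, L.τ, ?_, ?_, no_root c hc L⟩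
  · refine locFin_of L.Ω L.τ _ ?_ L.isalg
    rintro x (⟨y, rfl⟩ | hx)
    · refine ⟨1, one_pos, ?_⟩
      rw [pow_one, L.τ_map]; rfl
    · rw [Set.mem_singleton_iff] at hx
      subst hx
      refine ⟨2731 * 8191, by norm_num, ?_⟩
      have key : ∀ n : ℕ, (L.τ ^ n) L.u = algebraMap ℂ L.Ω (c ^ n) * L.u := by
        intro n
        induction n with
        | zero => simp
        | succ n ih =>
          rw [pow_succ]
          change (L.τ ^ n) (L.τ L.u) = _
          rw [L.τ_u, map_mul, ih]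
          have : ∀ (m : ℕ) (z : ℂ), (L.τ ^ m) (algebraMap ℂ L.Ω z) = algebraMap ℂ L.Ω z := by
            intro m z
            induction m with
            | zero => rfl
            | succ m ihm =>
              rw [pow_succ]
              change (L.τ ^ m) (L.τ (algebraMap ℂ L.Ω z)) = _
              rw [L.τ_map]; exact ihm
          rw [this, ← mul_assoc, ← map_mul, pow_succ', ]
      rw [key, hc.pow_eq_one, map_one, one_mul]
  · refine ⟨⟨algebraMap ℂ L.Ω Complex.I, 1, one_pos, Nat.coprime_one_left _, ?_⟩, ?_⟩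
    · rw [pow_one, L.τ_map]; rfl
    · apply Subtype.ext
      change algebraMap ℂ L.Ω Complex.I * algebraMap ℂ L.Ω Complex.I = -1
      rw [← map_mul, Complex.I_mul_I, map_neg, map_one]

theorem final :
    ¬ (∀ (K : Type) [Field K], IsSumSq (-1 : K) →
      ∀ r n : ℕ,
        (∃ q : QuadraticMap (LaurentSeries K) (Fin n → LaurentSeries K) (Fin r → LaurentSeries K),
          (∀ x, q x = 0 → x = 0) ∧
          ∃ m : ℕ, 0 < m ∧
            ∃ W : Submodule (LaurentSeries K) (Fin m → Fin n → LaurentSeries K),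
              m * n ≤ 2 * Module.finrank (LaurentSeries K) W ∧
              ∀ x ∈ W, ∑ i, q (x i) = 0) →
        ∃ n' : ℕ, n ≤ 2 * n' ∧
          ∃ q : QuadraticMap K (Fin n' → K) (Fin r → K),
            (∀ x, q x = 0 → x = 0) ∧
            ∃ m : ℕ, 0 < m ∧
              ∃ W : Submodule K (Fin m → Fin n' → K),
                m * n' ≤ 2 * Module.finrank K W ∧
                ∀ x ∈ W, ∑ i, q (x i) = 0) := by
  intro H
  obtain ⟨Ω, _, _, _, τ, hτ, ⟨i, hi⟩, x, hx⟩ := exists_field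
  have hp : Nat.Prime 2731 := by norm_num
  have hq : Nat.Prime 8191 := by norm_num
  obtain ⟨f, hf⟩ := chain_aniso (Kfix 2731 8191 τ) x hx
  obtain ⟨c, hc⟩ := triangle (Kfix 2731 8191 τ) 7 15 f hf
  obtain ⟨Q, hQ⟩ := qmap_of_arr (LaurentSeries (Kfix 2731 8191 τ)) 21 45 c
  have hi' : (algebraMap (Kfix 2731 8191 τ) (LaurentSeries (Kfix 2731 8191 τ)) i) *
      (algebraMap (Kfix 2731 8191 τ) (LaurentSeries (Kfix 2731 8191 τ)) i) = -1 := by
    rw [← map_mul, hi, map_neg, map_one]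
  obtain ⟨n', hn', q', hq', -⟩ := H (Kfix 2731 8191 τ)
    (hi ▸ IsSumSq.mul_self i) 21 45
    ⟨Q, fun v hv => hc v (by rw [← hQ]; exact hv), metab _ _ hi' 21 45 Q⟩
  obtain ⟨c', hc'⟩ := arr_of_qmap (Kfix 2731 8191 τ) 21 n' q'
  have hA : Aniso c' := fun v hv => hq' v (by rw [hc']; exact hv)
  obtain ⟨c'', hc''⟩ := aniso_restrict (Kfix 2731 8191 τ) 21 23 n' (by omega) c' hA
  obtain ⟨w, hw0, hw⟩ := upper Ω τ hτ 2731 8191 hp hq (by norm_num) (by norm_num) (by norm_num)
    21 (by norm_num) c''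
  exact hw0 (hc'' w hw)

end Pool.Agent.H918R4
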