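import Pool.Agent.H918R4.Defs

/-! Stubs (independent tasks); the name in the doc string is the task id. -/
set_option autoImplicit false
namespace Pool.Agent.H918R4
open MvPolynomial

/-! ## L: lower bound -/

/-- L1a -/
theorem triangle_ps (K : Type) [Field K] (m n : ℕ) (A A' : Fin m → Fin n → Fin n → K)
    (hA : ∀ v : Fin n → K, QF A v = 0 → QF A' v = 0 → v = 0) (x y z : Fin n → PowerSeries K)
    (h1 : ∀ i, QF (fun i a b => PowerSeries.C (A i a b)) x i +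
      PowerSeries.X * QF (fun i a b => PowerSeries.C (A' i a b)) y i = 0)
    (h2 : ∀ i, QF (fun i a b => PowerSeries.C (A' i a b)) x i +
      PowerSeries.X * QF (fun i a b => PowerSeries.C (A i a b)) z i = 0)
    (h3 : ∀ i, QF (fun i a b => PowerSeries.C (A i a b)) y i +
      PowerSeries.X * QF (fun i a b => PowerSeries.C (A' i a b)) z i = 0) :
    x = 0 ∧ y = 0 ∧ z = 0 := by sorry

/-- L1b -/
theorem triangle (K : Type) [Field K] (m n : ℕ) (f : Fin (2 * m) → Fin n → Fin n → K)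
    (hf : Aniso f) :
    ∃ c : Fin (3 * m) → Fin (3 * n) → Fin (3 * n) → LaurentSeries K, Aniso c := by sorry

/-- L2 -/
theorem chain_aniso (K : Type) [Field K] (x : K)
    (hx : ∀ y : K, y ^ 16384 + x * y ^ 8193 + x ^ 3 ≠ 0) :
    ∃ f : Fin 14 → Fin 15 → Fin 15 → K, Aniso f := by sorry

/-- L3a -/
theorem arr_of_qmap (K : Type) [Field K] (r n : ℕ)
    (q : QuadraticMap K (Fin n → K) (Fin r → K)) :
    ∃ c : Fin r → Fin n → Fin n → K, ∀ v, q v = QF c v := by sorry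

/-- L3b -/
theorem qmap_of_arr (K : Type) [Field K] (r n : ℕ) (c : Fin r → Fin n → Fin n → K) :
    ∃ q : QuadraticMap K (Fin n → K) (Fin r → K), ∀ v, q v = QF c v := by sorry

/-- L3c -/
theorem metab (L : Type) [Field L] (i : L) (hi : i * i = -1) (r n : ℕ)
    (q : QuadraticMap L (Fin n → L) (Fin r → L)) :
    ∃ m : ℕ, 0 < m ∧ ∃ W : Submodule L (Fin m → Fin n → L),
      m * n ≤ 2 * Module.finrank L W ∧ ∀ x ∈ W, ∑ i, q (x i) = 0 := by sorry

/-- L3d -/
theorem aniso_restrict (K : Type) [Field K] (r n n' : ℕ) (h : n ≤ n')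
    (c : Fin r → Fin n' → Fin n' → K) (hc : Aniso c) :
    ∃ c' : Fin r → Fin n → Fin n → K, Aniso c' := by sorry

/-! ## F: fixed fields -/

/-- F1 -/
theorem pq_Kfix (Ω : Type) [Field Ω] [IsAlgClosed Ω] [CharZero Ω] (p q : ℕ) (hp : p.Prime)
    (hq : q.Prime) (τ : RingAut Ω) (hτ : LocFin τ) : PQ p q (Kfix p q τ) := by sorry

/-- F2 -/
theorem locFin_of (Ω : Type) [Field Ω] (τ : RingAut Ω) (S : Set Ω)
    (hS : ∀ x ∈ S, ∃ n : ℕ, 0 < n ∧ (τ ^ n) x = x)
    (halg : ∀ y : Ω, IsAlgebraic (Subfield.closure S) y) : LocFin τ := by sorry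

/-- E1 -/
theorem no_root (c : ℂ) (hc : IsPrimitiveRoot c (2731 * 8191)) (L : LiftData ℂ 1 c) :
    ∃ x : Kfix 2731 8191 L.τ, ∀ y : Kfix 2731 8191 L.τ,
      y ^ 16384 + x * y ^ 8193 + x ^ 3 ≠ 0 := by sorry

/-! ## P: existence of `LiftData` -/

/-- P1 -/
theorem val_of_root (R Ω : Type) [CommRing R] [IsLocalRing R] [Field Ω] [Algebra R Ω]
    (hint : ∀ z : Ω, IsIntegral R z → z ∈ Set.range (algebraMap R Ω)) (y : Ω)
    (f : Polynomial R) (hf : Polynomial.aeval y f = 0) (i : ℕ) (hi : IsUnit (f.coeff i)) :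
    y ∈ Set.range (algebraMap R Ω) ∨ y⁻¹ ∈ Set.range (algebraMap R Ω) := by sorry

/-- P2 -/
theorem exists_smul_prime (k : Type) [Field k] [CharZero k]
    (P Q : Ideal (integralClosure (Polynomial k) (AlgebraicClosure (RatFunc k))))
    (hP : P.IsPrime) (hQ : Q.IsPrime)
    (h : P.comap (algebraMap (Polynomial k) _) = Q.comap (algebraMap (Polynomial k) _)) :
    ∃ γ : AlgebraicClosure (RatFunc k) ≃ₐ[RatFunc k] AlgebraicClosure (RatFunc k),
      ∀ b : integralClosure (Polynomial k) (AlgebraicClosure (RatFunc k)),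
        ∃ h : γ b ∈ integralClosure (Polynomial k) (AlgebraicClosure (RatFunc k)),
          (b ∈ P ↔ (⟨γ b, h⟩ : integralClosure (Polynomial k) (AlgebraicClosure (RatFunc k))) ∈ Q) := by
  sorry

/-- P3 -/
theorem exists_phi0 (k : Type) [Field k] [IsAlgClosed k] :
    ∃ φ0 : integralClosure (Polynomial k) (AlgebraicClosure (RatFunc k)) →+* k,
      ∀ f : Polynomial k, φ0 (algebraMap _ _ f) = f.eval 0 := by sorry

/-- P4 -/
theorem exists_ext (k : Type) [Field k] (σ : RingAut k) (c : k) (hc : c ≠ 0) :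
    ∃ τ0 : RingAut (AlgebraicClosure (RatFunc k)),
      (∀ x : k, τ0 (algebraMap k _ x) = algebraMap k _ (σ x)) ∧
      τ0 (algebraMap (RatFunc k) _ RatFunc.X) =
        algebraMap k _ c * algebraMap (RatFunc k) _ RatFunc.X := by sorry

/-- P5 -/
theorem exists_O (k : Type) [Field k] [IsAlgClosed k] [CharZero k]
    (φ0 : integralClosure (Polynomial k) (AlgebraicClosure (RatFunc k)) →+* k)
    (h0 : ∀ f : Polynomial k, φ0 (algebraMap _ _ f) = f.eval 0) :
    ∃ (O : ValuationSubring (AlgebraicClosure (RatFunc k))) (φ : O →+* k),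
      (∀ z, z ∈ O ↔ ∃ b s : integralClosure (Polynomial k) (AlgebraicClosure (RatFunc k)),
        φ0 s ≠ 0 ∧ z * s = b) ∧
      (∀ b : integralClosure (Polynomial k) (AlgebraicClosure (RatFunc k)),
        ∃ h : (b : AlgebraicClosure (RatFunc k)) ∈ O, φ ⟨b, h⟩ = φ0 b) := by sorry

/-- P6 (assembly of P2–P5) -/
theorem exists_lift (k : Type) [Field k] [IsAlgClosed k] [CharZero k] (σ : RingAut k) (c : k)
    (hc : c ≠ 0) : Nonempty (LiftData k σ c) := by sorry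

/-- P7 -/
theorem vinf (K F : Type) [Field K] [Field F] (j : K →+* F) (ε : F)
    (hε : ∀ f : Polynomial K, f ≠ 0 → Polynomial.eval₂ j ε f ≠ 0) :
    ∃ V : ValuationSubring F, (∀ x, j x ∈ V) ∧ ∃ h : ε ∈ V, ¬ IsUnit (⟨ε, h⟩ : V) := by sorry

/-- P8 -/
theorem spec (Ω : Type) [Field Ω] (τ : RingAut Ω) (c0 : Ω) (L : LiftData Ω τ c0) (p q r n : ℕ)
    (c : Fin r → Fin n → Fin n → Kfix p q τ) (G : Fin r → Fin n → Fin n → Ω)
    (v : Fin n → Kfix p q L.τ) (hv : v ≠ 0)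
    (h : ∀ i, ∑ a, ∑ b, (algebraMap Ω L.Ω (c i a b) + L.u * algebraMap Ω L.Ω (G i a b)) *
      (v a : L.Ω) * (v b : L.Ω) = 0) :
    ∃ w : Fin n → Kfix p q τ, w ≠ 0 ∧ QF c w = 0 := by sorry

/-! ## G: the special complete intersection and its deformations -/

/-- G1 -/
theorem gspan (A : Type) [CommRing A] (r t : ℕ) (a : MvPolynomial (Fin (r + 2)) A)
    (ha : a.IsHomogeneous t) :
    ∃ (b : MvPolynomial (Fin (r + 2)) A) (h : Fin r → MvPolynomial (Fin (r + 2)) A),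
      b ∈ Submodule.span A ((fun m => monomial m (1 : A)) '' Bset r t) ∧
      a = b + ∑ j, h j * g A r j := by sorry

/-- G2a -/
theorem g_prime (κ : Type) [Field κ] (r : ℕ) : (gJ κ r).IsPrime := by sorry

/-- G2b -/
theorem B_indep (κ : Type) [Field κ] (r t : ℕ) (b : MvPolynomial (Fin (r + 2)) κ)
    (hb : b ∈ Submodule.span κ ((fun m => monomial m (1 : κ)) '' Bset r t))
    (h : b ∈ gJ κ r) : b = 0 := by sorry

/-- G3 -/
theorem ncard_Bset (r t : ℕ) (h : r ≤ t) :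
    (Bset r t).ncard + r * 2 ^ (r - 1) = 2 ^ r * t + 2 ^ r := by sorry

/-- G4a -/
theorem g_regular (κ : Type) [CommRing κ] (r : ℕ) (j : Fin r) (h : MvPolynomial (Fin (r + 2)) κ)
    (hh : h * g κ r j ∈ Ideal.span (g κ r '' {k | j < k})) :
    h ∈ Ideal.span (g κ r '' {k | j < k}) := by sorry

/-- G4b -/
theorem koszul (R : Type) [CommRing R] (r : ℕ) (f : Fin r → R)
    (hreg : ∀ (j : Fin r) (h : R), h * f j ∈ Ideal.span (f '' {k | j < k}) →
      h ∈ Ideal.span (f '' {k | j < k}))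
    (h : Fin r → R) (hs : ∑ j, h j * f j = 0) :
    ∃ s : Fin r → Fin r → R, (∀ j k, s j k = - s k j) ∧ (∀ j, s j j = 0) ∧
      ∀ j, h j = ∑ k, s j k * f k := by sorry

/-- G4c (uses G4a, G4b) -/
theorem koszul_homog (κ : Type) [Field κ] (r d : ℕ) (h : Fin r → MvPolynomial (Fin (r + 2)) κ)
    (hh : ∀ j, (h j).IsHomogeneous d) (hs : ∑ j, h j * g κ r j = 0) :
    h ∈ Submodule.span κ {v : Fin r → MvPolynomial (Fin (r + 2)) κ |
      ∃ (j k : Fin r) (m : Fin (r + 2) →₀ ℕ), j ≠ k ∧ m.degree + 2 = d ∧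
        v = Pi.single j (monomial m 1 * g κ r k) - Pi.single k (monomial m 1 * g κ r j)} := by
  sorry

/-- G5 -/
theorem linInd_of_residue (F : Type) [Field F] (V : ValuationSubring F) (ι ρ σ : Type)
    (w : ι → ρ → MvPolynomial σ V)
    (h : LinearIndependent (IsLocalRing.ResidueField V)
      (fun i r => MvPolynomial.map (IsLocalRing.residue V) (w i r))) :
    LinearIndependent F (fun i r => MvPolynomial.map (algebraMap V F) (w i r)) := by sorry

/-- G6a -/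
theorem finrank_homog (F : Type) [Field F] (n t : ℕ) :
    Module.Finite F (homogeneousSubmodule (Fin n) F t) ∧
    Module.finrank F (homogeneousSubmodule (Fin n) F t) =
      Set.ncard {m : Fin n →₀ ℕ | m.degree = t} := by sorry

/-- G6b -/
theorem HF_add_inf (F : Type) [Field F] (n : ℕ) (J : Ideal (MvPolynomial (Fin n) F)) (t : ℕ) :
    HF J t + Module.finrank F
      (J.restrictScalars F ⊓ homogeneousSubmodule (Fin n) F t : Submodule F _) =
      Module.finrank F (homogeneousSubmodule (Fin n) F t) := by sorry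

/-- G6c -/
theorem finrank_syz (F : Type) [Field F] (n r : ℕ) (f : Fin r → MvPolynomial (Fin n) F)
    (hf : ∀ j, (f j).IsHomogeneous 2) (d : ℕ) :
    Module.finrank F
      ((Ideal.span (Set.range f)).restrictScalars F ⊓ homogeneousSubmodule (Fin n) F (d + 2) :
        Submodule F _) + Module.finrank F (Syz f d) =
      r * Module.finrank F (homogeneousSubmodule (Fin n) F d) := by sorry

/-- G6d (uses G4c, G5) -/
theorem syz_le (F : Type) [Field F] (V : ValuationSubring F) (r : ℕ)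
    (f : Fin r → MvPolynomial (Fin (r + 2)) V) (hf : ∀ j, (f j).IsHomogeneous 2)
    (hred : ∀ j, MvPolynomial.map (IsLocalRing.residue V) (f j) = g _ r j) (d : ℕ) :
    Module.finrank (IsLocalRing.ResidueField V) (Syz (g (IsLocalRing.ResidueField V) r) d) ≤
      Module.finrank F (Syz (fun j => MvPolynomial.map (algebraMap V F) (f j)) d) := by sorry

/-- G6e (uses G1, G2b) -/
theorem card_le_HF_g (κ : Type) [Field κ] (r t : ℕ) : HF (gJ κ r) t = (Bset r t).ncard := by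
  sorry

/-- G6 (uses G6a-G6e) -/
theorem card_le_HF (F : Type) [Field F] (V : ValuationSubring F) (r : ℕ)
    (f : Fin r → MvPolynomial (Fin (r + 2)) V) (hf : ∀ j, (f j).IsHomogeneous 2)
    (hred : ∀ j, MvPolynomial.map (IsLocalRing.residue V) (f j) = g _ r j) (t : ℕ) :
    (Bset r t).ncard ≤
      HF (Ideal.span (Set.range fun j => MvPolynomial.map (algebraMap V F) (f j))) t := by sorry

/-- G7 (uses G1) -/
theorem exists_decomp (F : Type) [Field F] (V : ValuationSubring F) (r : ℕ)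
    (f : Fin r → MvPolynomial (Fin (r + 2)) V) (hf : ∀ j, (f j).IsHomogeneous 2)
    (hred : ∀ j, MvPolynomial.map (IsLocalRing.residue V) (f j) = g _ r j) (t : ℕ)
    (a : MvPolynomial (Fin (r + 2)) V) (ha : a.IsHomogeneous t) :
    ∃ (b : MvPolynomial (Fin (r + 2)) V) (h : Fin r → MvPolynomial (Fin (r + 2)) V),
      b ∈ Submodule.span V ((fun m => monomial m (1 : V)) '' Bset r t) ∧
      a = b + ∑ j, h j * f j := by sorry

/-- G8 (uses G2a, G2b, G6, G7) -/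
theorem flat (F : Type) [Field F] (V : ValuationSubring F) (r : ℕ)
    (f : Fin r → MvPolynomial (Fin (r + 2)) V) (hf : ∀ j, (f j).IsHomogeneous 2)
    (hred : ∀ j, MvPolynomial.map (IsLocalRing.residue V) (f j) = g _ r j) :
    (∀ t, HF (Ideal.span (Set.range fun j => MvPolynomial.map (algebraMap V F) (f j))) t =
      (Bset r t).ncard) ∧
    DomI (Ideal.span (Set.range fun j => MvPolynomial.map (algebraMap V F) (f j))) := by sorry

/-! ## C: curves -/

/-- C1 -/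
theorem homI_span (F : Type) [Field F] (n : ℕ) (S : Set (MvPolynomial (Fin n) F))
    (hS : ∀ f ∈ S, ∃ d, f.IsHomogeneous d) : HomI (Ideal.span S) := by sorry

/-- C2 -/
theorem HF_add (F : Type) [Field F] (n : ℕ) (I : Ideal (MvPolynomial (Fin n) F)) (hI : HomI I)
    (hD : DomI I) (d s : ℕ) (f : MvPolynomial (Fin n) F) (hf : f.IsHomogeneous d) (hfI : f ∉ I) :
    HF (I ⊔ Ideal.span {f}) (s + d) + HF I s = HF I (s + d) := by sorry

/-- C3 -/
theorem exists_linear (F : Type) [Field F] [Infinite F] (n : ℕ)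
    (J : Ideal (MvPolynomial (Fin n) F)) (c s1 : ℕ) (hJ : ∀ s, s1 ≤ s → HF J s ≤ c) :
    ∃ l : MvPolynomial (Fin n) F, l.IsHomogeneous 1 ∧ ∃ s0 : ℕ, ∀ s, s0 ≤ s →
      ∀ f : MvPolynomial (Fin n) F, f.IsHomogeneous s → f ∈ J ⊔ Ideal.span {l} := by sorry

/-- C4 -/
theorem dehom_mem (F : Type) [Field F] (n : ℕ) (J : Ideal (MvPolynomial (Fin n) F)) (hJ : HomI J)
    (l : MvPolynomial (Fin n) F) (hl : l.IsHomogeneous 1) (d : ℕ) (a : MvPolynomial (Fin n) F)
    (ha : a.IsHomogeneous d) (h : a ∈ J ⊔ Ideal.span {l - 1}) : ∃ N : ℕ, l ^ N * a ∈ J := by sorry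

/-- C5 (uses C4) -/
theorem finrank_dehom (F : Type) [Field F] (n : ℕ) (J : Ideal (MvPolynomial (Fin n) F))
    (hJ : HomI J) (c s1 : ℕ) (hc : ∀ s, s1 ≤ s → HF J s = c)
    (l : MvPolynomial (Fin n) F) (hl : l.IsHomogeneous 1) (s0 : ℕ)
    (hs : ∀ s, s0 ≤ s → ∀ f : MvPolynomial (Fin n) F, f.IsHomogeneous s →
      f ∈ J ⊔ Ideal.span {l}) :
    Module.Finite F (MvPolynomial (Fin n) F ⧸ (J ⊔ Ideal.span {l - 1})) ∧
    Module.finrank F (MvPolynomial (Fin n) F ⧸ (J ⊔ Ideal.span {l - 1})) = c := by sorry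

/-- C6 (uses C4) -/
theorem isDomain_dehom (F : Type) [Field F] (n : ℕ) (I : Ideal (MvPolynomial (Fin n) F))
    (hI : HomI I) (hD : DomI I) (l : MvPolynomial (Fin n) F) (hl : l.IsHomogeneous 1)
    (hlI : l ∉ I) : IsDomain (MvPolynomial (Fin n) F ⧸ (I ⊔ Ideal.span {l - 1})) := by sorry

/-- C7 (uses C4) -/
theorem infinite_dehom (F : Type) [Field F] (n : ℕ) (I : Ideal (MvPolynomial (Fin n) F))
    (hI : HomI I) (hD : DomI I) (l : MvPolynomial (Fin n) F) (hl : l.IsHomogeneous 1)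
    (hlI : l ∉ I) (hunb : ∀ c : ℕ, ∃ t, c ≤ HF I t) :
    ¬ Module.Finite F (MvPolynomial (Fin n) F ⧸ (I ⊔ Ideal.span {l - 1})) := by sorry

/-- C8 -/
theorem sg (F B M : Type) [Field F] [CommRing B] [Algebra F B] [Module.Finite F B]
    (p q : ℕ) (hPQ : PQ p q F) (hno : (B →ₐ[F] F) → False)
    [AddCommGroup M] [Module B M] [Module F M] [IsScalarTower F B M] [Module.Finite F M] :
    Module.finrank F M ∈ AddSubmonoid.closure ({p, q} : Set ℕ) := by sorry

/-- C9 -/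
theorem exists_max (F T : Type) [Field F] [CommRing T] [Algebra F T] [Module.Finite F T]
    (p q : ℕ) (hPQ : PQ p q F) (hno : (T →ₐ[F] F) → False)
    (hp : ¬ p ∣ Module.finrank F T) :
    ∃ 𝔪 : Ideal T, 𝔪.IsMaximal ∧ ∃ b : ℕ, 1 ≤ b ∧ Module.finrank F (T ⧸ 𝔪) = q ^ b := by sorry

/-- C10 -/
theorem chain (F R : Type) [Field F] [CommRing R] [IsDomain R] [IsNoetherianRing R] [Algebra F R]
    (hinf : ¬ Module.Finite F R) (𝔪 : Ideal R) (hm : 𝔪.IsMaximal)
    (hfin : Module.Finite F (R ⧸ 𝔪)) (α : ℕ) :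
    ∃ 𝔞 : Ideal R, 𝔪 ^ α ≤ 𝔞 ∧ Module.Finite F (R ⧸ 𝔞) ∧
      Module.finrank F (R ⧸ 𝔞) = α * Module.finrank F (R ⧸ 𝔪) := by sorry

/-- C11 (uses C10) -/
theorem chain_two (F R : Type) [Field F] [CommRing R] [IsDomain R] [IsNoetherianRing R]
    [Algebra F R] (hinf : ¬ Module.Finite F R) (𝔪 𝔫 : Ideal R) (hm : 𝔪.IsMaximal)
    (hn : 𝔫.IsMaximal) (hne : 𝔪 ≠ 𝔫) (hfm : Module.Finite F (R ⧸ 𝔪))
    (hfn : Module.Finite F (R ⧸ 𝔫)) (α β : ℕ) :
    ∃ 𝔠 : Ideal R, Module.Finite F (R ⧸ 𝔠) ∧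
      Module.finrank F (R ⧸ 𝔠) =
        α * Module.finrank F (R ⧸ 𝔪) + β * Module.finrank F (R ⧸ 𝔫) := by sorry

/-- C12 -/
theorem exists_t (p q a b r m0 T0 : ℕ) (hp : p.Prime) (hq : q.Prime) (hpq : p ≠ q) :
    ∃ t, T0 ≤ t ∧ ∃ α β : ℕ, α * q ^ b + β * p ^ a + m0 = 2 ^ r * t := by sorry

/-- C13 -/
theorem residual (F C : Type) [Field F] (n : ℕ) [CommRing C] [Algebra F C] [Module.Finite F C]
    (π : MvPolynomial (Fin n) F →ₐ[F] C) (hπ : Function.Surjective π)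
    (S : Set (MvPolynomial (Fin n) F)) (hS : ∀ f ∈ S, ∃ d, f.IsHomogeneous d)
    (hS0 : ∀ f ∈ S, π f = 0)
    (l1 : MvPolynomial (Fin n) F) (hl1 : l1.IsHomogeneous 1) (hπ1 : π l1 = 1)
    (l : MvPolynomial (Fin n) F) (hl : l.IsHomogeneous 1) (s0 : ℕ)
    (hs : ∀ s, s0 ≤ s → ∀ f : MvPolynomial (Fin n) F, f.IsHomogeneous s →
      f ∈ Ideal.span S ⊔ Ideal.span {l}) :
    ∃ ψ : (MvPolynomial (Fin n) F ⧸ (Ideal.span S ⊔ Ideal.span {l - 1})) →ₐ[F] C,
      Function.Surjective ψ := by sorry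

/-- C14 (uses C1–C13) -/
theorem theoremC (F : Type) [Field F] [CharZero F] (p q : ℕ) (hp : p.Prime) (hq : q.Prime)
    (hpq : p ≠ q) (hp2 : p ≠ 2) (hq2 : q ≠ 2) (hPQ : PQ p q F) (r : ℕ)
    (hr : r * 2 ^ (r - 1) + 1 ≤ (p * q - p - q) + 2 ^ r)
    (f : Fin r → MvPolynomial (Fin (r + 2)) F) (hf : ∀ j, (f j).IsHomogeneous 2)
    (hH : ∀ t, r ≤ t → HF (Ideal.span (Set.range f)) t + r * 2 ^ (r - 1) = 2 ^ r * t + 2 ^ r)
    (hD : DomI (Ideal.span (Set.range f))) :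
    ∃ v : Fin (r + 2) → F, v ≠ 0 ∧ ∀ j, eval v (f j) = 0 := by sorry

end Pool.Agent.H918R4
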