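import Pool.Agent.H918R4.Defs

set_option autoImplicit false

namespace Pool.Agent.H918R4

open MvPolynomial

/-- C1 -/
theorem homI_span (F : Type) [Field F] (n : ℕ) (S : Set (MvPolynomial (Fin n) F))
    (hS : ∀ f ∈ S, ∃ d, f.IsHomogeneous d) : HomI (Ideal.span S) := by
  classical
  letI : GradedAlgebra (homogeneousSubmodule (Fin n) F) := MvPolynomial.gradedAlgebra
  have h := Ideal.homogeneous_span (homogeneousSubmodule (Fin n) F) S (fun f hf => by
    obtain ⟨d, hd⟩ := hS f hf
    exact ⟨d, hd⟩)
  intro f hf s
  have h1 := h s hf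
  have h2 := MvPolynomial.decomposition.decompose'_apply f s
  have h3 : (homogeneousComponent s) f =
    ((DirectSum.decompose (homogeneousSubmodule (Fin n) F) f) s : MvPolynomial (Fin n) F) := h2.symm
  rw [h3]
  exact h1

end Pool.Agent.H918R4
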