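import Pool.Agent.H918R4.Defs

set_option autoImplicit false
namespace Pool.Agent.H918R4
namespace TC10

/-- one step: an ideal `𝔟` between `𝔪 𝔞` and `𝔞` with `𝔞 / 𝔟` isomorphic to `R / 𝔪` -/
lemma step (F R : Type) [Field F] [CommRing R] [IsDomain R] [IsNoetherianRing R] [Algebra F R]
    (hinf : ¬ Module.Finite F R) (𝔪 𝔞 : Ideal R) (hm : 𝔪.IsMaximal)
    (hfin : Module.Finite F (R ⧸ 𝔪)) (ha : Module.Finite F (R ⧸ 𝔞)) :
    ∃ 𝔟 : Ideal R, 𝔞 * 𝔪 ≤ 𝔟 ∧ Module.Finite F (R ⧸ 𝔟) ∧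
      Module.finrank F (R ⧸ 𝔟) = Module.finrank F (R ⧸ 𝔞) + Module.finrank F (R ⧸ 𝔪) := by
  classical
  have ha0 : 𝔞 ≠ ⊥ := by
    rintro rfl
    exact hinf (Module.Finite.equiv (AlgEquiv.quotientBot F R).toLinearEquiv)
  have hne : 𝔪 * 𝔞 < 𝔞 := by
    refine lt_of_le_of_ne Ideal.mul_le_right ?_
    intro h
    obtain ⟨r, hr1, hr2⟩ := Submodule.exists_sub_one_mem_and_smul_eq_zero_of_fg_of_le_smul 𝔪 𝔞
      (IsNoetherian.noetherian 𝔞) (by rw [smul_eq_mul, h])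
    obtain ⟨x, hx, hx0⟩ := Submodule.exists_mem_ne_zero_of_ne_bot ha0
    have := hr2 x hx
    rw [smul_eq_mul, mul_eq_zero] at this
    rcases this with h0 | h0
    · rw [h0] at hr1
      apply hm.ne_top
      rw [Ideal.eq_top_iff_one]
      have := 𝔪.neg_mem hr1
      simpa using this
    · exact hx0 h0
  -- a maximal ideal below `𝔞`
  obtain ⟨𝔟, hb, hbmax⟩ := WellFounded.has_min (wellFounded_gt (α := Ideal R))
    {𝔟 : Ideal R | 𝔪 * 𝔞 ≤ 𝔟 ∧ 𝔟 < 𝔞} ⟨𝔪 * 𝔞, le_rfl, hne⟩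
  obtain ⟨hb1, hb2⟩ := hb
  obtain ⟨x, hxa, hxb⟩ := SetLike.exists_of_lt hb2
  have hsup : 𝔟 ⊔ Ideal.span {x} = 𝔞 := by
    have hle : 𝔟 ⊔ Ideal.span {x} ≤ 𝔞 :=
      sup_le hb2.le ((Ideal.span_singleton_le_iff_mem _).2 hxa)
    by_contra hcon
    have hlt : 𝔟 ⊔ Ideal.span {x} < 𝔞 := lt_of_le_of_ne hle hcon
    have h2 : 𝔟 < 𝔟 ⊔ Ideal.span {x} := by
      refine lt_of_le_of_ne le_sup_left ?_
      intro h
      apply hxb
      rw [h]
      exact (le_sup_right : Ideal.span {x} ≤ _) (Ideal.mem_span_singleton_self x)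
    exact hbmax _ ⟨hb1.trans le_sup_left, hlt⟩ h2
  refine ⟨𝔟, by rw [mul_comm]; exact hb1, ?_⟩
  -- the maps
  let f : (R ⧸ 𝔟) →ₗ[R] (R ⧸ 𝔞) := Submodule.factor hb2.le
  have hf : Function.Surjective f := Submodule.factor_surjective hb2.le
  let g0 : R →ₗ[R] (R ⧸ 𝔟) := LinearMap.toSpanSingleton R (R ⧸ 𝔟) (Ideal.Quotient.mk 𝔟 x)
  have hg0 : ∀ r, g0 r = Ideal.Quotient.mk 𝔟 (r * x) := fun r => by
    show r • (Ideal.Quotient.mk 𝔟 x) = _
    rw [map_mul]; rfl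
  have hker : LinearMap.ker g0 = 𝔪 := by
    symm
    apply hm.eq_of_le
    · intro h
      have : (1 : R) ∈ LinearMap.ker g0 := by rw [h]; trivial
      rw [LinearMap.mem_ker, hg0, one_mul, Ideal.Quotient.eq_zero_iff_mem] at this
      exact hxb this
    · intro r hr
      rw [LinearMap.mem_ker, hg0, Ideal.Quotient.eq_zero_iff_mem]
      exact hb1 (Ideal.mul_mem_mul hr hxa)
  let g : (R ⧸ 𝔪) →ₗ[R] (R ⧸ 𝔟) := Submodule.liftQ 𝔪 g0 hker.ge
  have hg : Function.Injective g := by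
    rw [← LinearMap.ker_eq_bot]
    exact Submodule.ker_liftQ_eq_bot' 𝔪 g0 hker.symm
  have hrange : LinearMap.range g = LinearMap.ker f := by
    rw [Submodule.range_liftQ]
    ext y
    obtain ⟨y, rfl⟩ := Ideal.Quotient.mk_surjective y
    have hfy : f (Ideal.Quotient.mk 𝔟 y) = Ideal.Quotient.mk 𝔞 y := rfl
    rw [LinearMap.mem_ker, hfy, Ideal.Quotient.eq_zero_iff_mem, LinearMap.mem_range]
    constructor
    · rintro ⟨r, hr⟩
      rw [hg0, Ideal.Quotient.eq] at hr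
      have h1 : r * x ∈ 𝔞 := 𝔞.mul_mem_left r hxa
      have h2 := 𝔞.sub_mem h1 (hb2.le hr)
      simpa using h2
    · intro hy
      rw [← hsup, Submodule.mem_sup] at hy
      obtain ⟨b, hb, c, hc, rfl⟩ := hy
      rw [Ideal.mem_span_singleton'] at hc
      obtain ⟨r, rfl⟩ := hc
      refine ⟨r, ?_⟩
      rw [hg0, Ideal.Quotient.eq]
      have : r * x - (b + r * x) = -b := by ring
      rw [this]
      exact 𝔟.neg_mem hb
  let fF : (R ⧸ 𝔟) →ₗ[F] (R ⧸ 𝔞) := f.restrictScalars F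
  let gF : (R ⧸ 𝔪) →ₗ[F] (R ⧸ 𝔟) := g.restrictScalars F
  have hrangeF : LinearMap.range gF = LinearMap.ker fF := by
    ext y
    have := SetLike.ext_iff.1 hrange y
    exact this
  have hgF : Function.Injective gF := hg
  have hfF : Function.Surjective fF := hf
  have fin1 : Module.Finite F (LinearMap.ker fF) := by
    rw [← hrangeF]
    infer_instance
  have fin2 : Module.Finite F ((R ⧸ 𝔟) ⧸ LinearMap.ker fF) :=
    Module.Finite.equiv (fF.quotKerEquivOfSurjective hfF).symm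
  have fin3 : Module.Finite F (R ⧸ 𝔟) := Module.Finite.of_submodule_quotient (LinearMap.ker fF)
  refine ⟨fin3, ?_⟩
  rw [← LinearMap.finrank_range_add_finrank_ker fF, LinearMap.range_eq_top.2 hfF, finrank_top,
    ← hrangeF, LinearMap.finrank_range_of_inj hgF]

end TC10

/-- C10 -/
theorem chain (F R : Type) [Field F] [CommRing R] [IsDomain R] [IsNoetherianRing R] [Algebra F R]
    (hinf : ¬ Module.Finite F R) (𝔪 : Ideal R) (hm : 𝔪.IsMaximal)
    (hfin : Module.Finite F (R ⧸ 𝔪)) (α : ℕ) :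
    ∃ 𝔞 : Ideal R, 𝔪 ^ α ≤ 𝔞 ∧ Module.Finite F (R ⧸ 𝔞) ∧
      Module.finrank F (R ⧸ 𝔞) = α * Module.finrank F (R ⧸ 𝔪) := by
  induction α with
  | zero =>
    refine ⟨⊤, le_top, ?_, ?_⟩
    · infer_instance
    · rw [zero_mul]
      exact Module.finrank_zero_of_subsingleton
  | succ α ih =>
    obtain ⟨𝔞, h1, h2, h3⟩ := ih
    obtain ⟨𝔟, h4, h5, h6⟩ := TC10.step F R hinf 𝔪 𝔞 hm hfin h2
    refine ⟨𝔟, ?_, h5, ?_⟩
    · rw [pow_succ]
      exact (Ideal.mul_mono_left h1).trans h4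
    · rw [h6, h3]
      ring

end Pool.Agent.H918R4
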