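import Pool.Agent.H918R4.Defs
import Pool.Agent.H918R4.TC10

set_option autoImplicit false
namespace Pool.Agent.H918R4

/-- C11 (uses C10) -/
theorem chain_two (F R : Type) [Field F] [CommRing R] [IsDomain R] [IsNoetherianRing R]
    [Algebra F R] (hinf : ¬ Module.Finite F R) (𝔪 𝔫 : Ideal R) (hm : 𝔪.IsMaximal)
    (hn : 𝔫.IsMaximal) (hne : 𝔪 ≠ 𝔫) (hfm : Module.Finite F (R ⧸ 𝔪))
    (hfn : Module.Finite F (R ⧸ 𝔫)) (α β : ℕ) :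
    ∃ 𝔠 : Ideal R, Module.Finite F (R ⧸ 𝔠) ∧
      Module.finrank F (R ⧸ 𝔠) =
        α * Module.finrank F (R ⧸ 𝔪) + β * Module.finrank F (R ⧸ 𝔫) := by
  obtain ⟨𝔞, ha1, ha2, ha3⟩ := chain F R hinf 𝔪 hm hfm α
  obtain ⟨𝔟, hb1, hb2, hb3⟩ := chain F R hinf 𝔫 hn hfn β
  have hcop0 : IsCoprime 𝔪 𝔫 := Ideal.isCoprime_of_isMaximal hne
  have hcop : IsCoprime 𝔞 𝔟 := by
    have h1 : IsCoprime (𝔪 ^ α) (𝔫 ^ β) := hcop0.pow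
    rw [Ideal.isCoprime_iff_sup_eq] at h1 ⊢
    exact top_le_iff.1 (h1.ge.trans (sup_le_sup ha1 hb1))
  let e : (R ⧸ (𝔞 ⊓ 𝔟)) ≃ₐ[F] ((R ⧸ 𝔞) × (R ⧸ 𝔟)) :=
    AlgEquiv.ofRingEquiv (f := Ideal.quotientInfEquivQuotientProd 𝔞 𝔟 hcop) (fun r => rfl)
  refine ⟨𝔞 ⊓ 𝔟, Module.Finite.equiv e.symm.toLinearEquiv, ?_⟩
  rw [e.toLinearEquiv.finrank_eq, Module.finrank_prod, ha3, hb3]

end Pool.Agent.H918R4
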