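import Pool.Agent.H918R4.Defs

set_option autoImplicit false
namespace Pool.Agent.H918R4
open MvPolynomial

/-- C12 -/
theorem exists_t (p q a b r m0 T0 : ℕ) (hp : p.Prime) (hq : q.Prime) (hpq : p ≠ q) :
    ∃ t, T0 ≤ t ∧ ∃ α β : ℕ, α * q ^ b + β * p ^ a + m0 = 2 ^ r * t := by
  set P := p ^ a with hP
  set Q := q ^ b with hQ
  have hcop : Nat.Coprime Q P :=
    Nat.Coprime.pow b a ((Nat.coprime_primes hq hp).mpr (Ne.symm hpq))
  set t := T0 + m0 + Q * P with ht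
  have h1 : t ≤ 2 ^ r * t := Nat.le_mul_of_pos_left t (by positivity)
  have h2 : Q.pred * P.pred ≤ Q * P := Nat.mul_le_mul (Nat.pred_le _) (Nat.pred_le _)
  obtain ⟨α, β, h⟩ := Nat.exists_add_mul_eq_of_gcd_dvd_of_mul_pred_le Q P (2 ^ r * t - m0)
    (by rw [hcop]; exact one_dvd _) (by omega)
  refine ⟨t, by omega, α, β, ?_⟩
  omega

end Pool.Agent.H918R4
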