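import Pool.Agent.H918R4.Defs

/-! Task C13 -/
set_option autoImplicit false
namespace Pool.Agent.H918R4
open MvPolynomial

namespace TC13

theorem aeval_smul {F C : Type} [Field F] [CommRing C] [Algebra F C] {n d : ℕ}
    (f : MvPolynomial (Fin n) F) (hf : f.IsHomogeneous d) (x : Fin n → C) (lam : C) :
    aeval (fun i => x i * lam) f = lam ^ d * aeval x f := by
  rw [aeval_def, aeval_def, eval₂_eq, eval₂_eq, Finset.mul_sum]
  apply Finset.sum_congr rfl
  intro m hm
  have h1 : ∑ i ∈ m.support, m i = d := by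
    have := hf (mem_support_iff.1 hm)
    rw [Finsupp.weight_apply, Finsupp.sum] at this
    simpa using this
  have h2 : ∏ i ∈ m.support, (x i * lam) ^ m i = lam ^ d * ∏ i ∈ m.support, x i ^ m i := by
    rw [← h1, ← Finset.prod_pow_eq_pow_sum, ← Finset.prod_mul_distrib]
    apply Finset.prod_congr rfl
    intro i _
    rw [mul_pow, mul_comm]
  rw [h2]; ring

end TC13

/-- C13 -/
theorem residual (F C : Type) [Field F] (n : ℕ) [CommRing C] [Algebra F C] [Module.Finite F C]
    (π : MvPolynomial (Fin n) F →ₐ[F] C) (hπ : Function.Surjective π)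
    (S : Set (MvPolynomial (Fin n) F)) (hS : ∀ f ∈ S, ∃ d, f.IsHomogeneous d)
    (hS0 : ∀ f ∈ S, π f = 0)
    (l1 : MvPolynomial (Fin n) F) (hl1 : l1.IsHomogeneous 1) (hπ1 : π l1 = 1)
    (l : MvPolynomial (Fin n) F) (hl : l.IsHomogeneous 1) (s0 : ℕ)
    (hs : ∀ s, s0 ≤ s → ∀ f : MvPolynomial (Fin n) F, f.IsHomogeneous s →
      f ∈ Ideal.span S ⊔ Ideal.span {l}) :
    ∃ ψ : (MvPolynomial (Fin n) F ⧸ (Ideal.span S ⊔ Ideal.span {l - 1})) →ₐ[F] C,
      Function.Surjective ψ := by
  classical
  -- the inverse of `π l`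
  obtain ⟨lam, hlam⟩ : ∃ lam : C, lam * π l = 1 := by
    have h1 : l1 ^ s0 ∈ Ideal.span S ⊔ Ideal.span {l} := by
      apply hs s0 le_rfl
      simpa using hl1.pow s0
    have h2 : Ideal.span S ⊔ Ideal.span {l} ≤ (Ideal.span {π l}).comap π := by
      refine sup_le ?_ ?_
      · rw [Ideal.span_le]
        intro f hf
        show π f ∈ Ideal.span {π l}
        rw [hS0 f hf]
        exact Ideal.zero_mem _
      · rw [Ideal.span_le]
        intro f hf
        rw [Set.mem_singleton_iff] at hf
        subst hf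
        exact Ideal.subset_span rfl
    have h3 : π (l1 ^ s0) ∈ Ideal.span {π l} := h2 h1
    rw [map_pow, hπ1, one_pow] at h3
    obtain ⟨a, ha⟩ := Ideal.mem_span_singleton'.1 h3
    exact ⟨a, ha⟩
  set ψ0 : MvPolynomial (Fin n) F →ₐ[F] C := aeval (fun i => π (X i) * lam) with hψ0
  have hπa : ∀ f, aeval (fun i => π (X i)) f = π f := by
    intro f
    have : (aeval (fun i => π (X i)) : MvPolynomial (Fin n) F →ₐ[F] C) = π :=
      (aeval_unique π).symm
    rw [this]
  have hψ : ∀ (f : MvPolynomial (Fin n) F) (d : ℕ), f.IsHomogeneous d →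
      ψ0 f = lam ^ d * π f := by
    intro f d hf
    rw [hψ0, TC13.aeval_smul f hf, hπa]
  have hker : ∀ a ∈ Ideal.span S ⊔ Ideal.span {l - 1}, ψ0 a = 0 := by
    have : Ideal.span S ⊔ Ideal.span {l - 1} ≤ RingHom.ker ψ0 := by
      refine sup_le ?_ ?_
      · rw [Ideal.span_le]
        intro f hf
        obtain ⟨d, hd⟩ := hS f hf
        show ψ0 f = 0
        rw [hψ f d hd, hS0 f hf, mul_zero]
      · rw [Ideal.span_le]
        intro f hf
        rw [Set.mem_singleton_iff] at hf
        subst hf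
        show ψ0 (l - 1) = 0
        rw [map_sub, map_one, hψ l 1 hl, pow_one, hlam, sub_self]
    intro a ha
    exact this ha
  refine ⟨Ideal.Quotient.liftₐ _ ψ0 hker, ?_⟩
  -- surjectivity
  have hlamA : lam ∈ ψ0.range := ⟨l1, by
    show ψ0 l1 = lam
    rw [hψ l1 1 hl1, hπ1, pow_one, mul_one]⟩
  have hlA : π l ∈ ψ0.range := by
    -- multiplication by `lam` on the range
    let A : Submodule F C := Subalgebra.toSubmodule ψ0.range
    have hmem : ∀ x ∈ A, lam * x ∈ A := fun x hx => ψ0.range.mul_mem hlamA hx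
    let μ : A →ₗ[F] A := (LinearMap.mulLeft F lam).restrict hmem
    have hinj : Function.Injective μ := by
      intro x y hxy
      have h1 : lam * (x : C) = lam * (y : C) := congrArg Subtype.val hxy
      have h2 : (x : C) = (y : C) := by
        have h3 : π l * (lam * (x : C)) = π l * (lam * (y : C)) := by rw [h1]
        rwa [← mul_assoc, ← mul_assoc, mul_comm (π l) lam, hlam, one_mul, one_mul] at h3
      exact Subtype.ext h2
    have hsurj : Function.Surjective μ := LinearMap.injective_iff_surjective.1 hinj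
    obtain ⟨x, hx⟩ := hsurj ⟨1, ψ0.range.one_mem⟩
    have h1 : lam * (x : C) = 1 := congrArg Subtype.val hx
    have h2 : (x : C) = π l := by
      have h3 : π l * (lam * (x : C)) = π l * 1 := by rw [h1]
      rwa [← mul_assoc, mul_comm (π l) lam, hlam, one_mul, mul_one] at h3
    rw [← h2]
    exact x.2
  have hXA : ∀ i, π (X i) ∈ ψ0.range := by
    intro i
    have h1 : ψ0 (X i) * π l = π (X i) := by
      rw [hψ0, aeval_X, mul_assoc, hlam, mul_one]
    rw [← h1]
    exact ψ0.range.mul_mem ⟨X i, rfl⟩ hlA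
  have hall : ∀ f, π f ∈ ψ0.range := by
    intro f
    induction f using MvPolynomial.induction_on with
    | C a =>
      have : π (MvPolynomial.C a) = algebraMap F C a := by
        rw [← MvPolynomial.algebraMap_eq]; exact π.commutes a
      rw [this]
      exact ψ0.range.algebraMap_mem a
    | add p q hp hq => rw [map_add]; exact ψ0.range.add_mem hp hq
    | mul_X p i hp => rw [map_mul]; exact ψ0.range.mul_mem hp (hXA i)
  intro c
  obtain ⟨f, rfl⟩ := hπ c
  obtain ⟨a, ha⟩ := hall f
  exact ⟨Ideal.Quotient.mk _ a, ha⟩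

end Pool.Agent.H918R4
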