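import Pool.Agent.H918R4.Defs

set_option autoImplicit false

namespace Pool.Agent.H918R4

open MvPolynomial

namespace TC2

theorem fin_homog (F : Type) [Field F] (n t : ℕ) :
    Module.Finite F (homogeneousSubmodule (Fin n) F t) := by
  rw [homogeneousSubmodule_eq_finsupp_supported]
  have hfin : Finite {d : Fin n →₀ ℕ | d.degree = t} := by
    have h1 : {d : Fin n →₀ ℕ | d.degree = t} ⊆
        Set.Iic (Finsupp.equivFunOnFinite.symm (fun _ => t)) := by
      intro d hd
      rw [Set.mem_Iic]
      intro i
      have := Finsupp.le_degree i d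
      simp only [Set.mem_ofPred_eq] at hd
      simpa [hd] using this
    exact (Set.finite_Iic _).subset h1
  exact Module.Finite.equiv (AddMonoidAlgebra.supportedEquivFinsupp (R := F) (S := F)
    {d : Fin n →₀ ℕ | d.degree = t}).symm

theorem fin_AS (F : Type) [Field F] (n : ℕ) (J : Ideal (MvPolynomial (Fin n) F)) (t : ℕ) :
    Module.Finite F (AS J t) := by
  have := fin_homog F n t
  unfold AS
  infer_instance

theorem comp_mul (F : Type) [Field F] (n : ℕ) (f h : MvPolynomial (Fin n) F) (s d : ℕ)
    (hf : f.IsHomogeneous d) :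
    homogeneousComponent (s + d) (f * h) = f * homogeneousComponent s h := by
  have h1 : f * h = ∑ i ∈ Finset.range (h.totalDegree + 1), f * homogeneousComponent i h := by
    rw [← Finset.mul_sum, sum_homogeneousComponent]
  conv_lhs => rw [h1]
  rw [map_sum]
  have h2 : ∀ i ∈ Finset.range (h.totalDegree + 1),
      homogeneousComponent (s + d) (f * homogeneousComponent i h) =
        if i = s then f * homogeneousComponent s h else 0 := by
    intro i _
    have h3 : (f * homogeneousComponent i h).IsHomogeneous (d + i) :=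
      hf.mul (homogeneousComponent_isHomogeneous i h)
    by_cases hi : i = s
    · subst hi
      rw [if_pos rfl]
      rw [homogeneousComponent_of_mem ((mem_homogeneousSubmodule _ _).mpr h3)]
      rw [if_pos (by omega)]
    · rw [if_neg hi]
      rw [homogeneousComponent_of_mem ((mem_homogeneousSubmodule _ _).mpr h3)]
      rw [if_neg (by omega)]
  rw [Finset.sum_congr rfl h2, Finset.sum_ite_eq']
  split_ifs with hs
  · rfl
  · rw [Finset.mem_range] at hs
    rw [homogeneousComponent_eq_zero s h (by omega), mul_zero]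

end TC2

open TC2

/-- C2 -/
theorem HF_add (F : Type) [Field F] (n : ℕ) (I : Ideal (MvPolynomial (Fin n) F)) (hI : HomI I)
    (hD : DomI I) (d s : ℕ) (f : MvPolynomial (Fin n) F) (hf : f.IsHomogeneous d) (hfI : f ∉ I) :
    HF (I ⊔ Ideal.span {f}) (s + d) + HF I s = HF I (s + d) := by
  classical
  set J' := I ⊔ Ideal.span {f} with hJ'
  have hle : I ≤ J' := le_sup_left
  have := fin_AS F n I (s + d)
  have := fin_AS F n I s
  let π : (MvPolynomial (Fin n) F ⧸ I) →ₗ[F] (MvPolynomial (Fin n) F ⧸ J') :=
    (Ideal.Quotient.factorₐ F hle).toLinearMap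
  have hcomp : π ∘ₗ (Ideal.Quotient.mkₐ F I).toLinearMap =
      (Ideal.Quotient.mkₐ F J').toLinearMap := by
    apply LinearMap.ext
    intro x
    rfl
  let p' : AS I (s + d) →ₗ[F] (MvPolynomial (Fin n) F ⧸ J') := π.domRestrict (AS I (s + d))
  have hr : LinearMap.range p' = AS J' (s + d) := by
    show LinearMap.range (π.domRestrict (AS I (s + d))) = _
    rw [LinearMap.range_domRestrict]
    unfold AS
    rw [← Submodule.map_comp, hcomp]
  let mulf : (MvPolynomial (Fin n) F ⧸ I) →ₗ[F] (MvPolynomial (Fin n) F ⧸ I) :=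
    LinearMap.mulLeft F (Ideal.Quotient.mk I f)
  have hmaps : ∀ x ∈ AS I s, mulf x ∈ AS I (s + d) := by
    intro x hx
    obtain ⟨h, hh, rfl⟩ := hx
    refine ⟨f * h, ?_, ?_⟩
    · have := hf.mul ((mem_homogeneousSubmodule _ _).mp hh)
      rw [add_comm] at this
      exact this
    · simp [mulf]
  let μ : AS I s →ₗ[F] AS I (s + d) := mulf.restrict hmaps
  have hinj : Function.Injective μ := by
    rw [← LinearMap.ker_eq_bot, LinearMap.ker_eq_bot']
    rintro ⟨x, hx⟩ h0
    obtain ⟨h, hh, rfl⟩ := hx
    have h1 : Ideal.Quotient.mk I (f * h) = 0 := by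
      have := congrArg Subtype.val h0
      simpa [μ, mulf] using this
    rw [Ideal.Quotient.eq_zero_iff_mem] at h1
    rcases hD d s f h hf ((mem_homogeneousSubmodule _ _).mp hh) h1 with h2 | h2
    · exact absurd h2 hfI
    · apply Subtype.ext
      show Ideal.Quotient.mk I h = 0
      exact Ideal.Quotient.eq_zero_iff_mem.mpr h2
  have hker : LinearMap.range μ = LinearMap.ker p' := by
    apply le_antisymm
    · rintro _ ⟨⟨x, hx⟩, rfl⟩
      obtain ⟨h, hh, rfl⟩ := hx
      rw [LinearMap.mem_ker]
      show Ideal.Quotient.mk J' (f * h) = 0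
      rw [Ideal.Quotient.eq_zero_iff_mem]
      exact Ideal.mul_mem_right _ _ (le_sup_right (a := I) (Ideal.mem_span_singleton_self f))
    · rintro ⟨x, hx⟩ h0
      obtain ⟨a, ha, rfl⟩ := hx
      rw [LinearMap.mem_ker] at h0
      have h1 : Ideal.Quotient.mk J' a = 0 := h0
      rw [Ideal.Quotient.eq_zero_iff_mem, hJ', Submodule.mem_sup] at h1
      obtain ⟨i, hi, z, hz, hiz⟩ := h1
      obtain ⟨h, rfl⟩ := Ideal.mem_span_singleton'.mp hz
      have ha' : homogeneousComponent (s + d) a = a := by
        rw [homogeneousComponent_of_mem ha, if_pos rfl]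
      have h2 : a = homogeneousComponent (s + d) i + f * homogeneousComponent s h := by
        rw [← comp_mul F n f h s d hf, ← map_add, mul_comm f h, hiz, ha']
      refine ⟨⟨Ideal.Quotient.mk I (homogeneousComponent s h),
        ⟨homogeneousComponent s h, (mem_homogeneousSubmodule _ _).mpr
          (homogeneousComponent_isHomogeneous s h), rfl⟩⟩, ?_⟩
      apply Subtype.ext
      show Ideal.Quotient.mk I f * Ideal.Quotient.mk I (homogeneousComponent s h) =
        Ideal.Quotient.mk I a
      rw [← map_mul]
      conv_rhs => rw [h2]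
      rw [map_add, Ideal.Quotient.eq_zero_iff_mem.mpr (hI i hi (s + d)), zero_add]
  have hrank := LinearMap.finrank_range_add_finrank_ker p'
  rw [hr, ← hker, LinearMap.finrank_range_of_inj hinj] at hrank
  exact hrank

end Pool.Agent.H918R4
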