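import Pool.Agent.H918R4.Defs

/-! Task C3: a linear form that makes the quotient finite-dimensional. -/
set_option autoImplicit false
namespace Pool.Agent.H918R4
open MvPolynomial

namespace TC3

variable {F : Type} [Field F] {n : ℕ}

theorem fd_homog (s : ℕ) : Module.Finite F (homogeneousSubmodule (Fin n) F s) :=
  Module.Finite.iff_fg.2 (homogeneousSubmodule_fg (Fin n) F s)

theorem fd_AS (J : Ideal (MvPolynomial (Fin n) F)) (s : ℕ) : Module.Finite F (AS J s) := by
  haveI := fd_homog (F := F) (n := n) s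
  unfold AS
  infer_instance

/-- the Hilbert function decreases -/
theorem HF_anti {J P : Ideal (MvPolynomial (Fin n) F)} (h : J ≤ P) (s : ℕ) : HF P s ≤ HF J s := by
  have e : AS P s = (AS J s).map (Ideal.Quotient.factorₐ F h).toLinearMap := by
    unfold AS
    rw [← Submodule.map_comp]
    rfl
  unfold HF
  rw [e]
  haveI := fd_AS J s
  exact Submodule.finrank_map_le _ _

theorem step (P : Ideal (MvPolynomial (Fin n) F)) (hP : P.IsPrime) (l : MvPolynomial (Fin n) F)
    (hl : l.IsHomogeneous 1) (hlP : l ∉ P) (s : ℕ) (h : HF P (s + 1) ≤ HF P s)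
    (f : MvPolynomial (Fin n) F) (hf : f.IsHomogeneous (s + 1)) : f ∈ P ⊔ Ideal.span {l} := by
  let μ : (MvPolynomial (Fin n) F ⧸ P) →ₗ[F] (MvPolynomial (Fin n) F ⧸ P) :=
    LinearMap.mulLeft F (Ideal.Quotient.mk P l)
  have hl0 : Ideal.Quotient.mk P l ≠ 0 := by
    rw [Ne, Ideal.Quotient.eq_zero_iff_mem]; exact hlP
  have hinj : Function.Injective μ := by
    intro a b hab
    exact mul_left_cancel₀ hl0 hab
  have hle : (AS P s).map μ ≤ AS P (s + 1) := by
    rintro _ ⟨_, ⟨g, hg, rfl⟩, rfl⟩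
    refine ⟨l * g, ?_, ?_⟩
    · rw [add_comm]; exact hl.mul hg
    · change Ideal.Quotient.mk P (l * g) = Ideal.Quotient.mk P l * Ideal.Quotient.mk P g
      rw [map_mul]
  have heq : (AS P s).map μ = AS P (s + 1) := by
    haveI := fd_AS P (s + 1)
    apply Submodule.eq_of_le_of_finrank_le hle
    rw [(Submodule.equivMapOfInjective μ hinj (AS P s)).finrank_eq.symm]
    exact h
  have hmem : Ideal.Quotient.mk P f ∈ (AS P s).map μ := by rw [heq]; exact ⟨f, hf, rfl⟩
  obtain ⟨_, ⟨g, hg, rfl⟩, h'⟩ := hmem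
  have h2 : f - l * g ∈ P := by
    rw [← Ideal.Quotient.eq_zero_iff_mem, map_sub, map_mul, ← h']
    exact sub_self _
  have e : f = (f - l * g) + g * l := by ring
  rw [e]
  exact Submodule.add_mem_sup h2 (Ideal.mul_mem_left _ _ (Ideal.mem_span_singleton_self l))

/-- some `s ≥ s1` with `u (s + 1) ≤ u s` -/
theorem exists_step (u : ℕ → ℕ) (c s1 : ℕ) (h : ∀ s, s1 ≤ s → u s ≤ c) :
    ∃ s, s1 ≤ s ∧ u (s + 1) ≤ u s := by
  by_contra hne
  push Not at hne
  have key : ∀ k, k ≤ u (s1 + k) := by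
    intro k
    induction k with
    | zero => exact Nat.zero_le _
    | succ k ih =>
      have := hne (s1 + k) (Nat.le_add_right _ _)
      rw [← add_assoc]; omega
  have h1 := key (c + 1)
  have h2 := h (s1 + (c + 1)) (Nat.le_add_right _ _)
  omega

/-- a linear form outside all minimal primes that do not contain all linear forms -/
theorem exists_l [Infinite F] (J : Ideal (MvPolynomial (Fin n) F)) :
    ∃ l : MvPolynomial (Fin n) F, l.IsHomogeneous 1 ∧ ∀ P ∈ J.minimalPrimes,
      l ∉ P ∨ ∀ f : MvPolynomial (Fin n) F, f.IsHomogeneous 1 → f ∈ P := by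
  classical
  have hfin := J.finite_minimalPrimes_of_isNoetherianRing (MvPolynomial (Fin n) F)
  let V := homogeneousSubmodule (Fin n) F 1
  let φ : Ideal (MvPolynomial (Fin n) F) → Subspace F V := fun P =>
    (P.restrictScalars F).comap V.subtype
  let T : Finset (Subspace F V) := (hfin.toFinset.image φ).filter (fun p => p ≠ ⊤)
  have hT : ⊤ ∉ T := by
    intro h
    exact (Finset.mem_filter.1 h).2 rfl
  have h1 := Subspace.biUnion_ne_univ_of_top_notMem hT
  obtain ⟨l, hl⟩ := (Set.ne_univ_iff_exists_notMem _).1 h1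
  refine ⟨l, l.2, fun P hP => ?_⟩
  by_cases htop : φ P = ⊤
  · right
    intro f hf
    have : (⟨f, hf⟩ : V) ∈ φ P := by rw [htop]; trivial
    exact this
  · left
    intro hlP
    apply hl
    rw [Set.mem_iUnion₂]
    exact ⟨φ P, Finset.mem_filter.2 ⟨Finset.mem_image_of_mem _ (hfin.mem_toFinset.2 hP), htop⟩,
      hlP⟩

end TC3

open TC3 in
/-- C3 -/
theorem exists_linear (F : Type) [Field F] [Infinite F] (n : ℕ)
    (J : Ideal (MvPolynomial (Fin n) F)) (c s1 : ℕ) (hJ : ∀ s, s1 ≤ s → HF J s ≤ c) :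
    ∃ l : MvPolynomial (Fin n) F, l.IsHomogeneous 1 ∧ ∃ s0 : ℕ, ∀ s, s0 ≤ s →
      ∀ f : MvPolynomial (Fin n) F, f.IsHomogeneous s → f ∈ J ⊔ Ideal.span {l} := by
  obtain ⟨l, hl, hmin⟩ := exists_l J
  refine ⟨l, hl, ?_⟩
  set Q := J ⊔ Ideal.span {l} with hQ
  have hX : ∀ j : Fin n, (X j : MvPolynomial (Fin n) F) ∈ Q.radical := by
    intro j
    rw [Ideal.radical_eq_sInf, Ideal.mem_sInf]
    rintro R ⟨hR, hRp⟩
    have hJR : J ≤ R := le_sup_left.trans hR
    have hlR : l ∈ R := hR (le_sup_right (a := J) (Ideal.mem_span_singleton_self l))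
    haveI := hRp
    obtain ⟨P, hP, hPR⟩ := Ideal.exists_minimalPrimes_le hJR
    rcases hmin P hP with h | h
    · have hPp : P.IsPrime := hP.1.1
      obtain ⟨s, hs, hs'⟩ := exists_step (HF P) c s1 (fun s hs =>
        (HF_anti hP.1.2 s).trans (hJ s hs))
      have h1 := step P hPp l hl h s hs' (X j ^ (s + 1)) (by
        simpa using (isHomogeneous_X F j).pow (s + 1))
      have h2 : (X j : MvPolynomial (Fin n) F) ^ (s + 1) ∈ R := by
        refine (sup_le hPR ?_) h1
        rw [Ideal.span_singleton_le_iff_mem]; exact hlR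
      exact hRp.mem_of_pow_mem _ h2
    · exact hPR (h _ (isHomogeneous_X F j))
  choose N hN using hX
  refine ⟨(∑ j, N j) + 1, fun s hs f hf => ?_⟩
  rw [f.as_sum]
  refine Ideal.sum_mem _ (fun m hm => ?_)
  have hdeg : m.degree = s := by
    have := hf (mem_support_iff.1 hm)
    rw [← this, Finsupp.degree_eq_weight_one]
    rfl
  have : ∃ j, N j ≤ m j := by
    by_contra hne
    push Not at hne
    have h1 : ∑ j, m j ≤ ∑ j, N j := Finset.sum_le_sum (fun j _ => (hne j).le)
    have h2 : m.degree = ∑ j, m j := Finsupp.degree_eq_sum m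
    omega
  obtain ⟨j, hj⟩ := this
  have e : monomial m (coeff m f) =
      monomial (m - Finsupp.single j (N j)) (coeff m f) * X j ^ N j := by
    rw [X_pow_eq_monomial, monomial_mul, mul_one, tsub_add_cancel_of_le]
    rw [Finsupp.single_le_iff]; exact hj
  rw [e]
  exact Ideal.mul_mem_left _ _ (hN j)

end Pool.Agent.H918R4
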