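import Mathlib
import Pool.Agent.H918R4.Defs

/-! Task C4: `dehom_mem`. -/
set_option autoImplicit false
namespace Pool.Agent.H918R4
open MvPolynomial

namespace TC4

attribute [local instance] MvPolynomial.gradedAlgebra

theorem dec_eq {F : Type} [Field F] {n : ℕ} (x : MvPolynomial (Fin n) F) (e : ℕ) :
    ((DirectSum.decompose (homogeneousSubmodule (Fin n) F) x e : homogeneousSubmodule (Fin n) F e) :
      MvPolynomial (Fin n) F) = homogeneousComponent e x :=
  decomposition.decompose'_apply x e

theorem comp_mul_succ {F : Type} [Field F] {n : ℕ} (l : MvPolynomial (Fin n) F)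
    (hl : l.IsHomogeneous 1) (h : MvPolynomial (Fin n) F) (e : ℕ) :
    homogeneousComponent (e + 1) (l * h) = l * homogeneousComponent e h := by
  have h1 := DirectSum.coe_decompose_mul_add_of_left_mem
    (𝒜 := homogeneousSubmodule (Fin n) F) (i := 1) (j := e) (a := l) (b := h) hl
  rw [dec_eq, dec_eq] at h1
  rw [add_comm]
  exact h1

theorem comp_mul_zero {F : Type} [Field F] {n : ℕ} (l : MvPolynomial (Fin n) F)
    (hl : l.IsHomogeneous 1) (h : MvPolynomial (Fin n) F) :
    homogeneousComponent 0 (l * h) = 0 := by
  have h1 := DirectSum.coe_decompose_mul_of_left_mem_of_not_le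
    (𝒜 := homogeneousSubmodule (Fin n) F) (i := 1) (n := 0) (a := l) (b := h) hl (by norm_num)
  rw [dec_eq] at h1
  exact h1

end TC4

open TC4 in
/-- C4 -/
theorem dehom_mem (F : Type) [Field F] (n : ℕ) (J : Ideal (MvPolynomial (Fin n) F)) (hJ : HomI J)
    (l : MvPolynomial (Fin n) F) (hl : l.IsHomogeneous 1) (d : ℕ) (a : MvPolynomial (Fin n) F)
    (ha : a.IsHomogeneous d) (h : a ∈ J ⊔ Ideal.span {l - 1}) : ∃ N : ℕ, l ^ N * a ∈ J := by
  obtain ⟨i, hi, z, hz, hiz⟩ := Submodule.mem_sup.1 h
  obtain ⟨g, rfl⟩ := Ideal.mem_span_singleton'.1 hz
  have hcomp : ∀ e, homogeneousComponent e a = homogeneousComponent e i +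
      (homogeneousComponent e (l * g) - homogeneousComponent e g) := by
    intro e
    rw [← map_sub, ← map_add, ← hiz]
    congr 1
    ring
  have hne : ∀ e, e ≠ d → homogeneousComponent e a = 0 := by
    intro e he
    rw [homogeneousComponent_of_mem ha, if_neg he]
  have hself : homogeneousComponent d a = a := by
    rw [homogeneousComponent_of_mem ha, if_pos rfl]
  have hlow : ∀ e, e < d → homogeneousComponent e g ∈ J := by
    intro e
    induction e with
    | zero =>
      intro he
      have h1 := hcomp 0
      rw [hne 0 he.ne, comp_mul_zero l hl] at h1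
      have h2 : homogeneousComponent 0 g = homogeneousComponent 0 i := by
        linear_combination h1
      rw [h2]
      exact hJ i hi 0
    | succ e ih =>
      intro he
      have h1 := hcomp (e + 1)
      rw [hne (e + 1) he.ne, comp_mul_succ l hl] at h1
      have h2 : homogeneousComponent (e + 1) g = homogeneousComponent (e + 1) i +
          l * homogeneousComponent e g := by
        linear_combination h1
      rw [h2]
      exact J.add_mem (hJ i hi _) (J.mul_mem_left _ (ih (by omega)))
  have hmid : a + homogeneousComponent d g ∈ J := by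
    have h1 := hcomp d
    rw [hself] at h1
    have h2 : a + homogeneousComponent d g = homogeneousComponent d i +
        homogeneousComponent d (l * g) := by
      linear_combination h1
    rw [h2]
    refine J.add_mem (hJ i hi _) ?_
    cases d with
    | zero =>
      rw [comp_mul_zero l hl]
      exact J.zero_mem
    | succ d =>
      rw [comp_mul_succ l hl]
      exact J.mul_mem_left _ (hlow d (Nat.lt_succ_self d))
  have hhigh : ∀ k, l ^ k * homogeneousComponent d g - homogeneousComponent (d + k) g ∈ J := by
    intro k
    induction k with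
    | zero => simp
    | succ k ih =>
      have h1 := hcomp (d + k + 1)
      rw [hne (d + k + 1) (by omega), comp_mul_succ l hl] at h1
      have h2 : l ^ (k + 1) * homogeneousComponent d g - homogeneousComponent (d + (k + 1)) g =
          l * (l ^ k * homogeneousComponent d g - homogeneousComponent (d + k) g) -
          homogeneousComponent (d + k + 1) i := by
        rw [← add_assoc d k 1]
        linear_combination -h1
      rw [h2]
      exact J.sub_mem (J.mul_mem_left _ ih) (hJ i hi _)
  refine ⟨g.totalDegree + 1, ?_⟩
  have h3 := hhigh (g.totalDegree + 1)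
  rw [homogeneousComponent_eq_zero _ _ (by omega : g.totalDegree < d + (g.totalDegree + 1)),
    sub_zero] at h3
  have h4 : l ^ (g.totalDegree + 1) * a = l ^ (g.totalDegree + 1) *
      (a + homogeneousComponent d g) - l ^ (g.totalDegree + 1) * homogeneousComponent d g := by
    ring
  rw [h4]
  exact J.sub_mem (J.mul_mem_left _ hmid) h3

end Pool.Agent.H918R4
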