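import Pool.Agent.H918R4.Defs

/-! C5: dimension of the dehomogenised quotient. -/
set_option autoImplicit false
namespace Pool.Agent.H918R4
open MvPolynomial

namespace TC5

theorem finite_homog (F : Type) [Field F] (n t : ℕ) :
    Module.Finite F (homogeneousSubmodule (Fin n) F t) := by
  have hfin : Set.Finite {d : Fin n →₀ ℕ | d.degree = t} := by
    refine Set.Finite.subset (Set.finite_Iic (Finsupp.equivFunOnFinite.symm fun _ => t)) ?_
    intro d hd
    simp only [Set.mem_ofPred_eq] at hd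
    rw [Set.mem_Iic]
    intro i
    simp only [Finsupp.equivFunOnFinite_symm_apply_apply]
    rw [← hd]
    exact Finsupp.le_degree i d
  have h2 : homogeneousSubmodule (Fin n) F t =
      Submodule.span F ((fun d => monomial d (1 : F)) '' {d : Fin n →₀ ℕ | d.degree = t}) := by
    apply le_antisymm
    · intro p hp
      rw [mem_homogeneousSubmodule] at hp
      rw [p.as_sum]
      refine Submodule.sum_mem _ fun d hd => ?_
      have h3 : monomial d (coeff d p) = coeff d p • monomial d (1 : F) := by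
        rw [smul_monomial, smul_eq_mul, mul_one]
      rw [h3]
      refine Submodule.smul_mem _ _ (Submodule.subset_span ⟨d, ?_, rfl⟩)
      rw [Set.mem_ofPred_eq]
      have h4 := hp (mem_support_iff.1 hd)
      rw [← h4, Finsupp.degree_eq_weight_one]
      rfl
    · rw [Submodule.span_le]
      rintro _ ⟨d, hd, rfl⟩
      exact isHomogeneous_monomial _ hd
  rw [h2]
  exact Module.Finite.span_of_finite F (hfin.image _)

theorem hc_mul {F : Type} [Field F] {n : ℕ} (l h : MvPolynomial (Fin n) F)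
    (hl : l.IsHomogeneous 1) (s : ℕ) :
    homogeneousComponent (s + 1) (l * h) = l * homogeneousComponent s h := by
  have h1 : ∀ i : ℕ, homogeneousComponent (s + 1) (l * homogeneousComponent i h) =
      if s = i then l * homogeneousComponent s h else 0 := by
    intro i
    have h2 : (l * homogeneousComponent i h).IsHomogeneous (1 + i) :=
      hl.mul (homogeneousComponent_isHomogeneous i h)
    rw [homogeneousComponent_of_mem h2]
    by_cases hi : s = i
    · subst hi
      rw [if_pos (by omega), if_pos rfl]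
    · rw [if_neg (by omega), if_neg hi]
  have h3 : homogeneousComponent (s + 1) (l * h) =
      ∑ i ∈ Finset.range (h.totalDegree + 1),
        homogeneousComponent (s + 1) (l * homogeneousComponent i h) := by
    rw [← map_sum, ← Finset.mul_sum, sum_homogeneousComponent]
  rw [h3, Finset.sum_congr rfl fun i _ => h1 i, Finset.sum_ite_eq]
  split_ifs with hs
  · rfl
  · rw [homogeneousComponent_eq_zero, mul_zero]
    rw [Finset.mem_range] at hs
    omega

theorem hc_zero_mul {F : Type} [Field F] {n : ℕ} (l h : MvPolynomial (Fin n) F)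
    (hl : l.IsHomogeneous 1) : homogeneousComponent 0 (l * h) = 0 := by
  have h1 : coeff 0 l = 0 := by
    apply hl.coeff_eq_zero
    simp
  rw [homogeneousComponent_zero, ← constantCoeff_eq, map_mul, constantCoeff_eq, h1, zero_mul, C_0]

theorem dehom_mem' (F : Type) [Field F] (n : ℕ) (J : Ideal (MvPolynomial (Fin n) F)) (hJ : HomI J)
    (l : MvPolynomial (Fin n) F) (hl : l.IsHomogeneous 1) (d : ℕ) (a : MvPolynomial (Fin n) F)
    (ha : a.IsHomogeneous d) (h : a ∈ J ⊔ Ideal.span {l - 1}) : ∃ N : ℕ, l ^ N * a ∈ J := by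
  obtain ⟨j, hj, g', hg', hjg⟩ := Submodule.mem_sup.1 h
  obtain ⟨g, rfl⟩ := Ideal.mem_span_singleton'.1 hg'
  have hA0 : homogeneousComponent 0 a + homogeneousComponent 0 g ∈ J := by
    have h1 : homogeneousComponent 0 a + homogeneousComponent 0 g = homogeneousComponent 0 j := by
      rw [← map_add]
      have h2 : a + g = j + l * g := by rw [← hjg]; ring
      rw [h2, map_add, hc_zero_mul l g hl, add_zero]
    rw [h1]
    exact hJ j hj 0
  have hA1 : ∀ i, homogeneousComponent (i + 1) a + homogeneousComponent (i + 1) g -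
      l * homogeneousComponent i g ∈ J := by
    intro i
    have h1 : homogeneousComponent (i + 1) a + homogeneousComponent (i + 1) g -
      l * homogeneousComponent i g = homogeneousComponent (i + 1) j := by
      rw [← map_add]
      have h2 : a + g = j + l * g := by rw [← hjg]; ring
      rw [h2, map_add, hc_mul l g hl i]
      ring
    rw [h1]
    exact hJ j hj (i + 1)
  have hza : ∀ i, i ≠ d → homogeneousComponent i a = 0 := by
    intro i hi
    rw [homogeneousComponent_of_mem ha, if_neg hi]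
  have hB : ∀ i, i < d → homogeneousComponent i g ∈ J := by
    intro i
    induction i with
    | zero =>
      intro hi
      have h1 := hA0
      rwa [hza 0 (by omega), zero_add] at h1
    | succ i ih =>
      intro hi
      have h1 := hA1 i
      rw [hza (i + 1) (by omega), zero_add] at h1
      have h2 := Ideal.add_mem _ h1 (Ideal.mul_mem_left _ l (ih (by omega)))
      rwa [sub_add_cancel] at h2
  have hC : ∀ k, l ^ k * a + homogeneousComponent (d + k) g ∈ J := by
    intro k
    induction k with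
    | zero =>
      rw [pow_zero, one_mul, add_zero]
      rcases Nat.eq_zero_or_pos d with hd | hd
      · subst hd
        have h1 := hA0
        rwa [homogeneousComponent_eq_self ha] at h1
      · obtain ⟨i, rfl⟩ : ∃ i, d = i + 1 := ⟨d - 1, by omega⟩
        have h1 := hA1 i
        rw [homogeneousComponent_eq_self ha] at h1
        have h2 := Ideal.add_mem _ h1 (Ideal.mul_mem_left _ l (hB i (by omega)))
        rwa [sub_add_cancel] at h2
    | succ k ih =>
      have h1 := hA1 (d + k)
      rw [hza (d + k + 1) (by omega), zero_add] at h1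
      have h2 := Ideal.add_mem _ h1 (Ideal.mul_mem_left _ l ih)
      have h3 : homogeneousComponent (d + k + 1) g - l * homogeneousComponent (d + k) g +
        l * (l ^ k * a + homogeneousComponent (d + k) g) =
        l ^ (k + 1) * a + homogeneousComponent (d + (k + 1)) g := by
        rw [← add_assoc d k 1]
        ring
      rwa [h3] at h2
  refine ⟨g.totalDegree + 1, ?_⟩
  have h1 := hC (g.totalDegree + 1)
  rwa [homogeneousComponent_eq_zero, add_zero] at h1
  omega

/-- decomposition `f = j + l h` -/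
theorem decomp {F : Type} [Field F] {n : ℕ} (J : Ideal (MvPolynomial (Fin n) F)) (hJ : HomI J)
    (l : MvPolynomial (Fin n) F) (hl : l.IsHomogeneous 1) (s : ℕ) (f : MvPolynomial (Fin n) F)
    (hf : f.IsHomogeneous (s + 1)) (hm : f ∈ J ⊔ Ideal.span {l}) :
    ∃ h : MvPolynomial (Fin n) F, h.IsHomogeneous s ∧ f - l * h ∈ J := by
  obtain ⟨j, hj, g, hg, hjg⟩ := Submodule.mem_sup.1 hm
  obtain ⟨a, rfl⟩ := Ideal.mem_span_singleton'.1 hg
  refine ⟨homogeneousComponent s a, homogeneousComponent_isHomogeneous s a, ?_⟩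
  have h1 : f = homogeneousComponent (s + 1) j + l * homogeneousComponent s a := by
    rw [← hc_mul l a hl s, ← map_add, mul_comm l a, hjg, homogeneousComponent_eq_self hf]
  have h2 : f - l * homogeneousComponent s a = homogeneousComponent (s + 1) j := by
    rw [h1]; ring
  rw [h2]
  exact hJ j hj (s + 1)

theorem mem_AS {F : Type} [Field F] {n : ℕ} {J : Ideal (MvPolynomial (Fin n) F)} {t : ℕ}
    {x : MvPolynomial (Fin n) F ⧸ J} :
    x ∈ AS J t ↔ ∃ a : MvPolynomial (Fin n) F, a.IsHomogeneous t ∧ Ideal.Quotient.mk J a = x := by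
  unfold AS
  rw [Submodule.mem_map]
  rfl

theorem finite_AS {F : Type} [Field F] {n : ℕ} (J : Ideal (MvPolynomial (Fin n) F)) (t : ℕ) :
    Module.Finite F (AS J t) := by
  unfold AS
  have := finite_homog F n t
  infer_instance

/-- multiplication by `l` from degree `s` to degree `s + 1` -/
noncomputable def mulL {F : Type} [Field F] {n : ℕ} (J : Ideal (MvPolynomial (Fin n) F))
    (l : MvPolynomial (Fin n) F) (hl : l.IsHomogeneous 1) (s : ℕ) : AS J s →ₗ[F] AS J (s + 1) :=
  LinearMap.restrict (LinearMap.mulLeft F (Ideal.Quotient.mk J l)) (by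
    intro x hx
    obtain ⟨a, ha, rfl⟩ := mem_AS.1 hx
    refine mem_AS.2 ⟨l * a, ?_, ?_⟩
    · rw [add_comm]; exact hl.mul ha
    · rw [map_mul]; rfl)

theorem mulL_coe {F : Type} [Field F] {n : ℕ} (J : Ideal (MvPolynomial (Fin n) F))
    (l : MvPolynomial (Fin n) F) (hl : l.IsHomogeneous 1) (s : ℕ) (x : AS J s) :
    (mulL J l hl s x : MvPolynomial (Fin n) F ⧸ J) = Ideal.Quotient.mk J l * x := rfl

theorem inj_mul {F : Type} [Field F] {n : ℕ} (J : Ideal (MvPolynomial (Fin n) F))
    (hJ : HomI J) (c s : ℕ) (h1 : HF J s = c) (h2 : HF J (s + 1) = c)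
    (l : MvPolynomial (Fin n) F) (hl : l.IsHomogeneous 1)
    (hs : ∀ f : MvPolynomial (Fin n) F, f.IsHomogeneous (s + 1) → f ∈ J ⊔ Ideal.span {l})
    (a : MvPolynomial (Fin n) F) (ha : a.IsHomogeneous s) (hla : l * a ∈ J) : a ∈ J := by
  have := finite_AS J s
  have := finite_AS J (s + 1)
  have hsurj : Function.Surjective (mulL J l hl s) := by
    rintro ⟨y, hy⟩
    obtain ⟨f, hf, rfl⟩ := mem_AS.1 hy
    obtain ⟨h, hh, hfh⟩ := decomp J hJ l hl s f hf (hs f hf)
    refine ⟨⟨Ideal.Quotient.mk J h, mem_AS.2 ⟨h, hh, rfl⟩⟩, ?_⟩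
    apply Subtype.ext
    rw [mulL_coe]
    show Ideal.Quotient.mk J l * Ideal.Quotient.mk J h = Ideal.Quotient.mk J f
    rw [← map_mul, eq_comm, Ideal.Quotient.mk_eq_mk_iff_sub_mem]
    exact hfh
  have hfr : Module.finrank F (AS J s) = Module.finrank F (AS J (s + 1)) := by
    have h3 : HF J s = HF J (s + 1) := by rw [h1, h2]
    exact h3
  have hinj : Function.Injective (mulL J l hl s) :=
    (LinearMap.injective_iff_surjective_of_finrank_eq_finrank hfr).2 hsurj
  have h4 : (⟨Ideal.Quotient.mk J a, mem_AS.2 ⟨a, ha, rfl⟩⟩ : AS J s) = 0 := by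
    apply hinj
    apply Subtype.ext
    rw [mulL_coe, map_zero]
    show Ideal.Quotient.mk J l * Ideal.Quotient.mk J a = 0
    rw [← map_mul, Ideal.Quotient.eq_zero_iff_mem]
    exact hla
  have h5 := congrArg Subtype.val h4
  exact Ideal.Quotient.eq_zero_iff_mem.1 h5

theorem inj_pow {F : Type} [Field F] {n : ℕ} (J : Ideal (MvPolynomial (Fin n) F))
    (hJ : HomI J) (c s1 : ℕ) (hc : ∀ s, s1 ≤ s → HF J s = c)
    (l : MvPolynomial (Fin n) F) (hl : l.IsHomogeneous 1) (s0 : ℕ)
    (hs : ∀ s, s0 ≤ s → ∀ f : MvPolynomial (Fin n) F, f.IsHomogeneous s →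
      f ∈ J ⊔ Ideal.span {l}) (N : ℕ) :
    ∀ (s : ℕ), s0 ≤ s → s1 ≤ s → ∀ a : MvPolynomial (Fin n) F, a.IsHomogeneous s →
      l ^ N * a ∈ J → a ∈ J := by
  induction N with
  | zero => intro s _ _ a _ h; simpa using h
  | succ N ih =>
    intro s h0 h1 a ha h
    have h2 : l * a ∈ J := by
      refine ih (s + 1) (by omega) (by omega) (l * a) ?_ ?_
      · rw [add_comm]; exact hl.mul ha
      · rw [← mul_assoc, ← pow_succ]; exact h
    exact inj_mul J hJ c s (hc s h1) (hc (s + 1) (by omega)) l hl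
      (fun f hf => hs (s + 1) (by omega) f hf) a ha h2

/-- a multiple by a power of `l` is congruent -/
theorem pow_sub_mem {F : Type} [Field F] {n : ℕ} (l a : MvPolynomial (Fin n) F) (k : ℕ) :
    a - l ^ k * a ∈ Ideal.span {l - 1} := by
  rw [Ideal.mem_span_singleton]
  have h1 : l - 1 ∣ l ^ k - 1 := by
    have := sub_dvd_pow_sub_pow l 1 k
    rwa [one_pow] at this
  have h2 : a - l ^ k * a = (l ^ k - 1) * (-a) := by ring
  rw [h2]
  exact Dvd.dvd.mul_right h1 _

theorem surj_homog {F : Type} [Field F] {n : ℕ} (J : Ideal (MvPolynomial (Fin n) F))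
    (hJ : HomI J) (l : MvPolynomial (Fin n) F) (hl : l.IsHomogeneous 1) (t : ℕ)
    (hs : ∀ s, t < s → ∀ f : MvPolynomial (Fin n) F, f.IsHomogeneous s →
      f ∈ J ⊔ Ideal.span {l}) (k : ℕ) :
    ∀ a : MvPolynomial (Fin n) F, a.IsHomogeneous (t + k) →
      ∃ h : MvPolynomial (Fin n) F, h.IsHomogeneous t ∧ a - h ∈ J ⊔ Ideal.span {l - 1} := by
  induction k with
  | zero => intro a ha; exact ⟨a, ha, by rw [sub_self]; exact Submodule.zero_mem _⟩
  | succ k ih =>
    intro a ha
    obtain ⟨b, hb, hab⟩ := decomp J hJ l hl (t + k) a ha (hs (t + k + 1) (by omega) a ha)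
    obtain ⟨h, hh, hbh⟩ := ih b hb
    refine ⟨h, hh, ?_⟩
    have h1 : a - h = (a - l * b) + (-(b - l ^ 1 * b)) + (b - h) := by ring
    rw [h1]
    refine Ideal.add_mem _ (Ideal.add_mem _ (Ideal.mem_sup_left hab) ?_) hbh
    exact neg_mem (Ideal.mem_sup_right (pow_sub_mem l b 1))

theorem surj_all {F : Type} [Field F] {n : ℕ} (J : Ideal (MvPolynomial (Fin n) F))
    (hJ : HomI J) (l : MvPolynomial (Fin n) F) (hl : l.IsHomogeneous 1) (t : ℕ)
    (hs : ∀ s, t < s → ∀ f : MvPolynomial (Fin n) F, f.IsHomogeneous s →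
      f ∈ J ⊔ Ideal.span {l}) (a : MvPolynomial (Fin n) F) :
    ∃ h : MvPolynomial (Fin n) F, h.IsHomogeneous t ∧ a - h ∈ J ⊔ Ideal.span {l - 1} := by
  have h1 : ∀ i : ℕ, ∃ h : MvPolynomial (Fin n) F, h.IsHomogeneous t ∧
      homogeneousComponent i a - h ∈ J ⊔ Ideal.span {l - 1} := by
    intro i
    rcases le_total t i with h | h
    · obtain ⟨k, rfl⟩ := Nat.exists_eq_add_of_le h
      exact surj_homog J hJ l hl t hs k _ (homogeneousComponent_isHomogeneous _ _)
    · refine ⟨l ^ (t - i) * homogeneousComponent i a, ?_, ?_⟩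
      · have h2 := (hl.pow (t - i)).mul (homogeneousComponent_isHomogeneous i a)
        have h3 : 1 * (t - i) + i = t := by omega
        rwa [h3] at h2
      · exact Ideal.mem_sup_right (pow_sub_mem l _ _)
  choose h hh hm using h1
  refine ⟨∑ i ∈ Finset.range (a.totalDegree + 1), h i, ?_, ?_⟩
  · exact Submodule.sum_mem (homogeneousSubmodule (Fin n) F t) fun i _ => hh i
  · have h2 : a - ∑ i ∈ Finset.range (a.totalDegree + 1), h i =
        ∑ i ∈ Finset.range (a.totalDegree + 1), (homogeneousComponent i a - h i) := by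
      rw [Finset.sum_sub_distrib, sum_homogeneousComponent]
    rw [h2]
    exact Ideal.sum_mem _ fun i _ => hm i

end TC5

open TC5 in
/-- C5 (uses C4) -/
theorem finrank_dehom (F : Type) [Field F] (n : ℕ) (J : Ideal (MvPolynomial (Fin n) F))
    (hJ : HomI J) (c s1 : ℕ) (hc : ∀ s, s1 ≤ s → HF J s = c)
    (l : MvPolynomial (Fin n) F) (hl : l.IsHomogeneous 1) (s0 : ℕ)
    (hs : ∀ s, s0 ≤ s → ∀ f : MvPolynomial (Fin n) F, f.IsHomogeneous s →
      f ∈ J ⊔ Ideal.span {l}) :
    Module.Finite F (MvPolynomial (Fin n) F ⧸ (J ⊔ Ideal.span {l - 1})) ∧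
    Module.finrank F (MvPolynomial (Fin n) F ⧸ (J ⊔ Ideal.span {l - 1})) = c := by
  set K : Ideal (MvPolynomial (Fin n) F) := J ⊔ Ideal.span {l - 1} with hK
  set t : ℕ := max s0 s1 with ht
  have := finite_AS J t
  let φ : AS J t →ₗ[F] (MvPolynomial (Fin n) F ⧸ K) :=
    (Ideal.Quotient.factorₐ F (le_sup_left : J ≤ K)).toLinearMap.comp (AS J t).subtype
  have hφ : ∀ (a : MvPolynomial (Fin n) F) (ha : Ideal.Quotient.mk J a ∈ AS J t),
      φ ⟨Ideal.Quotient.mk J a, ha⟩ = Ideal.Quotient.mk K a := fun a ha => rfl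
  have hinj : Function.Injective φ := by
    rw [injective_iff_map_eq_zero]
    rintro ⟨x, hx⟩ h
    obtain ⟨a, ha, rfl⟩ := mem_AS.1 hx
    rw [hφ, Ideal.Quotient.eq_zero_iff_mem] at h
    obtain ⟨N, hN⟩ := dehom_mem' F n J hJ l hl t a ha h
    have h2 : a ∈ J := inj_pow J hJ c s1 hc l hl s0 hs N t (le_max_left _ _) (le_max_right _ _)
      a ha hN
    apply Subtype.ext
    exact Ideal.Quotient.eq_zero_iff_mem.2 h2
  have hsurj : Function.Surjective φ := by
    intro y
    obtain ⟨a, rfl⟩ := Ideal.Quotient.mk_surjective y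
    obtain ⟨h, hh, hm⟩ := surj_all J hJ l hl t
      (fun s hts f hf => hs s (by omega) f hf) a
    refine ⟨⟨Ideal.Quotient.mk J h, mem_AS.2 ⟨h, hh, rfl⟩⟩, ?_⟩
    rw [hφ, eq_comm, Ideal.Quotient.mk_eq_mk_iff_sub_mem]
    exact hm
  let e : AS J t ≃ₗ[F] (MvPolynomial (Fin n) F ⧸ K) := LinearEquiv.ofBijective φ ⟨hinj, hsurj⟩
  refine ⟨Module.Finite.equiv e, ?_⟩
  rw [← e.finrank_eq]
  exact hc t (le_max_right _ _)

end Pool.Agent.H918R4
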