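import Pool.Agent.H918R4.TC4

set_option autoImplicit false
namespace Pool.Agent.H918R4
open MvPolynomial

namespace TC6

theorem hom_mem (F : Type) [Field F] (n : ℕ) (I : Ideal (MvPolynomial (Fin n) F))
    (hI : HomI I) (hD : DomI I) (l : MvPolynomial (Fin n) F) (hl : l.IsHomogeneous 1)
    (hlI : l ∉ I) (d : ℕ) (a : MvPolynomial (Fin n) F) (ha : a.IsHomogeneous d)
    (h : a ∈ I ⊔ Ideal.span {l - 1}) : a ∈ I := by
  obtain ⟨N, hN⟩ := dehom_mem F n I hI l hl d a ha h
  induction N with
  | zero => simpa using hN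
  | succ N ih =>
    rw [pow_succ', mul_assoc] at hN
    have h1 : (l ^ N * a).IsHomogeneous (1 * N + d) := (hl.pow N).mul ha
    rcases hD 1 (1 * N + d) l (l ^ N * a) hl h1 hN with h2 | h2
    · exact absurd h2 hlI
    · exact ih h2

theorem homog (F : Type) [Field F] (n : ℕ) (l : MvPolynomial (Fin n) F) (hl : l.IsHomogeneous 1)
    (a : MvPolynomial (Fin n) F) :
    ∃ (D : ℕ) (a' : MvPolynomial (Fin n) F), a'.IsHomogeneous D ∧ a - a' ∈ Ideal.span {l - 1} := by
  refine ⟨a.totalDegree, ∑ i ∈ Finset.range (a.totalDegree + 1),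
    homogeneousComponent i a * l ^ (a.totalDegree - i), ?_, ?_⟩
  · refine IsHomogeneous.sum _ _ _ fun i hi => ?_
    have h1 := (homogeneousComponent_isHomogeneous i a).mul (hl.pow (a.totalDegree - i))
    rw [Finset.mem_range] at hi
    rwa [one_mul, Nat.add_sub_cancel' (by omega)] at h1
  · have h2 : a = ∑ i ∈ Finset.range (a.totalDegree + 1), homogeneousComponent i a :=
      (sum_homogeneousComponent a).symm
    nth_rewrite 1 [h2]
    rw [← Finset.sum_sub_distrib]
    refine Ideal.sum_mem _ fun i _ => ?_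
    have h3 : l ^ (a.totalDegree - i) - 1 ∈ Ideal.span {l - 1} := by
      rw [Ideal.mem_span_singleton]
      simpa using sub_dvd_pow_sub_pow l 1 (a.totalDegree - i)
    have h4 : homogeneousComponent i a - homogeneousComponent i a * l ^ (a.totalDegree - i) =
        -(homogeneousComponent i a) * (l ^ (a.totalDegree - i) - 1) := by ring
    rw [h4]
    exact Ideal.mul_mem_left _ _ h3

end TC6

/-- C6 -/
theorem isDomain_dehom (F : Type) [Field F] (n : ℕ) (I : Ideal (MvPolynomial (Fin n) F))
    (hI : HomI I) (hD : DomI I) (l : MvPolynomial (Fin n) F) (hl : l.IsHomogeneous 1)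
    (hlI : l ∉ I) : IsDomain (MvPolynomial (Fin n) F ⧸ (I ⊔ Ideal.span {l - 1})) := by
  rw [Ideal.Quotient.isDomain_iff_prime]
  have hsub : Ideal.span {l - 1} ≤ I ⊔ Ideal.span {l - 1} := le_sup_right
  constructor
  · rw [Ideal.ne_top_iff_one]
    intro h
    have h1 := TC6.hom_mem F n I hI hD l hl hlI 0 1 (isHomogeneous_one _ _) h
    exact hlI (by simpa using Ideal.mul_mem_left I l h1)
  · intro a b hab
    obtain ⟨D, a', ha', haa⟩ := TC6.homog F n l hl a
    obtain ⟨E, b', hb', hbb⟩ := TC6.homog F n l hl b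
    have h1 : a' * b' ∈ I ⊔ Ideal.span {l - 1} := by
      have h2 : a' * b' = a * b - (a - a') * b - a' * (b - b') := by ring
      rw [h2]
      exact Ideal.sub_mem _ (Ideal.sub_mem _ hab (Ideal.mul_mem_right _ _ (hsub haa)))
        (Ideal.mul_mem_left _ _ (hsub hbb))
    have h3 := TC6.hom_mem F n I hI hD l hl hlI (D + E) (a' * b') (ha'.mul hb') h1
    rcases hD D E a' b' ha' hb' h3 with h4 | h4
    · left
      have h5 : a = a' + (a - a') := by ring
      rw [h5]
      exact Ideal.add_mem _ (Ideal.mem_sup_left h4) (hsub haa)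
    · right
      have h5 : b = b' + (b - b') := by ring
      rw [h5]
      exact Ideal.add_mem _ (Ideal.mem_sup_left h4) (hsub hbb)

end Pool.Agent.H918R4
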