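import Pool.Agent.H918R4.TC4

set_option autoImplicit false

namespace Pool.Agent.H918R4

open MvPolynomial

namespace TC7

theorem cancel_pow {F : Type} [Field F] {n : ℕ} {I : Ideal (MvPolynomial (Fin n) F)}
    (hD : DomI I) {l : MvPolynomial (Fin n) F} (hl : l.IsHomogeneous 1) (hlI : l ∉ I)
    {t : ℕ} {a : MvPolynomial (Fin n) F} (ha : a.IsHomogeneous t) (N : ℕ)
    (h : l ^ N * a ∈ I) : a ∈ I := by
  induction N with
  | zero => simpa using h
  | succ N ih =>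
    have h1 : l * (l ^ N * a) ∈ I := by
      rw [← mul_assoc, ← pow_succ']
      exact h
    have h2 : (l ^ N * a).IsHomogeneous (1 * N + t) := (hl.pow N).mul ha
    rcases hD 1 (1 * N + t) l (l ^ N * a) hl h2 h1 with h3 | h3
    · exact absurd h3 hlI
    · exact ih h3

end TC7

/-- C7 (uses C4) -/
theorem infinite_dehom (F : Type) [Field F] (n : ℕ) (I : Ideal (MvPolynomial (Fin n) F))
    (hI : HomI I) (hD : DomI I) (l : MvPolynomial (Fin n) F) (hl : l.IsHomogeneous 1)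
    (hlI : l ∉ I) (hunb : ∀ c : ℕ, ∃ t, c ≤ HF I t) :
    ¬ Module.Finite F (MvPolynomial (Fin n) F ⧸ (I ⊔ Ideal.span {l - 1})) := by
  intro hfin
  obtain ⟨t, ht⟩ := hunb (Module.finrank F (MvPolynomial (Fin n) F ⧸ (I ⊔ Ideal.span {l - 1})) + 1)
  have hle : I ≤ I ⊔ Ideal.span {l - 1} := le_sup_left
  let φ : (MvPolynomial (Fin n) F ⧸ I) →ₐ[F] (MvPolynomial (Fin n) F ⧸ (I ⊔ Ideal.span {l - 1})) :=
    Ideal.Quotient.factorₐ F hle
  let ψ : AS I t →ₗ[F] (MvPolynomial (Fin n) F ⧸ (I ⊔ Ideal.span {l - 1})) :=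
    φ.toLinearMap ∘ₗ (AS I t).subtype
  have hinj : Function.Injective ψ := by
    rw [injective_iff_map_eq_zero]
    rintro ⟨x, hx⟩ h0
    obtain ⟨a, ha, rfl⟩ := hx
    have h1 : (Ideal.Quotient.mk (I ⊔ Ideal.span {l - 1})) a = 0 := h0
    rw [Ideal.Quotient.eq_zero_iff_mem] at h1
    obtain ⟨N, hN⟩ := dehom_mem F n I hI l hl t a ha h1
    have h2 := TC7.cancel_pow hD hl hlI ha N hN
    have h3 : (Ideal.Quotient.mk I) a = 0 := Ideal.Quotient.eq_zero_iff_mem.2 h2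
    exact Subtype.ext h3
  have h4 := LinearMap.finrank_le_finrank_of_injective hinj
  unfold HF at ht
  omega

end Pool.Agent.H918R4
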