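import Pool.Agent.H918R4.Defs

set_option autoImplicit false

/-! C8: dimensions of `B`-modules lie in the semigroup generated by `p` and `q`. -/

namespace Pool.Agent.H918R4

namespace TC8

theorem mem_sg (p q a b : ℕ) (h : ¬ (a = 0 ∧ b = 0)) :
    p ^ a * q ^ b ∈ AddSubmonoid.closure ({p, q} : Set ℕ) := by
  have hp : p ∈ AddSubmonoid.closure ({p, q} : Set ℕ) := AddSubmonoid.subset_closure (by simp)
  have hq : q ∈ AddSubmonoid.closure ({p, q} : Set ℕ) := AddSubmonoid.subset_closure (by simp)
  rcases Nat.eq_zero_or_pos a with ha | ha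
  · have hb : 0 < b := by
      rcases Nat.eq_zero_or_pos b with hb | hb
      · exact absurd ⟨ha, hb⟩ h
      · exact hb
    obtain ⟨c, rfl⟩ : ∃ c, b = c + 1 := ⟨b - 1, by omega⟩
    have h1 : p ^ a * q ^ (c + 1) = (p ^ a * q ^ c) • q := by
      rw [smul_eq_mul, pow_succ]; ring
    rw [h1]
    exact AddSubmonoid.nsmul_mem _ hq _
  · obtain ⟨c, rfl⟩ : ∃ c, a = c + 1 := ⟨a - 1, by omega⟩
    have h1 : p ^ (c + 1) * q ^ b = (p ^ c * q ^ b) • p := by
      rw [smul_eq_mul, pow_succ]; ring
    rw [h1]
    exact AddSubmonoid.nsmul_mem _ hp _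

/-- the residue fields -/
theorem quot (F B : Type) [Field F] [CommRing B] [Algebra F B] [Module.Finite F B]
    (p q : ℕ) (hPQ : PQ p q F) (hno : (B →ₐ[F] F) → False) (m : Ideal B) (hm : m.IsMaximal) :
    Module.finrank F (B ⧸ m) ∈ AddSubmonoid.closure ({p, q} : Set ℕ) := by
  let fld : Field (B ⧸ m) := Ideal.Quotient.field m
  obtain ⟨a, b, hab⟩ := hPQ (B ⧸ m)
  rw [hab]
  apply mem_sg
  rintro ⟨rfl, rfl⟩
  rw [pow_zero, pow_zero, mul_one] at hab
  have h1 : (⊥ : Subalgebra F (B ⧸ m)) = ⊤ := Subalgebra.bot_eq_top_iff_finrank_eq_one.2 hab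
  have h2 : Function.Surjective (algebraMap F (B ⧸ m)) := Algebra.surjective_algebraMap_iff.2 h1.symm
  have h3 : Function.Bijective (Algebra.ofId F (B ⧸ m)) := ⟨(algebraMap F (B ⧸ m)).injective, h2⟩
  exact hno (((AlgEquiv.ofBijective (Algebra.ofId F (B ⧸ m)) h3).symm : (B ⧸ m) →ₐ[F] F).comp
    (Ideal.Quotient.mkₐ F m))

theorem aux (F B : Type) [Field F] [CommRing B] [Algebra F B] [Module.Finite F B]
    (p q : ℕ) (hPQ : PQ p q F) (hno : (B →ₐ[F] F) → False) (n : ℕ) :
    ∀ (M : Type) [AddCommGroup M] [Module B M] [Module F M] [IsScalarTower F B M]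
      [Module.Finite F M], Module.finrank F M = n →
      Module.finrank F M ∈ AddSubmonoid.closure ({p, q} : Set ℕ) := by
  induction n using Nat.strong_induction_on with
  | _ n ih =>
    intro M _ _ _ _ _ hn
    rcases Nat.eq_zero_or_pos n with h0 | h0
    · rw [hn, h0]
      exact AddSubmonoid.zero_mem _
    · have hfB : Module.Finite B M := Module.Finite.of_restrictScalars_finite F B M
      have hnt : Nontrivial M := Module.nontrivial_of_finrank_pos (R := F) (by omega)
      obtain ⟨N, hN⟩ := IsCoatomic.exists_coatom (Submodule B M)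
      have hsimple : IsSimpleModule B (M ⧸ N) := isSimpleModule_iff_isCoatom.2 hN
      obtain ⟨m, hm, ⟨e⟩⟩ := isSimpleModule_iff_quot_maximal.1 hsimple
      have h1 : Module.finrank F (M ⧸ N) = Module.finrank F (B ⧸ m) :=
        LinearEquiv.finrank_eq (e.restrictScalars F)
      have h2 := quot F B p q hPQ hno m hm
      have h3 : Module.finrank F (M ⧸ N) + Module.finrank F N = Module.finrank F M :=
        Submodule.finrank_quotient_add_finrank (N.restrictScalars F)
      have hfin : Module.Finite F N := inferInstanceAs (Module.Finite F (N.restrictScalars F))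
      have hpos : 0 < Module.finrank F (M ⧸ N) := by
        have hnt2 : Nontrivial (M ⧸ N) := Submodule.Quotient.nontrivial_iff.2 hN.1
        have hfin2 : Module.Finite F (M ⧸ N) :=
          inferInstanceAs (Module.Finite F (M ⧸ N.restrictScalars F))
        exact Module.finrank_pos
      have h4 := ih (Module.finrank F N) (by omega) N rfl
      rw [← h3, h1]
      exact AddSubmonoid.add_mem _ h2 h4

end TC8

/-- C8 -/
theorem sg (F B M : Type) [Field F] [CommRing B] [Algebra F B] [Module.Finite F B]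
    (p q : ℕ) (hPQ : PQ p q F) (hno : (B →ₐ[F] F) → False)
    [AddCommGroup M] [Module B M] [Module F M] [IsScalarTower F B M] [Module.Finite F M] :
    Module.finrank F M ∈ AddSubmonoid.closure ({p, q} : Set ℕ) :=
  TC8.aux F B p q hPQ hno _ M rfl

end Pool.Agent.H918R4
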