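import Pool.Agent.H918R4.Defs

/-! Task C9. -/
set_option autoImplicit false
namespace Pool.Agent.H918R4
open MvPolynomial

namespace TC9

/-- If `p` divides the degrees of all residue fields, it divides the dimension of each module. -/
theorem dvd_finrank (F T : Type) [Field F] [CommRing T] [Algebra F T] [Module.Finite F T] (p : ℕ)
    (hdiv : ∀ 𝔪 : Ideal T, 𝔪.IsMaximal → p ∣ Module.finrank F (T ⧸ 𝔪)) (n : ℕ) :
    ∀ (M : Type) [AddCommGroup M] [Module T M] [Module F M] [IsScalarTower F T M]
      [Module.Finite F M], Module.finrank F M = n → p ∣ n := by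
  induction n using Nat.strong_induction_on with
  | _ n ih =>
    intro M _ _ _ _ _ hn
    rcases subsingleton_or_nontrivial M with hM | hM
    · rw [← hn, Module.finrank_zero_of_subsingleton]
      exact dvd_zero _
    · have : Module.Finite T M := Module.Finite.of_restrictScalars_finite F T M
      have : IsNoetherianRing T := IsNoetherianRing.of_finite F T
      have : IsNoetherian T M := inferInstance
      obtain ⟨N, hN, -⟩ := (eq_top_or_exists_le_coatom (⊥ : Submodule T M)).resolve_left bot_ne_top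
      have hs : IsSimpleModule T (M ⧸ N) := isSimpleModule_iff_isCoatom.2 hN
      obtain ⟨I, hI, ⟨e⟩⟩ := isSimpleModule_iff_quot_maximal.1 hs
      have h1 : Module.finrank F (M ⧸ N) = Module.finrank F (T ⧸ I) :=
        (e.restrictScalars F).finrank_eq
      have h2 : Module.finrank F (M ⧸ N) + Module.finrank F N = Module.finrank F M :=
        (N.restrictScalars F).finrank_quotient_add_finrank
      have : Nontrivial (M ⧸ N) := IsSimpleModule.nontrivial T (M ⧸ N)
      have h3 : 0 < Module.finrank F (M ⧸ N) := Module.finrank_pos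
      have : Module.Finite F N :=
        inferInstanceAs (Module.Finite F (N.restrictScalars F))
      have h4 : p ∣ Module.finrank F N := ih _ (by omega) N rfl
      have h5 : p ∣ Module.finrank F (M ⧸ N) := h1 ▸ hdiv I hI
      rw [← hn, ← h2]
      exact dvd_add h5 h4

end TC9

/-- C9 -/
theorem exists_max (F T : Type) [Field F] [CommRing T] [Algebra F T] [Module.Finite F T]
    (p q : ℕ) (hPQ : PQ p q F) (hno : (T →ₐ[F] F) → False)
    (hp : ¬ p ∣ Module.finrank F T) :
    ∃ 𝔪 : Ideal T, 𝔪.IsMaximal ∧ ∃ b : ℕ, 1 ≤ b ∧ Module.finrank F (T ⧸ 𝔪) = q ^ b := by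
  by_contra hcon
  apply hp
  refine TC9.dvd_finrank F T p ?_ _ T rfl
  intro 𝔪 h𝔪
  let : Field (T ⧸ 𝔪) := Ideal.Quotient.field 𝔪
  obtain ⟨a, b, hab⟩ := hPQ (T ⧸ 𝔪)
  rcases Nat.eq_zero_or_pos a with ha | ha
  · rcases Nat.eq_zero_or_pos b with hb | hb
    · exfalso
      have h1 : Module.finrank F (T ⧸ 𝔪) = 1 := by
        rw [hab, ha, hb]; simp
      have hbij := Algebra.finrank_eq_one_iff_bijective_algebraMap.1 h1
      exact hno (((AlgEquiv.ofBijective (Algebra.ofId F (T ⧸ 𝔪)) hbij).symm : (T ⧸ 𝔪) →ₐ[F] F).comp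
        (Ideal.Quotient.mkₐ F 𝔪))
    · exfalso
      exact hcon ⟨𝔪, h𝔪, b, hb, by rw [hab, ha]; simp⟩
  · rw [hab]
    exact Dvd.dvd.mul_right (dvd_pow_self p (by omega)) _

end Pool.Agent.H918R4
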