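import Pool.Agent.H918R4.TC1
import Pool.Agent.H918R4.TC2
import Pool.Agent.H918R4.TC3
import Pool.Agent.H918R4.TC4
import Pool.Agent.H918R4.TC5
import Pool.Agent.H918R4.TC6
import Pool.Agent.H918R4.TC7
import Pool.Agent.H918R4.TC8
import Pool.Agent.H918R4.TC9
import Pool.Agent.H918R4.TC10
import Pool.Agent.H918R4.TC11
import Pool.Agent.H918R4.TC12
import Pool.Agent.H918R4.TC13

/-! Theorem C: a complete intersection curve of small genus over a `PQ` field has a rational point. -/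
set_option autoImplicit false
namespace Pool.Agent.H918R4
open MvPolynomial

theorem no_hom (F : Type) [Field F] (n r : ℕ) (f : Fin r → MvPolynomial (Fin n) F)
    (hno : ∀ v : Fin n → F, v ≠ 0 → ∃ j, eval v (f j) ≠ 0)
    (J : Ideal (MvPolynomial (Fin n) F)) (hJ : ∀ j, f j ∈ J)
    (l : MvPolynomial (Fin n) F) (hl : l.IsHomogeneous 1) (hlJ : l - 1 ∈ J) :
    ((MvPolynomial (Fin n) F ⧸ J) →ₐ[F] F) → False := by
  intro φ
  set v : Fin n → F := fun i => φ (Ideal.Quotient.mk J (X i)) with hv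
  have key : ∀ g : MvPolynomial (Fin n) F, eval v g = φ (Ideal.Quotient.mk J g) := by
    intro g
    have h1 : aeval (R := F) v = φ.comp (Ideal.Quotient.mkₐ F J) := by
      ext i
      simp [hv]
    have h2 := congrArg (fun ψ : MvPolynomial (Fin n) F →ₐ[F] F => ψ g) h1
    simpa using h2
  have hv0 : v ≠ 0 := by
    intro h0
    have h3 : eval v l = 1 := by
      have h4 : eval v (l - 1) = 0 := by
        rw [key, Ideal.Quotient.eq_zero_iff_mem.2 hlJ, map_zero]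
      rw [map_sub, map_one, sub_eq_zero] at h4
      exact h4
    have h5 : eval v l = 0 := by
      rw [h0]
      have : constantCoeff l = 0 := by
        by_contra hc
        have := hl (d := 0) (by simpa [constantCoeff_eq] using hc)
        simp at this
      rw [← eval_zero] at this
      exact this
    rw [h5] at h3
    exact zero_ne_one h3
  obtain ⟨j, hj⟩ := hno v hv0
  exact hj (by rw [key, Ideal.Quotient.eq_zero_iff_mem.2 (hJ j), map_zero])

theorem linear_mem (F : Type) [Field F] (n r : ℕ) (f : Fin r → MvPolynomial (Fin n) F)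
    (hf : ∀ j, (f j).IsHomogeneous 2) (l : MvPolynomial (Fin n) F) (hl : l.IsHomogeneous 1)
    (h : l ∈ Ideal.span (Set.range f)) : l = 0 := by
  obtain ⟨c, hc⟩ := (Ideal.mem_span_range_iff_exists_fun).1 h
  have h1 : homogeneousComponent 1 l = l := by
    rw [homogeneousComponent_of_mem hl, if_pos rfl]
  rw [← h1, ← hc, map_sum]
  refine Finset.sum_eq_zero fun j _ => ?_
  ext d
  rw [coeff_homogeneousComponent, coeff_zero]
  split_ifs with hd
  · rw [coeff_mul]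
    refine Finset.sum_eq_zero fun x hx => ?_
    rw [Finset.HasAntidiagonal.mem_antidiagonal] at hx
    have : coeff x.2 (f j) = 0 := by
      by_contra hne
      have h2 := hf j hne
      have h3 : x.1.degree + x.2.degree = 1 := by
        rw [← map_add, hx, hd]
      have h4 : x.2.degree = 2 := by
        rw [Finsupp.degree_eq_weight_one (R := ℕ)]; exact h2
      omega
    rw [this, mul_zero]
  · rfl

theorem HF_eq_zero (F : Type) [Field F] (n : ℕ) (J : Ideal (MvPolynomial (Fin n) F)) (s : ℕ)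
    (h : ∀ f : MvPolynomial (Fin n) F, f.IsHomogeneous s → f ∈ J) : HF J s = 0 := by
  have : AS J s = ⊥ := by
    rw [eq_bot_iff]
    rintro _ ⟨f, hf, rfl⟩
    simp only [AlgHom.toLinearMap_apply, Ideal.Quotient.mkₐ_eq_mk, Submodule.mem_bot]
    exact Ideal.Quotient.eq_zero_iff_mem.2 (h f hf)
  unfold HF
  rw [this]
  simp

theorem homI_sup_span (F : Type) [Field F] (n r : ℕ) (f : Fin r → MvPolynomial (Fin n) F)
    (hf : ∀ j, (f j).IsHomogeneous 2) (g : MvPolynomial (Fin n) F) (d : ℕ)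
    (hg : g.IsHomogeneous d) : HomI (Ideal.span (Set.range f) ⊔ Ideal.span {g}) := by
  rw [← Ideal.span_union]
  refine homI_span F n _ ?_
  rintro h (⟨j, rfl⟩ | hh)
  · exact ⟨2, hf j⟩
  · rw [Set.mem_singleton_iff] at hh
    exact ⟨d, hh ▸ hg⟩

theorem finrank_comap {F A B : Type} [Field F] [CommRing A] [Algebra F A] [CommRing B]
    [Algebra F B] (π : A →ₐ[F] B) (hπ : Function.Surjective π) (𝔪 : Ideal B) :
    Nonempty ((A ⧸ 𝔪.comap π) ≃ₐ[F] (B ⧸ 𝔪)) := by
  have h1 : Function.Surjective ((Ideal.Quotient.mkₐ F 𝔪).comp π) :=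
    (Ideal.Quotient.mkₐ_surjective F 𝔪).comp hπ
  have h2 : RingHom.ker ((Ideal.Quotient.mkₐ F 𝔪).comp π) = 𝔪.comap π := by
    ext x
    simp [RingHom.mem_ker, Ideal.Quotient.eq_zero_iff_mem]
  exact ⟨(Ideal.quotientEquivAlgOfEq F h2).symm.trans
    (Ideal.quotientKerAlgEquivOfSurjective h1)⟩

theorem exists_vanishing (F C : Type) [Field F] (n : ℕ) [CommRing C] [Algebra F C]
    [Module.Finite F C] (π : MvPolynomial (Fin n) F →ₐ[F] C) (I : Ideal (MvPolynomial (Fin n) F))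
    (hI : ∀ a ∈ I, π a = 0) (t : ℕ) (ht : Module.finrank F C < HF I t) :
    ∃ g : MvPolynomial (Fin n) F, g.IsHomogeneous t ∧ g ∉ I ∧ π g = 0 := by
  by_contra hcon
  push Not at hcon
  let ψ : (MvPolynomial (Fin n) F ⧸ I) →ₐ[F] C := Ideal.Quotient.liftₐ I π hI
  have hinj : Function.Injective (ψ.toLinearMap.domRestrict (AS I t)) := by
    rw [← LinearMap.ker_eq_bot, eq_bot_iff]
    rintro ⟨_, g, hg, rfl⟩ hx
    rw [LinearMap.mem_ker] at hx
    have h1 : π g = 0 := hx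
    rw [Submodule.mem_bot]
    apply Subtype.ext
    by_contra hne
    exact hcon g hg (fun hgI => hne (Ideal.Quotient.eq_zero_iff_mem.2 hgI)) h1
  have := LinearMap.finrank_le_finrank_of_injective hinj
  unfold HF at ht
  omega

/-- C14 -/
theorem theoremC (F : Type) [Field F] [CharZero F] (p q : ℕ) (hp : p.Prime) (hq : q.Prime)
    (hpq : p ≠ q) (hp2 : p ≠ 2) (hq2 : q ≠ 2) (hPQ : PQ p q F) (r : ℕ)
    (hr : r * 2 ^ (r - 1) + 1 ≤ (p * q - p - q) + 2 ^ r)
    (f : Fin r → MvPolynomial (Fin (r + 2)) F) (hf : ∀ j, (f j).IsHomogeneous 2)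
    (hH : ∀ t, r ≤ t → HF (Ideal.span (Set.range f)) t + r * 2 ^ (r - 1) = 2 ^ r * t + 2 ^ r)
    (hD : DomI (Ideal.span (Set.range f))) :
    ∃ v : Fin (r + 2) → F, v ≠ 0 ∧ ∀ j, eval v (f j) = 0 := by
  by_contra hcon
  have hno : ∀ v : Fin (r + 2) → F, v ≠ 0 → ∃ j, eval v (f j) ≠ 0 := by
    intro v hv
    by_contra h
    push Not at h
    exact hcon ⟨v, hv, h⟩
  clear hcon
  have hinf : Infinite F := inferInstance
  set I := Ideal.span (Set.range f) with hI
  have hfI : ∀ j, f j ∈ I := fun j => Ideal.subset_span ⟨j, rfl⟩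
  have hHI : HomI I := homI_span F _ _ (by rintro _ ⟨j, rfl⟩; exact ⟨2, hf j⟩)
  have hI1 : ∀ l : MvPolynomial (Fin (r + 2)) F, l.IsHomogeneous 1 → l ∈ I → l = 0 :=
    fun l hl h => linear_mem F _ _ f hf l hl h
  have hX0 : (X 0 : MvPolynomial (Fin (r + 2)) F) ∉ I := fun h =>
    (X_ne_zero (R := F) (0 : Fin (r + 2))) (hI1 _ (isHomogeneous_X F 0) h)
  set J0 := I ⊔ Ideal.span {(X 0 : MvPolynomial (Fin (r + 2)) F)} with hJ0
  have hJ0r : ∀ s, r + 1 ≤ s → HF J0 s = 2 ^ r := by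
    intro s hs
    obtain ⟨s', rfl⟩ : ∃ s', s = s' + 1 := ⟨s - 1, by omega⟩
    have h1 := HF_add F _ I hHI hD 1 s' _ (isHomogeneous_X F 0) hX0
    have h2 := hH s' (by omega)
    have h3 := hH (s' + 1) (by omega)
    rw [← hJ0] at h1
    rw [mul_add, mul_one] at h3
    omega
  obtain ⟨l1, hl1, s0, hs0⟩ := exists_linear F _ J0 (2 ^ r) (r + 1) (fun s hs => (hJ0r s hs).le)
  have h2r : 0 < 2 ^ r := by positivity
  have hl1I : l1 ∉ I := by
    intro h
    have h0 := hI1 l1 hl1 h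
    have h1 := HF_eq_zero F _ J0 (max s0 (r + 1)) (fun g hg => by
      have := hs0 _ (le_max_left _ _) g hg
      rw [h0] at this
      simpa using this)
    rw [hJ0r _ (le_max_right _ _)] at h1
    omega
  have hJ0h : HomI J0 := homI_sup_span F _ _ f hf _ 1 (isHomogeneous_X F 0)
  obtain ⟨hTfin, hTrank⟩ := finrank_dehom F _ J0 hJ0h (2 ^ r) (r + 1) hJ0r l1 hl1 s0 hs0
  have hfJ0 : ∀ j, f j ∈ J0 ⊔ Ideal.span {l1 - 1} := fun j =>
    (le_sup_left.trans le_sup_left : I ≤ J0 ⊔ Ideal.span {l1 - 1}) (hfI j)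
  have hl1J0 : l1 - 1 ∈ J0 ⊔ Ideal.span {l1 - 1} :=
    (le_sup_right : Ideal.span {l1 - 1} ≤ J0 ⊔ Ideal.span {l1 - 1}) (Ideal.mem_span_singleton_self _)
  have hnoT := no_hom F _ _ f hno _ hfJ0 l1 hl1 hl1J0
  have hPQ' : PQ q p F := by
    intro E _ _ _
    obtain ⟨a, b, h⟩ := hPQ E
    exact ⟨b, a, by rw [h, mul_comm]⟩
  have hdvd : ∀ z : ℕ, z.Prime → z ≠ 2 → ¬ z ∣ 2 ^ r := by
    intro z hz hz2 h
    exact hz2 ((Nat.prime_dvd_prime_iff_eq hz Nat.prime_two).1 (hz.dvd_of_dvd_pow h))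
  obtain ⟨𝔪, hm, b, hb, hbr⟩ := exists_max F _ p q hPQ hnoT (by rw [hTrank]; exact hdvd p hp hp2)
  obtain ⟨𝔫, hn, a, ha, har⟩ := exists_max F _ q p hPQ' hnoT (by rw [hTrank]; exact hdvd q hq hq2)
  -- the affine coordinate ring
  set I1 := I ⊔ Ideal.span {l1 - 1} with hI1def
  have hdom : IsDomain (MvPolynomial (Fin (r + 2)) F ⧸ I1) := isDomain_dehom F _ I hHI hD l1 hl1 hl1I
  have hRinf : ¬ Module.Finite F (MvPolynomial (Fin (r + 2)) F ⧸ I1) := by
    refine infinite_dehom F _ I hHI hD l1 hl1 hl1I ?_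
    intro c
    refine ⟨r + c + r * 2 ^ (r - 1), ?_⟩
    have h1 := hH (r + c + r * 2 ^ (r - 1)) (by omega)
    have h2 : 1 * (r + c + r * 2 ^ (r - 1)) ≤ 2 ^ r * (r + c + r * 2 ^ (r - 1)) :=
      Nat.mul_le_mul_right _ h2r
    omega
  have hle : I1 ≤ J0 ⊔ Ideal.span {l1 - 1} := sup_le_sup_right le_sup_left _
  let π0 : (MvPolynomial (Fin (r + 2)) F ⧸ I1) →ₐ[F]
      (MvPolynomial (Fin (r + 2)) F ⧸ (J0 ⊔ Ideal.span {l1 - 1})) := Ideal.Quotient.factorₐ F hle
  have hπ0 : Function.Surjective π0 := Ideal.Quotient.factor_surjective hle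
  obtain ⟨e1⟩ := finrank_comap π0 hπ0 𝔪
  obtain ⟨e2⟩ := finrank_comap π0 hπ0 𝔫
  have hm' : (𝔪.comap π0).IsMaximal := Ideal.comap_isMaximal_of_surjective π0 hπ0
  have hn' : (𝔫.comap π0).IsMaximal := Ideal.comap_isMaximal_of_surjective π0 hπ0
  have hfm : Module.Finite F (_ ⧸ 𝔪.comap π0) := Module.Finite.equiv e1.symm.toLinearEquiv
  have hfn : Module.Finite F (_ ⧸ 𝔫.comap π0) := Module.Finite.equiv e2.symm.toLinearEquiv
  have hrm : Module.finrank F (_ ⧸ 𝔪.comap π0) = q ^ b := by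
    rw [← hbr]; exact e1.toLinearEquiv.finrank_eq
  have hrn : Module.finrank F (_ ⧸ 𝔫.comap π0) = p ^ a := by
    rw [← har]; exact e2.toLinearEquiv.finrank_eq
  have hne : 𝔪.comap π0 ≠ 𝔫.comap π0 := by
    intro h
    have h1 : q ^ b = p ^ a := by rw [← hrm, ← hrn, h]
    have h2 : q ∣ p ^ a := h1 ▸ dvd_pow_self q (by omega)
    exact hpq ((Nat.prime_dvd_prime_iff_eq hq hp).1 (hq.dvd_of_dvd_pow h2)).symm
  obtain ⟨t, ht, α, β, hαβ⟩ := exists_t p q a b r (p * q - p - q) r hp hq hpq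
  obtain ⟨𝔠, hcfin, hcrank⟩ := chain_two F _ hRinf (𝔪.comap π0) (𝔫.comap π0) hm' hn' hne hfm hfn α β
  rw [hrm, hrn] at hcrank
  let π : MvPolynomial (Fin (r + 2)) F →ₐ[F] (_ ⧸ 𝔠) :=
    (Ideal.Quotient.mkₐ F 𝔠).comp (Ideal.Quotient.mkₐ F I1)
  have hπ : Function.Surjective π :=
    (Ideal.Quotient.mkₐ_surjective F 𝔠).comp (Ideal.Quotient.mkₐ_surjective F I1)
  have hπI1 : ∀ x ∈ I1, π x = 0 := by
    intro x hx
    change Ideal.Quotient.mk 𝔠 (Ideal.Quotient.mk I1 x) = 0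
    rw [Ideal.Quotient.eq_zero_iff_mem.2 hx, map_zero]
  have hπI : ∀ x ∈ I, π x = 0 := fun x hx => hπI1 x (le_sup_left (a := I) hx)
  have hπl1 : π l1 = 1 := by
    have h1 := hπI1 (l1 - 1)
      ((le_sup_right : Ideal.span {l1 - 1} ≤ I1) (Ideal.mem_span_singleton_self _))
    rwa [map_sub, map_one, sub_eq_zero] at h1
  have hHt := hH t ht
  obtain ⟨g, hg, hgI, hπg⟩ := exists_vanishing F _ _ π I hπI t (by rw [hcrank]; omega)
  -- the residual
  set J := I ⊔ Ideal.span {g} with hJ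
  have hJh : HomI J := homI_sup_span F _ _ f hf _ t hg
  have hJr : ∀ s, r + t ≤ s → HF J s = 2 ^ r * t := by
    intro s hs
    obtain ⟨s', rfl⟩ : ∃ s', s = s' + t := ⟨s - t, by omega⟩
    have h1 := HF_add F _ I hHI hD t s' g hg hgI
    have h2 := hH s' (by omega)
    have h3 := hH (s' + t) (by omega)
    rw [← hJ] at h1
    rw [mul_add] at h3
    omega
  obtain ⟨l, hl, s1, hs1⟩ := exists_linear F _ J (2 ^ r * t) (r + t) (fun s hs => (hJr s hs).le)
  obtain ⟨hBfin, hBrank⟩ := finrank_dehom F _ J hJh (2 ^ r * t) (r + t) hJr l hl s1 hs1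
  have hJspan : J = Ideal.span (Set.range f ∪ {g}) := by rw [Ideal.span_union]
  obtain ⟨ψ, hψ⟩ : ∃ ψ : (MvPolynomial (Fin (r + 2)) F ⧸ (J ⊔ Ideal.span {l - 1})) →ₐ[F]
      ((MvPolynomial (Fin (r + 2)) F ⧸ I1) ⧸ 𝔠), Function.Surjective ψ := by
    rw [hJspan]
    refine residual F (_ ⧸ 𝔠) (r + 2) π hπ (Set.range f ∪ {g}) ?_ ?_ l1 hl1 hπl1 l hl s1
      (by rw [← hJspan]; exact hs1)
    · rintro h (⟨j, rfl⟩ | hh)
      · exact ⟨2, hf j⟩
      · rw [Set.mem_singleton_iff] at hh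
        exact ⟨t, hh ▸ hg⟩
    · rintro h (⟨j, rfl⟩ | hh)
      · exact hπI _ (hfI j)
      · rw [Set.mem_singleton_iff] at hh
        exact hh ▸ hπg
  have hnoB := no_hom F _ _ f hno (J ⊔ Ideal.span {l - 1})
    (fun j => (le_sup_left.trans le_sup_left : I ≤ J ⊔ Ideal.span {l - 1}) (hfI j)) l hl
    ((le_sup_right : Ideal.span {l - 1} ≤ J ⊔ Ideal.span {l - 1})
      (Ideal.mem_span_singleton_self _))
  have hker := sg F (MvPolynomial (Fin (r + 2)) F ⧸ (J ⊔ Ideal.span {l - 1}))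
    (RingHom.ker ψ) p q hPQ hnoB
  have hrk : Module.finrank F (RingHom.ker ψ) = p * q - p - q := by
    have h1 := LinearMap.finrank_range_add_finrank_ker ψ.toLinearMap
    rw [LinearMap.range_eq_top.2 (show Function.Surjective ψ.toLinearMap from hψ), finrank_top,
      hcrank, hBrank] at h1
    have h2 : Module.finrank F (RingHom.ker ψ) = Module.finrank F (LinearMap.ker ψ.toLinearMap) := by
      rfl
    omega
  rw [hrk] at hker
  have hcop : Nat.Coprime p q := (Nat.coprime_primes hp hq).2 hpq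
  have hfrob := frobeniusNumber_pair hcop hp.one_lt hq.one_lt
  rw [frobeniusNumber_iff] at hfrob
  exact hfrob.1 hker

end Pool.Agent.H918R4
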