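import Pool.Agent.H918R4.Defs

/-! Tasks G1 and G2 of the disproof of `u_r(K((t))) ≤ 2 u_r(K)`. -/
set_option autoImplicit false
namespace Pool.Agent.H918R4
open MvPolynomial

namespace TG1

/-- span of the monomials of degree `t` squarefree in `x_0, …, x_{r-1}`, plus the ideal -/
noncomputable def NN (A : Type) [CommRing A] (r t : ℕ) :
    Submodule A (MvPolynomial (Fin (r + 2)) A) :=
  Submodule.span A ((fun m => monomial m (1 : A)) '' Bset r t) ⊔ (gJ A r).restrictScalars A

theorem key (A : Type) [CommRing A] (r : ℕ) (n : ℕ) : ∀ m : Fin (r + 2) →₀ ℕ,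
    m.degree - m (Fin.last (r + 1)) = n → monomial m (1 : A) ∈ NN A r m.degree := by
  induction n using Nat.strong_induction_on with
  | _ n ih =>
    intro m hm
    by_cases h : ∀ j : Fin r, m j.castSucc.castSucc ≤ 1
    · apply Submodule.mem_sup_left
      exact Submodule.subset_span ⟨m, ⟨rfl, h⟩, rfl⟩
    · push Not at h
      obtain ⟨j, hj⟩ := h
      have hjl : j.castSucc.castSucc ≠ Fin.last (r + 1) := (Fin.castSucc_lt_last _).ne
      obtain ⟨m', hm'⟩ : ∃ m', m = m' + Finsupp.single j.castSucc.castSucc 2 := by
        refine ⟨m - Finsupp.single j.castSucc.castSucc 2, ?_⟩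
        rw [tsub_add_cancel_of_le]
        rw [Finsupp.single_le_iff]
        omega
      set m2 : Fin (r + 2) →₀ ℕ := m' + Finsupp.single j.succ.castSucc 1 +
        Finsupp.single (Fin.last (r + 1)) 1 with hm2
      have hdeg : m2.degree = m.degree := by
        rw [hm2, hm']
        simp only [map_add, Finsupp.degree_single]
      have hlast : m2 (Fin.last (r + 1)) = m (Fin.last (r + 1)) + 1 := by
        rw [hm2, hm']
        have hl2 : j.succ.castSucc ≠ Fin.last (r + 1) := (Fin.castSucc_lt_last _).ne
        simp [Finsupp.single_apply, hjl, hl2]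
      have hle : m2 (Fin.last (r + 1)) ≤ m2.degree := Finsupp.le_degree _ _
      have hmem := ih (m2.degree - m2 (Fin.last (r + 1))) (by omega) m2 rfl
      rw [hdeg] at hmem
      have e1 : monomial m (1 : A) = monomial m' (1 : A) * g A r j + monomial m2 (1 : A) := by
        unfold g
        rw [hm2, hm', mul_sub]
        simp only [MvPolynomial.X, monomial_mul, monomial_pow, one_pow, mul_one]
        rw [add_assoc m']
        have : 2 • Finsupp.single j.castSucc.castSucc 1 =
            Finsupp.single j.castSucc.castSucc 2 := by simp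
        rw [this]
        ring
      rw [e1]
      refine Submodule.add_mem _ ?_ hmem
      apply Submodule.mem_sup_right
      show monomial m' (1 : A) * g A r j ∈ gJ A r
      exact Ideal.mul_mem_left _ _ (Ideal.subset_span ⟨j, rfl⟩)

end TG1

open TG1 in
/-- G1 -/
theorem gspan (A : Type) [CommRing A] (r t : ℕ) (a : MvPolynomial (Fin (r + 2)) A)
    (ha : a.IsHomogeneous t) :
    ∃ (b : MvPolynomial (Fin (r + 2)) A) (h : Fin r → MvPolynomial (Fin (r + 2)) A),
      b ∈ Submodule.span A ((fun m => monomial m (1 : A)) '' Bset r t) ∧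
      a = b + ∑ j, h j * g A r j := by
  have h1 : a ∈ NN A r t := by
    rw [← support_sum_monomial_coeff a]
    refine Submodule.sum_mem _ fun m hm => ?_
    have hd : m.degree = t := by
      by_contra hne
      exact (mem_support_iff.1 hm) (ha.coeff_eq_zero hne)
    have h2 := key A r _ m rfl
    rw [hd] at h2
    have h3 : monomial m (coeff m a) = (coeff m a) • monomial m (1 : A) := by
      rw [smul_monomial, smul_eq_mul, mul_one]
    rw [h3]
    exact Submodule.smul_mem _ _ h2
  obtain ⟨b, hb, c, hc, hbc⟩ := Submodule.mem_sup.1 h1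
  have hc' : c ∈ Ideal.span (Set.range (g A r)) := hc
  rw [Ideal.mem_span_range_iff_exists_fun] at hc'
  obtain ⟨h, hh⟩ := hc'
  exact ⟨b, h, hb, by rw [hh, hbc]⟩

end Pool.Agent.H918R4
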