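import Pool.Agent.H918R4.TG4cpre
import Pool.Agent.H918R4.TG4a
import Pool.Agent.H918R4.TG4b

/-! Task G4c (helper180): homogeneous syzygies of `g`. -/

set_option autoImplicit false
namespace Pool.Agent.H918R4
open MvPolynomial

theorem koszul_homog (κ : Type) [Field κ] (r d : ℕ) (h : Fin r → MvPolynomial (Fin (r + 2)) κ)
    (hh : ∀ j, (h j).IsHomogeneous d) (hs : ∑ j, h j * g κ r j = 0) :
    h ∈ Submodule.span κ {v : Fin r → MvPolynomial (Fin (r + 2)) κ |
      ∃ (j k : Fin r) (m : Fin (r + 2) →₀ ℕ), j ≠ k ∧ m.degree + 2 = d ∧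
        v = Pi.single j (monomial m 1 * g κ r k) - Pi.single k (monomial m 1 * g κ r j)} :=
  TG4c.main (fun κ _ r j h hh => g_regular κ r j h hh)
    (fun R _ r f hreg h hs => koszul R r f hreg h hs) κ r d h hh hs

end Pool.Agent.H918R4
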