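import Pool.Agent.H918R4.Defs

set_option autoImplicit false
namespace Pool.Agent.H918R4
open MvPolynomial

namespace TG6d

theorem g_homog (A : Type) [CommRing A] (r : ℕ) (j : Fin r) : (g A r j).IsHomogeneous 2 := by
  unfold g
  refine IsHomogeneous.sub ?_ ?_
  · simpa using (isHomogeneous_X A _).pow 2
  · simpa using (isHomogeneous_X A _).mul (isHomogeneous_X A _)

/-- finiteness of the homogeneous part -/
theorem homog_finite (F : Type) [Field F] (n t : ℕ) :
    Module.Finite F (homogeneousSubmodule (Fin n) F t) :=
  Module.Finite.iff_fg.mpr (homogeneousSubmodule_fg (Fin n) F t)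

theorem syz_finite (F : Type) [Field F] (n r : ℕ) (f : Fin r → MvPolynomial (Fin n) F) (d : ℕ) :
    Module.Finite F (Syz f d) := by
  have := homog_finite F n d
  let φ : Syz f d →ₗ[F] (Fin r → homogeneousSubmodule (Fin n) F d) :=
    { toFun := fun h j => ⟨h.1 j, h.2.1 j⟩
      map_add' := fun a b => rfl
      map_smul' := fun c a => rfl }
  have hφ : Function.Injective φ := by
    intro a b hab
    apply Subtype.ext
    funext j
    have := congrFun hab j
    exact congrArg Subtype.val this
  exact Module.Finite.of_injective φ hφ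

/-- a Koszul vector is a syzygy -/
theorem kos_mem (F : Type) [Field F] (n r : ℕ) (f : Fin r → MvPolynomial (Fin n) F)
    (hf : ∀ j, (f j).IsHomogeneous 2) (d : ℕ) (j k : Fin r) (m : Fin n →₀ ℕ) (_hjk : j ≠ k)
    (hm : m.degree + 2 = d) :
    (Pi.single j (monomial m 1 * f k) - Pi.single k (monomial m 1 * f j) :
      Fin r → MvPolynomial (Fin n) F) ∈ Syz f d := by
  have hhom : ∀ i, monomial m (1 : F) * f i ∈ homogeneousSubmodule (Fin n) F d := by
    intro i
    rw [mem_homogeneousSubmodule, ← hm]
    exact (isHomogeneous_monomial 1 rfl).mul (hf i)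
  refine ⟨fun i => ?_, ?_⟩
  · rw [Pi.sub_apply]
    refine Submodule.sub_mem _ ?_ ?_
    · rw [Pi.single_apply]
      split_ifs
      · exact hhom k
      · exact Submodule.zero_mem _
    · rw [Pi.single_apply]
      split_ifs
      · exact hhom j
      · exact Submodule.zero_mem _
  · simp only [Pi.sub_apply, sub_mul, Finset.sum_sub_distrib]
    have h1 : ∀ (i : Fin r) (a : MvPolynomial (Fin n) F),
        ∑ x, (Pi.single i a : Fin r → MvPolynomial (Fin n) F) x * f x = a * f i := by
      intro i a
      rw [Finset.sum_eq_single i]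
      · rw [Pi.single_eq_same]
      · intro b _ hb
        rw [Pi.single_eq_of_ne hb, zero_mul]
      · intro h
        exact absurd (Finset.mem_univ i) h
    rw [h1, h1]
    ring

end TG6d

open TG6d in
/-- G6d with G4c and G5 as hypotheses -/
theorem syz_le_of (F : Type) [Field F] (V : ValuationSubring F) (r : ℕ)
    (f : Fin r → MvPolynomial (Fin (r + 2)) V) (hf : ∀ j, (f j).IsHomogeneous 2)
    (hred : ∀ j, MvPolynomial.map (IsLocalRing.residue V) (f j) = g _ r j) (d : ℕ)
    (H1 : ∀ (h : Fin r → MvPolynomial (Fin (r + 2)) (IsLocalRing.ResidueField V)),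
      (∀ j, (h j).IsHomogeneous d) → ∑ j, h j * g (IsLocalRing.ResidueField V) r j = 0 →
      h ∈ Submodule.span (IsLocalRing.ResidueField V)
        {v : Fin r → MvPolynomial (Fin (r + 2)) (IsLocalRing.ResidueField V) |
        ∃ (j k : Fin r) (m : Fin (r + 2) →₀ ℕ), j ≠ k ∧ m.degree + 2 = d ∧
          v = Pi.single j (monomial m 1 * g (IsLocalRing.ResidueField V) r k) -
            Pi.single k (monomial m 1 * g (IsLocalRing.ResidueField V) r j)})
    (H2 : ∀ (ι : Type) (w : ι → Fin r → MvPolynomial (Fin (r + 2)) V),
      LinearIndependent (IsLocalRing.ResidueField V)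
        (fun i r => MvPolynomial.map (IsLocalRing.residue V) (w i r)) →
      LinearIndependent F (fun i r => MvPolynomial.map (algebraMap V F) (w i r))) :
    Module.finrank (IsLocalRing.ResidueField V) (Syz (g (IsLocalRing.ResidueField V) r) d) ≤
      Module.finrank F (Syz (fun j => MvPolynomial.map (algebraMap V F) (f j)) d) := by
  classical
  set K : Set (Fin r → MvPolynomial (Fin (r + 2)) (IsLocalRing.ResidueField V)) :=
    {v | ∃ (j k : Fin r) (m : Fin (r + 2) →₀ ℕ), j ≠ k ∧ m.degree + 2 = d ∧
        v = Pi.single j (monomial m 1 * g (IsLocalRing.ResidueField V) r k) -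
          Pi.single k (monomial m 1 * g (IsLocalRing.ResidueField V) r j)} with hK
  have hspan : Submodule.span (IsLocalRing.ResidueField V) K =
      Syz (g (IsLocalRing.ResidueField V) r) d := by
    apply le_antisymm
    · rw [Submodule.span_le]
      rintro v ⟨j, k, m, hjk, hm, rfl⟩
      exact kos_mem _ _ _ _ (g_homog _ r) d j k m hjk hm
    · intro h hh
      exact H1 h (fun j => (mem_homogeneousSubmodule _ _).mp (hh.1 j)) hh.2
  obtain ⟨b, hbK, hbs, hbl⟩ := exists_linearIndependent (IsLocalRing.ResidueField V) K
  have := syz_finite (IsLocalRing.ResidueField V) (r + 2) r (g (IsLocalRing.ResidueField V) r) d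
  rw [← hspan, ← hbs]
  have hfin2 : Module.Finite (IsLocalRing.ResidueField V)
      (Submodule.span (IsLocalRing.ResidueField V) b) := by
    rw [hbs, hspan]
    infer_instance
  have : Finite b := by
    have h1 : LinearIndependent (IsLocalRing.ResidueField V)
        (fun i : b => (⟨i.1, Submodule.subset_span i.2⟩ :
          Submodule.span (IsLocalRing.ResidueField V) b)) := by
      apply LinearIndependent.of_comp (Submodule.subtype _)
      exact hbl
    exact h1.finite
  have : Fintype b := Fintype.ofFinite b
  rw [finrank_span_set_eq_card hbl, Set.toFinset_card]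
  -- lifts
  have hch : ∀ i : b, ∃ (j k : Fin r) (m : Fin (r + 2) →₀ ℕ), j ≠ k ∧ m.degree + 2 = d ∧
        i.1 = Pi.single j (monomial m 1 * g (IsLocalRing.ResidueField V) r k) -
          Pi.single k (monomial m 1 * g (IsLocalRing.ResidueField V) r j) := fun i => hbK i.2
  choose J K' M hne hdeg hi using hch
  set w : b → Fin r → MvPolynomial (Fin (r + 2)) V := fun i =>
    Pi.single (J i) (monomial (M i) 1 * f (K' i)) - Pi.single (K' i) (monomial (M i) 1 * f (J i))
    with hw
  have hmap : ∀ (B : Type) [CommRing B] (ψ : V →+* B) (i : b),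
      (fun x => MvPolynomial.map ψ (w i x)) =
        Pi.single (J i) (monomial (M i) 1 * MvPolynomial.map ψ (f (K' i))) -
          Pi.single (K' i) (monomial (M i) 1 * MvPolynomial.map ψ (f (J i))) := by
    intro B _ ψ i
    funext x
    simp only [hw, Pi.sub_apply, map_sub, Pi.single_apply]
    congr 1
    · split_ifs
      · rw [map_mul, map_monomial, map_one]
      · rw [map_zero]
    · split_ifs
      · rw [map_mul, map_monomial, map_one]
      · rw [map_zero]
  have hres : LinearIndependent (IsLocalRing.ResidueField V)
      (fun i r => MvPolynomial.map (IsLocalRing.residue V) (w i r)) := by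
    have e : (fun (i : b) r => MvPolynomial.map (IsLocalRing.residue V) (w i r)) =
        (Subtype.val : b → _) := by
      funext i
      rw [hi i]
      have := hmap _ (IsLocalRing.residue V) i
      rw [hred, hred] at this
      exact this
    rw [e]
    exact hbl
  have hF := H2 b w hres
  have := syz_finite F (r + 2) r (fun j => MvPolynomial.map (algebraMap V F) (f j)) d
  have hmem : ∀ i : b, (fun x => MvPolynomial.map (algebraMap V F) (w i x)) ∈
      Syz (fun j => MvPolynomial.map (algebraMap V F) (f j)) d := by
    intro i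
    rw [hmap F (algebraMap V F) i]
    exact kos_mem F (r + 2) r (fun j => MvPolynomial.map (algebraMap V F) (f j))
      (fun j => (hf j).map _) d (J i) (K' i) (M i) (hne i) (hdeg i)
  have hF2 : LinearIndependent F (fun i : b =>
      (⟨fun x => MvPolynomial.map (algebraMap V F) (w i x), hmem i⟩ :
        Syz (fun j => MvPolynomial.map (algebraMap V F) (f j)) d)) := by
    apply LinearIndependent.of_comp (Submodule.subtype _)
    exact hF
  exact hF2.fintype_card_le_finrank

end Pool.Agent.H918R4
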